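import Pool.Agent.Lib.MP_d439b2_co.RG.Spec

/-!
# MP_d439b2_co, RG, Arm (helper12)
-/

set_option autoImplicit false

namespace Pool.Agent.MPd439b2.RG

open Pool.Agent.MPd439b2
open Pool.Agent.MPd439b2.Rep
open Pool.Agent.MPd439b2.A0

theorem gArm : S_Arm := by
  intro V G C S c hC hcC hcS
  constructor
  · intro s hs
    have hsc : s ∈ C \ {c} := ⟨hs.1, fun h => hcS (by
      rw [Set.mem_singleton_iff] at h
      rw [← h]; exact hs.2)⟩
    obtain ⟨E, hE, hsE, hEc, hn⟩ := exists_comp G hsc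
    have hcE : c ∉ E := fun h => (hE h).2 rfl
    obtain ⟨b, hb, a, ha, hab⟩ := hC.2 E (fun x hx => (hE hx).1) ⟨s, hsE⟩
      (fun h => hcE (h ▸ hcC))
    have hac : a = c := by
      by_contra hne
      exact hn a ⟨ha.1, hne⟩ ⟨ha.2, b, hb, hab⟩
    exact ⟨E, hEc, fun x hx => (hE hx).1, hsE, hcE, b, hb, hac ▸ hab⟩
  · rintro ⟨s, hs⟩
    obtain ⟨T, hT, hcT, hTc, hn⟩ := exists_comp G (A := C \ S) (v := c) ⟨hcC, hcS⟩
    have hsT : s ∉ T := fun h => (hT h).2 hs.2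
    obtain ⟨b, hb, a, ha, hab⟩ := hC.2 T (fun x hx => (hT hx).1) ⟨c, hcT⟩
      (fun h => hsT (h ▸ hs.1))
    have haS : a ∈ S := by
      by_contra hne
      exact hn a ⟨ha.1, hne⟩ ⟨ha.2, b, hb, hab⟩
    exact ⟨T, a, hTc, fun x hx => (hT hx).1, hcT,
      Set.disjoint_left.2 fun x hx => (hT hx).2, ⟨ha.1, haS⟩, b, hb, hab⟩

end Pool.Agent.MPd439b2.RG
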