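import Pool.Agent.Lib.MP_d439b2_co.RG.Spec
import Pool.Agent.Lib.MP_d439b2_co.ImsTrans

/-!
# MP_d439b2_co, RG, Bc: the large component and a deep model of `K_4` in it (helper1)
-/

set_option autoImplicit false

namespace Pool.Agent.MPd439b2.RG

open Pool.Agent.MPd439b2
open Pool.Agent.MPd439b2.Rep
open Pool.Agent.MPd439b2.A0

namespace gBcAux

variable {V W : Type}

theorem conn_image {G : SimpleGraph V} {Y : Set V} {B : Set Y} (h : Conn (G.induce Y) B) :
    Conn G (Subtype.val '' B) := by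
  refine ⟨h.1.image _, fun C hC hne hne' => ?_⟩
  have h1 : Subtype.val ⁻¹' C ⊆ B := by
    intro x hx
    obtain ⟨y, hy, hyx⟩ := hC hx
    rwa [← Subtype.ext hyx]
  have h2 : (Subtype.val ⁻¹' C : Set Y).Nonempty := by
    obtain ⟨c, hc⟩ := hne
    obtain ⟨y, _, rfl⟩ := hC hc
    exact ⟨y, hc⟩
  have h3 : Subtype.val ⁻¹' C ≠ B := by
    intro h2
    apply hne'
    apply Set.Subset.antisymm hC
    rintro _ ⟨y, hy, rfl⟩
    rw [← h2] at hy
    exact hy
  obtain ⟨b, hb, a, ha, hab⟩ := h.2 (Subtype.val ⁻¹' C) h1 h2 h3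
  exact ⟨b, hb, a, ⟨⟨a, ha.1, rfl⟩, ha.2⟩, hab⟩

theorem conn_preimage {G : SimpleGraph V} {Y C : Set V} (h : Conn G C) (hCY : C ⊆ Y) :
    Conn (G.induce Y) (Subtype.val ⁻¹' C) := by
  refine ⟨?_, fun D hD hne hne' => ?_⟩
  · obtain ⟨c, hc⟩ := h.1
    exact ⟨⟨c, hCY hc⟩, hc⟩
  · obtain ⟨b, hb, a, ha, hab⟩ := h.2 (Subtype.val '' D) (by
      rintro _ ⟨x, hx, rfl⟩
      exact hD hx) (hne.image _) (by
      intro heq
      apply hne'
      apply Set.Subset.antisymm hD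
      intro x hx
      have h1 : x.val ∈ Subtype.val '' D := by rw [heq]; exact hx
      obtain ⟨y, hy, hyx⟩ := h1
      rwa [← Subtype.ext hyx])
    obtain ⟨x, hx, rfl⟩ := hb
    refine ⟨x, hx, ⟨a, hCY ha.1⟩, ⟨ha.1, fun h' => ha.2 ⟨_, h', rfl⟩⟩, hab⟩

theorem ims_image {H : SimpleGraph W} {G : SimpleGraph V} {Y : Set V}
    (h : IMS H (G.induce Y) Set.univ) : IMS H G Y := by
  obtain ⟨B, _, h2, h3, h4⟩ := h
  refine ⟨fun w => Subtype.val '' B w, ?_, fun w => conn_image (h2 w), ?_, ?_⟩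
  · rintro w _ ⟨x, _, rfl⟩
    exact x.2
  · intro w w' hw
    exact (Set.disjoint_image_iff Subtype.val_injective).2 (h3 w w' hw)
  · intro w w' hw
    rw [h4 w w' hw]
    constructor
    · rintro ⟨a, ha, b, hb, hab⟩
      exact ⟨a, ⟨a, ha, rfl⟩, b, ⟨b, hb, rfl⟩, hab⟩
    · rintro ⟨_, ⟨a, ha, rfl⟩, _, ⟨b, hb, rfl⟩, hab⟩
      exact ⟨a, ha, b, hb, hab⟩

theorem sub_of_comp {G : SimpleGraph V} {A B C : Set V} (hC : Conn G C) (hCA : C ⊆ A)
    (hne : (C ∩ B).Nonempty) (hB : ∀ u ∈ A, u ∉ nb G B) : C ⊆ B := by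
  have h1 := hC.eq_of_nb (C := C ∩ B) Set.inter_subset_left hne (by
    intro v hv hvn
    obtain ⟨hv1, b, hb, hbv⟩ := hvn
    exact hB v (hCA hv) ⟨fun h => hv1 ⟨hv, h⟩, b, hb.2, hbv⟩)
  rw [← h1]
  exact Set.inter_subset_right

theorem meet [Finite V] {T A B : Set V} (hA : A ⊆ T) (hB : B ⊆ T)
    (h : T.ncard < A.ncard + B.ncard) : (A ∩ B).Nonempty := by
  by_contra hne
  rw [Set.not_nonempty_iff_eq_empty] at hne
  have h1 := Set.ncard_union_eq (Set.disjoint_iff_inter_eq_empty.2 hne) (Set.toFinite A)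
    (Set.toFinite B)
  have h2 := Set.ncard_le_ncard (Set.union_subset hA hB) (Set.toFinite T)
  omega

theorem ncard_image_val {Y : Set V} (A : Set Y) : (Subtype.val '' A : Set V).ncard = A.ncard :=
  Set.ncard_image_of_injective A Subtype.val_injective

end gBcAux

open gBcAux in
theorem gBc : S_Bc := by
  classical
  intro hGK hGr
  obtain ⟨n, hn⟩ := hGr
  obtain ⟨w, hw⟩ := hGK 4 n 2 (by norm_num)
  refine ⟨max w 2, ?_⟩
  intro V _ G S s s' hno hU
  obtain ⟨C₀, hC₀, hC₀d, hC₀l⟩ := hU ∅ (by simp)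
  have hC₀N : C₀ ⊆ (NN G s s')ᶜ := by
    intro v hv hvN
    exact Set.disjoint_left.1 hC₀d hv (Or.inl hvN)
  obtain ⟨v₀, hv₀⟩ := hC₀.1
  obtain ⟨B, hBN, hvB, hB, hBnb⟩ := exists_comp G (hC₀N hv₀)
  have hC₀B : C₀ ⊆ B := sub_of_comp hC₀ hC₀N ⟨v₀, hv₀, hvB⟩ hBnb
  have hmono : ∀ {C D : Set V}, C ⊆ D → Lg S C → Lg S D := by
    intro C D hCD h
    have h1 := Set.ncard_le_ncard (Set.inter_subset_inter_right S hCD) (Set.toFinite (S ∩ D))
    unfold Lg at h ⊢
    omega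
  have hBd : Disjoint B (NN G s s') := by
    rw [Set.disjoint_left]
    exact fun v hv h => hBN hv h
  have hsub : ∀ C, Conn G C → Disjoint C (NN G s s') → Lg S C → C ⊆ B := by
    intro C hC hd hl
    have hCN : C ⊆ (NN G s s')ᶜ := fun v hv hvN => Set.disjoint_left.1 hd hv hvN
    apply sub_of_comp hC hCN _ hBnb
    obtain ⟨x, hx⟩ := meet (T := S) (A := S ∩ C) (B := S ∩ C₀) Set.inter_subset_left
      Set.inter_subset_left (by
        unfold Lg at hl hC₀l
        omega)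
    exact ⟨x, hx.1.2, hC₀B hx.2.2⟩
  have hBc : ∀ u ∈ B, ∀ v, G.Adj u v → v ∈ B ∨ v ∈ NN G s s' := by
    intro u hu v huv
    by_contra h
    push Not at h
    exact hBnb v h.2 ⟨h.1, u, hu, huv⟩
  have hvalS : ∀ C : Set V, C ⊆ B →
      ((Subtype.val ⁻¹' S : Set B) ∩ (Subtype.val ⁻¹' C)).ncard = (S ∩ C).ncard := by
    intro C hC
    rw [← ncard_image_val]
    congr 1
    ext v
    constructor
    · rintro ⟨x, ⟨h1, h2⟩, rfl⟩
      exact ⟨h1, h2⟩
    · rintro ⟨h1, h2⟩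
      exact ⟨⟨v, hC h2⟩, ⟨h1, h2⟩, rfl⟩
  have hSB : (Subtype.val ⁻¹' S : Set B).ncard = (S ∩ B).ncard := by
    rw [← hvalS B (le_refl _)]
    congr 1
    ext x
    simp
  rcases hw B (G.induce B) (Subtype.val ⁻¹' S) (by
    intro X hX
    obtain ⟨C, hC, hCd, hCl⟩ := hU (Subtype.val '' X) (by
      rw [ncard_image_val]
      exact lt_of_lt_of_le hX (le_max_left _ _))
    have hCd1 : Disjoint C (NN G s s') := by
      rw [Set.disjoint_left]
      exact fun v hv h => Set.disjoint_left.1 hCd hv (Or.inl h)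
    have hCB := hsub C hC hCd1 hCl
    refine ⟨Subtype.val ⁻¹' C, conn_preimage hC hCB, ?_, ?_⟩
    · rw [Set.disjoint_left]
      intro x hx hxX
      exact Set.disjoint_left.1 hCd hx (Or.inr ⟨x, hxX, rfl⟩)
    · rw [hvalS C hCB, hSB]
      have h1 := Set.ncard_le_ncard (Set.inter_subset_left : S ∩ B ⊆ S) (Set.toFinite _)
      unfold Lg at hCl
      omega) with h | ⟨b', hb', hdeep⟩
  · exfalso
    apply hno
    exact imsTrans _ _ _ _ _ _ _ (ims_univ_iff.mpr hn)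
      ((ims_image h).mono (Set.subset_univ _))
  · refine ⟨B, fun i => Subtype.val '' b' i, hB, hBd, hmono hC₀B hC₀l, hBc, ⟨?_, ?_⟩, ?_, ?_⟩
    · intro i
      exact conn_image (hb'.1 i)
    · intro i j hij
      refine ⟨(Set.disjoint_image_iff Subtype.val_injective).2 (hb'.2 i j hij).1, ?_⟩
      obtain ⟨a, ha, b, hb, hab⟩ := (hb'.2 i j hij).2
      exact ⟨a, ⟨a, ha, rfl⟩, b, ⟨b, hb, rfl⟩, hab⟩
    · rintro i _ ⟨x, _, rfl⟩
      exact x.2
    · intro c hc
      obtain ⟨i, C', hC'd, hC', hbC', hC'l⟩ := hdeep {⟨c, hc⟩} (by simp)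
      obtain ⟨C, hC, hCd, hCl⟩ := hU {c} (by simp)
      have hCd1 : Disjoint C (NN G s s') := by
        rw [Set.disjoint_left]
        exact fun v hv h => Set.disjoint_left.1 hCd hv (Or.inl h)
      have hCB := hsub C hC hCd1 hCl
      have h1 : (S ∩ (Subtype.val '' C')).ncard = ((Subtype.val ⁻¹' S : Set B) ∩ C').ncard := by
        rw [← ncard_image_val ((Subtype.val ⁻¹' S : Set B) ∩ C')]
        congr 1
        ext v
        constructor
        · rintro ⟨h1, x, hx, rfl⟩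
          exact ⟨x, ⟨h1, hx⟩, rfl⟩
        · rintro ⟨x, ⟨h1, hx⟩, rfl⟩
          exact ⟨h1, x, hx, rfl⟩
      have hI : (Subtype.val '' C' : Set V) ⊆ B := by
        rintro _ ⟨x, _, rfl⟩
        exact x.2
      obtain ⟨z, hz⟩ := meet (T := S ∩ B) (A := S ∩ C) (B := S ∩ (Subtype.val '' C'))
        (Set.inter_subset_inter_right S hCB) (Set.inter_subset_inter_right S hI) (by
          rw [h1]
          rw [hSB] at hC'l
          have h2 := Set.ncard_le_ncard (Set.inter_subset_left : S ∩ B ⊆ S) (Set.toFinite _)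
          unfold Lg at hCl
          omega)
      refine ⟨i, C ∪ Subtype.val '' C', hC.union (conn_image hC') (Or.inl ⟨z, hz.1.2, hz.2.2⟩),
        Set.union_subset hCB hI, ?_, ?_, hmono Set.subset_union_left hCl⟩
      · rintro (h | ⟨x, hx, hxc⟩)
        · exact Set.disjoint_left.1 hCd h (Or.inr rfl)
        · exact Set.disjoint_left.1 hC'd hx (Subtype.ext hxc)
      · rintro _ ⟨x, hx, rfl⟩
        exact Or.inr ⟨x, hbC' hx, rfl⟩

end Pool.Agent.MPd439b2.RG
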