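import Pool.Agent.Lib.MP_d439b2_co.RG.Spec

/-!
# MP_d439b2_co, RG: double counting (Cnt)
-/

set_option autoImplicit false

namespace Pool.Agent.MPd439b2.RG

open Finset

theorem gCnt : S_Cnt := by
  classical
  intro t' ht'
  refine ⟨512 * t', 512 * 2 ^ (512 * t'), Nat.one_le_iff_ne_zero.2 (by positivity), ?_⟩
  intro V _ S P R hPR
  haveI := Fintype.ofFinite V
  obtain ⟨t, ht⟩ : ∃ t, t = 512 * t' := ⟨_, rfl⟩
  rw [← ht] at hPR ⊢
  obtain ⟨s, hs⟩ : ∃ s : Finset V, ∀ v, v ∈ s ↔ v ∈ S := ⟨S.toFinset, fun v => Set.mem_toFinset⟩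
  obtain ⟨cc, hcc⟩ : ∃ cc : Set V → Finset V, ∀ Q v, v ∈ cc Q ↔ v ∈ s ∧ v ∈ Q :=
    ⟨fun Q => s.filter (fun v => v ∈ Q), fun Q v => mem_filter⟩
  have hcard : ∀ Q : Set V, (S ∩ Q).ncard = (cc Q).card := by
    intro Q
    rw [← Set.ncard_coe_finset]
    congr 1
    ext v
    simp [hs, hcc]
  have hcle : ∀ Q : Set V, (cc Q).card ≤ s.card := fun Q =>
    card_le_card (fun v hv => ((hcc Q v).1 hv).1)
  have hn : S.ncard = s.card := by
    rw [← Set.ncard_coe_finset]
    congr 1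
    ext v
    simp [hs]
  simp only [hcard, hn] at hPR ⊢
  obtain ⟨n, hnn⟩ : ∃ n, n = s.card := ⟨_, rfl⟩
  rw [← hnn] at hPR ⊢
  by_cases hn0 : n = 0
  · refine ⟨range t', ?_, by simp, by omega, by omega⟩
    intro x hx
    rw [mem_range] at hx ⊢
    omega
  by_contra hcon
  push Not at hcon
  have hAB : ∀ Λ ∈ (range t).powersetCard t',
      512 * 2 ^ t * ((cc {v | ∀ l ∈ Λ, v ∈ P l}).card *
        (cc {v | ∀ l ∈ Λ, v ∈ R l}).card) < n ^ 2 := by
    intro Λ hΛ
    rw [mem_powersetCard] at hΛ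
    have h1 := hcon Λ hΛ.1 hΛ.2
    have hA : (cc {v | ∀ l ∈ Λ, v ∈ P l}).card ≤ n := by
      rw [hnn]; exact hcle _
    have hB : (cc {v | ∀ l ∈ Λ, v ∈ R l}).card ≤ n := by
      rw [hnn]; exact hcle _
    generalize (cc {v | ∀ l ∈ Λ, v ∈ P l}).card = x at h1 hA
    generalize (cc {v | ∀ l ∈ Λ, v ∈ R l}).card = y at h1 hB
    generalize 512 * 2 ^ t = e at h1
    have hnpos : 0 < n := Nat.pos_of_ne_zero hn0
    by_cases hx : n ≤ e * x
    · have hy := h1 hx
      calc e * (x * y) = x * (e * y) := by ring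
        _ ≤ n * (e * y) := Nat.mul_le_mul_right _ hA
        _ < n * n := Nat.mul_lt_mul_of_pos_left hy hnpos
        _ = n ^ 2 := by ring
    · push Not at hx
      calc e * (x * y) = y * (e * x) := by ring
        _ ≤ n * (e * x) := Nat.mul_le_mul_right _ hB
        _ < n * n := Nat.mul_lt_mul_of_pos_left hx hnpos
        _ = n ^ 2 := by ring
  -- the number of indices for a pair
  have hsum : t * n ^ 2 ≤ 256 * ∑ p ∈ s ×ˢ s,
      ((range t).filter (fun l => p.1 ∈ P l ∧ p.2 ∈ R l)).card := by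
    have e1 : ∑ p ∈ s ×ˢ s, ((range t).filter (fun l => p.1 ∈ P l ∧ p.2 ∈ R l)).card =
        ∑ l ∈ range t, (cc (P l)).card * (cc (R l)).card := by
      simp only [card_filter]
      rw [sum_comm]
      refine sum_congr rfl fun l _ => ?_
      rw [← card_filter, ← card_product]
      congr 1
      ext p
      rw [mem_filter, mem_product, mem_product, hcc, hcc]
      tauto
    rw [e1, mul_sum]
    calc t * n ^ 2 = ∑ _l ∈ range t, n ^ 2 := by rw [sum_const, card_range, smul_eq_mul]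
      _ ≤ _ := by
        refine sum_le_sum fun l hl => ?_
        obtain ⟨g1, g2⟩ := hPR l (mem_range.1 hl)
        calc n ^ 2 = n * n := by ring
          _ ≤ (16 * (cc (P l)).card) * (16 * (cc (R l)).card) :=
            Nat.mul_le_mul g1 g2
          _ = _ := by ring
  have h1 : ∑ p ∈ s ×ˢ s, ((range t).filter (fun l => p.1 ∈ P l ∧ p.2 ∈ R l)).card ≤
      ((s ×ˢ s).filter (fun p => t' ≤ ((range t).filter (fun l => p.1 ∈ P l ∧ p.2 ∈ R l)).card)).card
        * t + n ^ 2 * t' := by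
    rw [← sum_filter_add_sum_filter_not (s ×ˢ s)
      (fun p => t' ≤ ((range t).filter (fun l => p.1 ∈ P l ∧ p.2 ∈ R l)).card)]
    apply Nat.add_le_add
    · rw [← smul_eq_mul]
      apply sum_le_card_nsmul
      intro p _
      exact le_trans (card_filter_le _ _) (by rw [card_range])
    · calc ∑ p ∈ (s ×ˢ s).filter (fun p => ¬ t' ≤ ((range t).filter
            (fun l => p.1 ∈ P l ∧ p.2 ∈ R l)).card),
            ((range t).filter (fun l => p.1 ∈ P l ∧ p.2 ∈ R l)).card
          ≤ ((s ×ˢ s).filter (fun p => ¬ t' ≤ ((range t).filter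
            (fun l => p.1 ∈ P l ∧ p.2 ∈ R l)).card)).card • t' := by
            apply sum_le_card_nsmul
            intro p hp
            rw [mem_filter] at hp
            omega
        _ ≤ n ^ 2 * t' := by
            rw [smul_eq_mul]
            apply Nat.mul_le_mul_right
            refine le_trans (card_filter_le _ _) ?_
            rw [card_product, ← hnn]
            apply le_of_eq
            ring
  have h3 : ((s ×ˢ s).filter
      (fun p => t' ≤ ((range t).filter (fun l => p.1 ∈ P l ∧ p.2 ∈ R l)).card)).card ≤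
      ∑ Λ ∈ (range t).powersetCard t', (cc {v | ∀ l ∈ Λ, v ∈ P l}).card *
        (cc {v | ∀ l ∈ Λ, v ∈ R l}).card := by
    have hsub : (s ×ˢ s).filter
        (fun p => t' ≤ ((range t).filter (fun l => p.1 ∈ P l ∧ p.2 ∈ R l)).card) ⊆
        ((range t).powersetCard t').biUnion (fun Λ =>
          (cc {v | ∀ l ∈ Λ, v ∈ P l}) ×ˢ
          (cc {v | ∀ l ∈ Λ, v ∈ R l})) := by
      intro p hp
      rw [mem_filter, mem_product] at hp
      obtain ⟨Λ, hΛ, hΛc⟩ := exists_subset_card_eq hp.2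
      rw [mem_biUnion]
      refine ⟨Λ, mem_powersetCard.2 ⟨fun x hx => (mem_filter.1 (hΛ hx)).1, hΛc⟩, ?_⟩
      rw [mem_product, hcc, hcc]
      exact ⟨⟨hp.1.1, fun l hl => (mem_filter.1 (hΛ hl)).2.1⟩,
        ⟨hp.1.2, fun l hl => (mem_filter.1 (hΛ hl)).2.2⟩⟩
    refine le_trans (card_le_card hsub) (le_trans card_biUnion_le ?_)
    refine sum_le_sum fun Λ _ => ?_
    rw [card_product]
  have hne : ((range t).powersetCard t').Nonempty := by
    apply powersetCard_nonempty.2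
    rw [card_range]
    omega
  have h4 : 512 * 2 ^ t * ∑ Λ ∈ (range t).powersetCard t',
      (cc {v | ∀ l ∈ Λ, v ∈ P l}).card *
        (cc {v | ∀ l ∈ Λ, v ∈ R l}).card < 2 ^ t * n ^ 2 := by
    rw [mul_sum]
    calc _ < ∑ _Λ ∈ (range t).powersetCard t', n ^ 2 := sum_lt_sum_of_nonempty hne hAB
      _ = ((range t).powersetCard t').card * n ^ 2 := by rw [sum_const, smul_eq_mul]
      _ ≤ 2 ^ t * n ^ 2 := by
        apply Nat.mul_le_mul_right
        rw [card_powersetCard, card_range]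
        exact Nat.choose_le_two_pow t t'
  generalize ((s ×ˢ s).filter
      (fun p => t' ≤ ((range t).filter (fun l => p.1 ∈ P l ∧ p.2 ∈ R l)).card)).card = N at h1 h3
  generalize ∑ p ∈ s ×ˢ s, ((range t).filter (fun l => p.1 ∈ P l ∧ p.2 ∈ R l)).card = D at hsum h1
  generalize ∑ Λ ∈ (range t).powersetCard t',
      (cc {v | ∀ l ∈ Λ, v ∈ P l}).card *
        (cc {v | ∀ l ∈ Λ, v ∈ R l}).card = F at h3 h4
  have h5 : n ^ 2 ≤ 512 * N := by
    have h6 : t * n ^ 2 ≤ 256 * (N * t + n ^ 2 * t') := le_trans hsum (Nat.mul_le_mul_left _ h1)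
    have h7 : t' * (256 * n ^ 2) ≤ t' * (256 * (512 * N)) := by
      rw [ht] at h6
      nlinarith
    have h8 := Nat.le_of_mul_le_mul_left h7 ht'
    omega
  have h9 : 2 ^ t * n ^ 2 ≤ 512 * 2 ^ t * F := by
    calc 2 ^ t * n ^ 2 ≤ 2 ^ t * (512 * N) := Nat.mul_le_mul_left _ h5
      _ = 512 * 2 ^ t * N := by ring
      _ ≤ 512 * 2 ^ t * F := Nat.mul_le_mul_left _ h3
  omega

end Pool.Agent.MPd439b2.RG
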