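import Pool.Agent.Lib.MP_d439b2_co.RG.Spec

/-!
# MP_d439b2_co, RG: counting the pairs of type Al (CoA)
-/

set_option autoImplicit false

namespace Pool.Agent.MPd439b2.RG

open Pool.Agent.MPd439b2 Finset

namespace gCoAAux

/-- counting pairs by the second coordinate -/
theorem fib {V : Type} [Finite V] (S : Set V) (T : V → V → Prop)
    (h : ∀ y ∈ S, 8 * {x | x ∈ S ∧ T x y}.ncard ≤ S.ncard) :
    8 * {p : V × V | p.1 ∈ S ∧ p.2 ∈ S ∧ T p.1 p.2}.ncard ≤ S.ncard ^ 2 := by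
  classical
  have := Fintype.ofFinite V
  have hn : S.ncard = S.toFinset.card := by
    rw [← Set.ncard_coe_finset, Set.coe_toFinset]
  have e1 : {p : V × V | p.1 ∈ S ∧ p.2 ∈ S ∧ T p.1 p.2}.ncard ≤
      ∑ y ∈ S.toFinset, {x | x ∈ S ∧ T x y}.ncard := by
    have hsub : {p : V × V | p.1 ∈ S ∧ p.2 ∈ S ∧ T p.1 p.2} ⊆
        ↑(S.toFinset.biUnion (fun y => ({x | x ∈ S ∧ T x y}.toFinset).image (fun x => (x, y)))) := by
      intro p hp
      rw [mem_coe, mem_biUnion]
      refine ⟨p.2, Set.mem_toFinset.2 hp.2.1, mem_image.2 ⟨p.1, Set.mem_toFinset.2 ⟨hp.1, hp.2.2⟩, rfl⟩⟩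
    refine le_trans (Set.ncard_le_ncard hsub (Set.toFinite _)) ?_
    rw [Set.ncard_coe_finset]
    refine le_trans card_biUnion_le (sum_le_sum fun y _ => ?_)
    refine le_trans card_image_le ?_
    rw [← Set.ncard_coe_finset, Set.coe_toFinset]
  calc 8 * {p : V × V | p.1 ∈ S ∧ p.2 ∈ S ∧ T p.1 p.2}.ncard
      ≤ 8 * ∑ y ∈ S.toFinset, {x | x ∈ S ∧ T x y}.ncard := Nat.mul_le_mul_left _ e1
    _ = ∑ y ∈ S.toFinset, 8 * {x | x ∈ S ∧ T x y}.ncard := by rw [mul_sum]
    _ ≤ ∑ _y ∈ S.toFinset, S.ncard := sum_le_sum fun y hy => h y (Set.mem_toFinset.1 hy)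
    _ = S.ncard ^ 2 := by rw [sum_const, smul_eq_mul, ← hn]; ring

/-- a set missing a large set is small -/
theorem small {V : Type} [Finite V] {S C T : Set V} (hC : Lg S C) (hT : T ⊆ S) (hd : Disjoint T C) :
    8 * T.ncard ≤ S.ncard := by
  have h1 : T ⊆ S \ C := fun x hx => ⟨hT hx, fun h => Set.disjoint_left.1 hd hx h⟩
  have h2 := Set.ncard_le_ncard h1 (Set.toFinite _)
  have h3 := Set.ncard_inter_add_ncard_sdiff_eq_ncard S C (Set.toFinite _)
  unfold Lg at hC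
  omega

end gCoAAux

theorem gCoA : S_CoA := by
  intro V _ G S b hb
  have := gCoAAux.fib S (fun s s' => Unb G S b s s' ∧ Al G S s s') (fun s' _ => by
    rcases Set.eq_empty_or_nonempty {x | x ∈ S ∧ Unb G S b x s' ∧ Al G S x s'} with he | ⟨s, hs⟩
    · rw [he, Set.ncard_empty]
      omega
    · obtain ⟨C, hC, hCd, hCL⟩ := hs.2.1 ∅ (by rw [Set.ncard_empty]; omega)
      refine gCoAAux.small hCL (fun x hx => hx.1) ?_
      rw [Set.disjoint_left]
      intro x hx hxC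
      refine hx.2.2 C hC hxC (fun v hv => ?_) hCL
      have hnv : v ∉ NN G s s' := fun h => Set.disjoint_left.1 hCd hv (Or.inl h)
      constructor
      · rintro rfl
        exact hnv (Or.inr (Or.inl rfl))
      · intro h
        exact hnv (Or.inr (Or.inr (Or.inr h))))
  exact this

end Pool.Agent.MPd439b2.RG
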