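import Pool.Agent.Lib.MP_d439b2_co.RG.Spec

/-!
# MP_d439b2_co, RG: counting the pairs of type Be (CoB)
-/

set_option autoImplicit false

namespace Pool.Agent.MPd439b2.RG

open Pool.Agent.MPd439b2 Finset

namespace gCoBAux

/-- counting pairs by the first coordinate -/
theorem fib {V : Type} [Finite V] (S : Set V) (T : V → V → Prop)
    (h : ∀ y ∈ S, 8 * {x | x ∈ S ∧ T y x}.ncard ≤ S.ncard) :
    8 * {p : V × V | p.1 ∈ S ∧ p.2 ∈ S ∧ T p.1 p.2}.ncard ≤ S.ncard ^ 2 := by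
  classical
  have := Fintype.ofFinite V
  have hn : S.ncard = S.toFinset.card := by
    rw [← Set.ncard_coe_finset, Set.coe_toFinset]
  have e1 : {p : V × V | p.1 ∈ S ∧ p.2 ∈ S ∧ T p.1 p.2}.ncard ≤
      ∑ y ∈ S.toFinset, {x | x ∈ S ∧ T y x}.ncard := by
    have hsub : {p : V × V | p.1 ∈ S ∧ p.2 ∈ S ∧ T p.1 p.2} ⊆
        ↑(S.toFinset.biUnion (fun y => ({x | x ∈ S ∧ T y x}.toFinset).image (fun x => (y, x)))) := by
      intro p hp
      rw [mem_coe, mem_biUnion]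
      refine ⟨p.1, Set.mem_toFinset.2 hp.1, mem_image.2 ⟨p.2, Set.mem_toFinset.2 ⟨hp.2.1, hp.2.2⟩, rfl⟩⟩
    refine le_trans (Set.ncard_le_ncard hsub (Set.toFinite _)) ?_
    rw [Set.ncard_coe_finset]
    refine le_trans card_biUnion_le (sum_le_sum fun y _ => ?_)
    refine le_trans card_image_le ?_
    rw [← Set.ncard_coe_finset, Set.coe_toFinset]
  calc 8 * {p : V × V | p.1 ∈ S ∧ p.2 ∈ S ∧ T p.1 p.2}.ncard
      ≤ 8 * ∑ y ∈ S.toFinset, {x | x ∈ S ∧ T y x}.ncard := Nat.mul_le_mul_left _ e1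
    _ = ∑ y ∈ S.toFinset, 8 * {x | x ∈ S ∧ T y x}.ncard := by rw [mul_sum]
    _ ≤ ∑ _y ∈ S.toFinset, S.ncard := sum_le_sum fun y hy => h y (Set.mem_toFinset.1 hy)
    _ = S.ncard ^ 2 := by rw [sum_const, smul_eq_mul, ← hn]; ring

/-- a set missing a large set is small -/
theorem small {V : Type} [Finite V] {S C T : Set V} (hC : Lg S C) (hT : T ⊆ S) (hd : Disjoint T C) :
    8 * T.ncard ≤ S.ncard := by
  have h1 : T ⊆ S \ C := fun x hx => ⟨hT hx, fun h => Set.disjoint_left.1 hd hx h⟩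
  have h2 := Set.ncard_le_ncard h1 (Set.toFinite _)
  have h3 := Set.ncard_inter_add_ncard_sdiff_eq_ncard S C (Set.toFinite _)
  unfold Lg at hC
  omega

/-- two large sets meet -/
theorem meet {V : Type} [Finite V] {S C D : Set V} (hC : Lg S C) (hD : Lg S D) :
    (C ∩ D).Nonempty := by
  by_contra hcon
  rw [Set.not_nonempty_iff_eq_empty] at hcon
  have hd : Disjoint (S ∩ C) D := by
    rw [Set.disjoint_left]
    intro x hx hxD
    have : x ∈ C ∩ D := ⟨hx.2, hxD⟩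
    rw [hcon] at this
    exact this
  have h1 := small hD Set.inter_subset_left hd
  unfold Lg at hC
  omega

end gCoBAux

open gCoBAux in
theorem gCoB : S_CoB := by
  classical
  intro V _ G S
  refine fib S (fun s s' => Be G S s s' ∧ ¬ Al G S s s') (fun s _ => ?_)
  rcases Set.eq_empty_or_nonempty {x | x ∈ S ∧ Be G S s x ∧ ¬ Al G S s x} with he | ⟨s₀, hs₀⟩
  · rw [he, Set.ncard_empty]
    omega
  · -- a connected large set containing `s`
    obtain ⟨C₁, hC₁, hsC₁, hC₁L⟩ : ∃ C₁, Conn G C₁ ∧ s ∈ C₁ ∧ Lg S C₁ := by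
      have := hs₀.2.2
      unfold Al at this
      push Not at this
      obtain ⟨C, h1, h2, _, h4⟩ := this
      exact ⟨C, h1, h2, h4⟩
    -- the minimal pair
    let Q : ℕ → Prop := fun n => ∃ (c : V) (R : Set V), R.ncard = n ∧ Conn G R ∧ Lg S R ∧ c ∉ R ∧
      (∀ u ∈ R, ∀ v, G.Adj u v → v ∈ R ∨ v = c) ∧ s ∉ R
    have hQ : ∃ n, Q n := by
      obtain ⟨c, R, h1, h2, h3, h4, h5, _⟩ := hs₀.2.1
      exact ⟨R.ncard, c, R, rfl, h1, h2, h3, h4, h5⟩
    obtain ⟨c₀, R₀, hR₀n, hR₀, hR₀L, hc₀, hcl₀, hsR₀⟩ := Nat.find_spec hQ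
    have hmin : ∀ (c : V) (R : Set V), Conn G R → Lg S R → c ∉ R →
        (∀ u ∈ R, ∀ v, G.Adj u v → v ∈ R ∨ v = c) → s ∉ R → R₀.ncard ≤ R.ncard := by
      intro c R h1 h2 h3 h4 h5
      rw [hR₀n]
      exact Nat.find_min' hQ ⟨c, R, rfl, h1, h2, h3, h4, h5⟩
    refine small hR₀L (fun x hx => hx.1) ?_
    rw [Set.disjoint_left]
    intro s' hs' hs'R₀
    obtain ⟨c, R, hR, hRL, hcR, hclR, hsR, hs'R⟩ := hs'.2.1
    obtain ⟨z, hz⟩ := meet hRL hR₀L
    -- the edge leaving `R` inside `R₀`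
    have hcR₀ : c ∈ R₀ := by
      obtain ⟨x, hx, y, hy, hxy⟩ := hR₀.2 (R ∩ R₀) Set.inter_subset_right ⟨z, hz⟩
        (fun h => hs'R (by rw [← h] at hs'R₀; exact hs'R₀.1))
      rcases hclR x hx.1 y hxy with h | h
      · exact absurd ⟨h, hy.1⟩ hy.2
      · rw [← h]
        exact hy.1
    have hc₀R : c₀ ∈ R := by
      by_contra hc₀R
      have hsub : R ⊆ R₀ := by
        by_contra hns
        obtain ⟨x, hx, y, hy, hxy⟩ := hR.2 (R ∩ R₀) Set.inter_subset_left ⟨z, hz⟩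
          (fun h => hns (by rw [← h]; exact Set.inter_subset_right))
        rcases hcl₀ x hx.2 y hxy with h | h
        · exact hy.2 ⟨hy.1, h⟩
        · exact hc₀R (h ▸ hy.1)
      have hlt : R.ncard < R₀.ncard := Set.ncard_lt_ncard
        ⟨hsub, fun h => hcR (h hcR₀)⟩ (Set.toFinite _)
      have := hmin c R hR hRL hcR hclR hsR
      omega
    -- the union is closed
    obtain ⟨y, hy⟩ := meet hC₁L hRL
    have hne : C₁ ∩ (R ∪ R₀) ≠ C₁ := by
      intro h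
      have : s ∈ C₁ ∩ (R ∪ R₀) := by rw [h]; exact hsC₁
      rcases this.2 with h' | h'
      · exact hsR h'
      · exact hsR₀ h'
    obtain ⟨x, hx, v, hv, hxv⟩ := hC₁.2 (C₁ ∩ (R ∪ R₀)) Set.inter_subset_left
      ⟨y, hy.1, Or.inl hy.2⟩ hne
    apply hv.2
    refine ⟨hv.1, ?_⟩
    rcases hx.2 with h | h
    · rcases hclR x h v hxv with h' | h'
      · exact Or.inl h'
      · exact Or.inr (h' ▸ hcR₀)
    · rcases hcl₀ x h v hxv with h' | h'
      · exact Or.inr h'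
      · exact Or.inl (h' ▸ hc₀R)

end Pool.Agent.MPd439b2.RG
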