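import Pool.Agent.Lib.MP_d439b2_co.RG.Spec

/-!
# MP_d439b2_co, RG: the exchange lemma (helper16)
-/

set_option autoImplicit false

namespace Pool.Agent.MPd439b2.RG

open Pool.Agent.MPd439b2
open Pool.Agent.MPd439b2.Rep
open Pool.Agent.MPd439b2.A0

namespace gExAux

variable {V : Type} {G : SimpleGraph V}

/-- permutation of the indices -/
theorem perm {A : Fin 4 → Set V} (hA : CliqueModel G A) {i j : Fin 4} (hij : i ≠ j) {x y : V}
    (hx : x ∈ A i) (hy : y ∈ A j) : ∃ A' : Fin 4 → Set V, CliqueModel G A' ∧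
      x ∈ A' 0 ∧ y ∈ A' 1 ∧ ∀ v, (∃ i, v ∈ A' i) ↔ ∃ i, v ∈ A i := by
  obtain ⟨σ, h0, h1⟩ : ∃ σ : Equiv.Perm (Fin 4), σ 0 = i ∧ σ 1 = j := by
    obtain ⟨τ, hτ⟩ : ∃ τ : Equiv.Perm (Fin 4), τ = Equiv.swap 0 i := ⟨_, rfl⟩
    have e0 : τ 0 = i := by rw [hτ]; exact Equiv.swap_apply_left 0 i
    obtain ⟨j', hj'⟩ : ∃ j', τ j' = j := ⟨τ.symm j, τ.apply_symm_apply j⟩
    have hne : j' ≠ 0 := by
      rintro rfl
      exact hij (e0.symm.trans hj')
    refine ⟨Equiv.trans (Equiv.swap 1 j') τ, ?_, ?_⟩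
    · rw [Equiv.trans_apply, Equiv.swap_apply_of_ne_of_ne (by decide) hne.symm, e0]
    · rw [Equiv.trans_apply, Equiv.swap_apply_left, hj']
  refine ⟨fun t => A (σ t), ⟨fun t => hA.1 _, fun s t hst => hA.2 _ _ fun h => hst (σ.injective h)⟩,
    ?_, ?_, fun v => ⟨?_, ?_⟩⟩
  · show x ∈ A (σ 0)
    rw [h0]
    exact hx
  · show y ∈ A (σ 1)
    rw [h1]
    exact hy
  · rintro ⟨t, ht⟩
    exact ⟨σ t, ht⟩
  · rintro ⟨t, ht⟩
    refine ⟨σ.symm t, ?_⟩
    show v ∈ A (σ (σ.symm t))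
    rw [σ.apply_symm_apply]
    exact ht

/-- moving a part of one branch set to another one -/
theorem move {A : Fin 4 → Set V} (hA : CliqueModel G A) {i m : Fin 4} (him : m ≠ i)
    {P Q : Set V} (hPQ : P ∪ Q = A i) (hd : Disjoint P Q) (cP : Conn G P) (cQ : Conn G Q)
    (t1 : Tch G P Q) (t2 : Tch G Q (A m)) (t3 : ∀ t, t ≠ i → t ≠ m → Tch G P (A t)) :
    ∃ A' : Fin 4 → Set V, CliqueModel G A' ∧ A' i = P ∧ A' m = A m ∪ Q ∧
      ∀ v, (∃ i, v ∈ A' i) ↔ ∃ i, v ∈ A i := by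
  have hPi : P ⊆ A i := by rw [← hPQ]; exact Set.subset_union_left
  have hQi : Q ⊆ A i := by rw [← hPQ]; exact Set.subset_union_right
  have hA'i : (fun t => if t = i then P else if t = m then A m ∪ Q else A t) i = P := if_pos rfl
  have hA'm : (fun t => if t = i then P else if t = m then A m ∪ Q else A t) m = A m ∪ Q := by
    show (if m = i then P else if m = m then A m ∪ Q else A m) = A m ∪ Q
    rw [if_neg him, if_pos rfl]
  have hA't : ∀ t, t ≠ i → t ≠ m →
      (fun t => if t = i then P else if t = m then A m ∪ Q else A t) t = A t := by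
    intro t h1 h2
    show (if t = i then P else if t = m then A m ∪ Q else A t) = A t
    rw [if_neg h1, if_neg h2]
  have Rim : Disjoint P (A m ∪ Q) ∧ Tch G P (A m ∪ Q) := by
    refine ⟨Set.disjoint_union_right.2 ⟨(hA.2 i m him.symm).1.mono_left hPi, hd⟩, ?_⟩
    exact t1.mono subset_rfl Set.subset_union_right
  have Rit : ∀ t, t ≠ i → t ≠ m → Disjoint P (A t) ∧ Tch G P (A t) := fun t h1 h2 =>
    ⟨(hA.2 i t (Ne.symm h1)).1.mono_left hPi, t3 t h1 h2⟩
  have Rmt : ∀ t, t ≠ i → t ≠ m → Disjoint (A m ∪ Q) (A t) ∧ Tch G (A m ∪ Q) (A t) := fun t h1 h2 =>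
    ⟨Set.disjoint_union_left.2 ⟨(hA.2 m t (Ne.symm h2)).1,
      (hA.2 i t (Ne.symm h1)).1.mono_left hQi⟩,
      (hA.2 m t (Ne.symm h2)).2.mono Set.subset_union_left subset_rfl⟩
  have sym : ∀ {X Y : Set V}, Disjoint X Y ∧ Tch G X Y → Disjoint Y X ∧ Tch G Y X := fun h =>
    ⟨h.1.symm, h.2.symm⟩
  refine ⟨fun t => if t = i then P else if t = m then A m ∪ Q else A t, ⟨fun t => ?_,
    fun s t hst => ?_⟩, hA'i, hA'm, fun v => ⟨?_, ?_⟩⟩
  · by_cases h1 : t = i
    · rw [h1, hA'i]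
      exact cP
    · by_cases h2 : t = m
      · rw [h2, hA'm]
        exact (hA.1 m).union cQ (Or.inr t2.symm)
      · rw [hA't t h1 h2]
        exact hA.1 t
  · by_cases h1 : s = i
    · rw [h1, hA'i]
      by_cases h3 : t = m
      · rw [h3, hA'm]
        exact Rim
      · have h4 : t ≠ i := fun h => hst (h1.trans h.symm)
        rw [hA't t h4 h3]
        exact Rit t h4 h3
    · by_cases h2 : s = m
      · rw [h2, hA'm]
        by_cases h3 : t = i
        · rw [h3, hA'i]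
          exact sym Rim
        · have h4 : t ≠ m := fun h => hst (h2.trans h.symm)
          rw [hA't t h3 h4]
          exact Rmt t h3 h4
      · rw [hA't s h1 h2]
        by_cases h3 : t = i
        · rw [h3, hA'i]
          exact sym (Rit s h1 h2)
        · by_cases h4 : t = m
          · rw [h4, hA'm]
            exact sym (Rmt s h1 h2)
          · rw [hA't t h3 h4]
            exact hA.2 s t hst
  · rintro ⟨t, ht⟩
    by_cases h1 : t = i
    · rw [h1, hA'i] at ht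
      exact ⟨i, hPi ht⟩
    · by_cases h2 : t = m
      · rw [h2, hA'm] at ht
        rcases ht with ht | ht
        · exact ⟨m, ht⟩
        · exact ⟨i, hQi ht⟩
      · rw [hA't t h1 h2] at ht
        exact ⟨t, ht⟩
  · rintro ⟨t, ht⟩
    by_cases h1 : t = i
    · rw [h1, ← hPQ] at ht
      rcases ht with ht | ht
      · exact ⟨i, by rw [hA'i]; exact ht⟩
      · exact ⟨m, by rw [hA'm]; exact Or.inr ht⟩
    · by_cases h2 : t = m
      · exact ⟨m, by rw [hA'm]; exact Or.inl (h2 ▸ ht)⟩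
      · exact ⟨t, by rw [hA't t h1 h2]; exact ht⟩

/-- the complement of a component -/
theorem compl_conn {B D : Set V} {x : V} (hB : Conn G B) (hx : x ∈ B) (hD : D ⊆ B \ {x})
    (hn : ∀ u ∈ B \ {x}, u ∉ nb G D) : Conn G (B \ D) := by
  have hxD : x ∉ D := fun h => (hD h).2 rfl
  refine ⟨⟨x, hx, hxD⟩, fun C hC hne hne' => ?_⟩
  by_cases hxC : x ∈ C
  · -- use the rest
    have h1 : ((B \ D) \ C).Nonempty := by
      by_contra h
      rw [Set.not_nonempty_iff_eq_empty, Set.sdiff_eq_empty] at h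
      exact hne' (Set.Subset.antisymm hC h)
    obtain ⟨c, hc, a, ha, hca⟩ := hB.2 ((B \ D) \ C) (fun v hv => hv.1.1) h1 (by
      intro h
      have : x ∈ (B \ D) \ C := by rw [h]; exact hx
      exact this.2 hxC)
    have hcx : c ≠ x := by
      rintro rfl
      exact hc.2 hxC
    have haD : a ∉ D := fun h => hn c ⟨hc.1.1, hcx⟩ ⟨hc.1.2, a, h, hca.symm⟩
    have haC : a ∈ C := by
      by_contra h
      exact ha.2 ⟨⟨ha.1, haD⟩, h⟩
    exact ⟨a, haC, c, hc, hca.symm⟩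
  · obtain ⟨c, hc, a, ha, hca⟩ := hB.2 C (fun v hv => (hC hv).1) hne (by
      intro h
      exact hxC (by rw [h]; exact hx))
    have hcx : c ≠ x := by
      rintro rfl
      exact hxC hc
    have haD : a ∉ D := fun h => hn c ⟨(hC hc).1, hcx⟩ ⟨(hC hc).2, a, h, hca.symm⟩
    exact ⟨c, hc, a, ⟨⟨ha.1, haD⟩, ha.2⟩, hca⟩

theorem tch_union {X Y Z : Set V} (h : Tch G (X ∪ Y) Z) : Tch G X Z ∨ Tch G Y Z := by
  obtain ⟨a, ha, b, hb, hab⟩ := h
  rcases ha with ha | ha
  · exact Or.inl ⟨a, ha, b, hb, hab⟩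
  · exact Or.inr ⟨a, ha, b, hb, hab⟩

theorem fourth : ∀ i j l : Fin 4, j ≠ i → l ≠ i → j ≠ l → ∃ k : Fin 4, k ≠ i ∧ k ≠ j ∧ k ≠ l ∧
    ∀ t, t = i ∨ t = j ∨ t = k ∨ t = l := by
  decide

end gExAux

open gExAux in
/-- **Ex.** -/
theorem gEx : S_Ex := by
  intro V _ G A hA hmin x y hxy hx hy
  obtain ⟨i, hxi⟩ := hx
  obtain ⟨j₀, hyj⟩ := hy
  by_cases hij : i = j₀
  swap
  · exact perm hA hij hxi hyj
  rw [← hij] at hyj
  obtain ⟨D, hD, hyD, cD, hn⟩ := exists_comp G (A := A i \ {x}) (v := y) ⟨hyj, hxy.symm⟩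
  have hxD : x ∉ D := fun h => (hD h).2 rfl
  have cD' : Conn G (A i \ D) := compl_conn (hA.1 i) hxi hD hn
  have hDi : D ⊆ A i := fun v hv => (hD hv).1
  have hU : (A i \ D) ∪ D = A i := Set.sdiff_union_of_subset hDi
  have hU' : D ∪ (A i \ D) = A i := by rw [Set.union_comm]; exact hU
  have dd : Disjoint D (A i \ D) := Set.disjoint_sdiff_right
  obtain ⟨l, hli, hl⟩ := hmin i D hDi (fun h => hxD (h ▸ hxi)) cD
  obtain ⟨j, hji, hj⟩ := hmin i (A i \ D) Set.sdiff_subset (fun h => by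
    have : y ∈ A i \ D := by rw [h]; exact hyj
    exact this.2 hyD) cD'
  have tl : Tch G (A i \ D) (A l) := by
    have h1 := (hA.2 i l hli.symm).2
    rw [← hU] at h1
    rcases tch_union h1 with h | h
    · exact h
    · exact absurd h hl
  have tj : Tch G D (A j) := by
    have h1 := (hA.2 i j hji.symm).2
    rw [← hU] at h1
    rcases tch_union h1 with h | h
    · exact absurd h hj
    · exact h
  have hjl : j ≠ l := by
    rintro rfl
    exact hl tj
  have tDD : Tch G D (A i \ D) := by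
    obtain ⟨b, hb, a, ha, hab⟩ := (hA.1 i).2 D hDi cD.1 (fun h => hxD (h ▸ hxi))
    exact ⟨b, hb, a, ha, hab⟩
  obtain ⟨k, hki, hkj, hkl, hall⟩ : ∃ k : Fin 4, k ≠ i ∧ k ≠ j ∧ k ≠ l ∧
      ∀ t, t = i ∨ t = j ∨ t = k ∨ t = l := by
    exact fourth i j l hji hli hjl
  have tk : Tch G (A i \ D) (A k) ∨ Tch G D (A k) := by
    have h1 := (hA.2 i k hki.symm).2
    rw [← hU] at h1
    exact tch_union h1
  rcases tk with tk | tk
  · obtain ⟨A', h1, h2, h3, h4⟩ := move hA hji hU dd.symm cD' cD tDD.symm tj (by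
      intro t ht1 ht2
      rcases hall t with h | h | h | h
      · exact absurd h ht1
      · exact absurd h ht2
      · rw [h]; exact tk
      · rw [h]; exact tl)
    obtain ⟨A'', g1, g2, g3, g4⟩ := perm h1 hji.symm (x := x) (y := y)
      (by rw [h2]; exact ⟨hxi, hxD⟩) (by rw [h3]; exact Or.inr hyD)
    exact ⟨A'', g1, g2, g3, fun v => (g4 v).trans (h4 v)⟩
  · obtain ⟨A', h1, h2, h3, h4⟩ := move hA hli hU' dd cD cD' tDD tl (by
      intro t ht1 ht2
      rcases hall t with h | h | h | h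
      · exact absurd h ht1
      · rw [h]; exact tj
      · rw [h]; exact tk
      · exact absurd h ht2)
    obtain ⟨A'', g1, g2, g3, g4⟩ := perm h1 hli (x := x) (y := y)
      (by rw [h3]; exact Or.inr ⟨hxi, hxD⟩) (by rw [h2]; exact hyD)
    exact ⟨A'', g1, g2, g3, fun v => (g4 v).trans (h4 v)⟩

end Pool.Agent.MPd439b2.RG
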