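import Pool.Agent.Lib.MP_d439b2_co.RG.Spec

/-!
# MP_d439b2_co, RG/Fam: the three families (task of helper48, by helper77)
-/

set_option autoImplicit false

namespace Pool.Agent.MPd439b2.RG

open Pool.Agent.MPd439b2
open Pool.Agent.MPd439b2.Rep
open Pool.Agent.MPd439b2.A0

/-- **Fam.** The three families. -/
theorem gFam : S_Fam := by
  intro α _ M h4 h0 h1 h2 h3
  -- one inclusion
  have sub1 : ∀ i j k : Fin 3, i ≠ j → i ≠ k → j ≠ k → ∀ m ∈ M i, ∀ m' ∈ M j, ∀ m'' ∈ M k,
      Disjoint m m' → m ⊆ m'' → m'' = m ∨ m'' = m ∪ m' := by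
    intro i j k hij hik hjk m hm m' hm' m'' hm'' hd hs
    by_cases he : m'' = m
    · exact Or.inl he
    right
    have hsub : m'' \ m ⊆ m' := by
      rcases h3 i k j hik hij hjk.symm m hm m'' hm'' m' hm' hs (fun h => he h.symm) with h5 | h5
      · obtain ⟨x, hx⟩ := h0 i m hm
        exact absurd (h5 hx) (Set.disjoint_left.1 hd hx)
      · exact h5
    have hne : (m'' \ m).Nonempty := by
      rw [Set.diff_nonempty]
      exact fun h => he (Set.Subset.antisymm h hs)
    have hsup : m' ⊆ m'' := by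
      rcases h1 k j hjk.symm m'' hm'' m' hm' with h5 | h5 | h5
      · obtain ⟨x, hx⟩ := h0 i m hm
        exact absurd (h5 (hs hx)) (Set.disjoint_left.1 hd hx)
      · exact h5
      · obtain ⟨x, hx⟩ := hne
        exact absurd (hsub hx) (Set.disjoint_left.1 h5 hx.1)
    apply Set.Subset.antisymm
    · intro x hx
      by_cases hxm : x ∈ m
      · exact Or.inl hxm
      · exact Or.inr (hsub ⟨hx, hxm⟩)
    · exact Set.union_subset hs hsup
  -- not disjoint
  have nd : ∀ i j k : Fin 3, i ≠ j → i ≠ k → j ≠ k → ∀ m ∈ M i, ∀ m' ∈ M j, ¬ Disjoint m m' := by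
    intro i j k hij hik hjk m hm m' hm' hd
    have hsub : M k ⊆ {m, m', m ∪ m'} := by
      intro m'' hm''
      rcases h2 i j k hij hik hjk m hm m' hm' m'' hm'' hd with h5 | h5
      · rcases sub1 i j k hij hik hjk m hm m' hm' m'' hm'' hd h5 with h6 | h6
        · exact Or.inl h6
        · exact Or.inr (Or.inr h6)
      · rcases sub1 j i k hij.symm hjk hik m' hm' m hm m'' hm'' hd.symm h5 with h6 | h6
        · exact Or.inr (Or.inl h6)
        · right
          right
          rw [Set.mem_singleton_iff, h6, Set.union_comm]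
    have h5 : (M k).ncard ≤ ({m, m', m ∪ m'} : Set (Set α)).ncard :=
      Set.ncard_le_ncard hsub (Set.toFinite _)
    have h6 : ({m, m', m ∪ m'} : Set (Set α)).ncard ≤ 3 := by
      refine (Set.ncard_insert_le _ _).trans ?_
      have := Set.ncard_insert_le m' ({m ∪ m'} : Set (Set α))
      rw [Set.ncard_singleton] at this
      omega
    have := h4 k
    omega
  -- comparable
  have cmp : ∀ i j k : Fin 3, i ≠ j → i ≠ k → j ≠ k → ∀ m ∈ M i, ∀ m' ∈ M j,
      m ⊆ m' ∨ m' ⊆ m := by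
    intro i j k hij hik hjk m hm m' hm'
    rcases h1 i j hij m hm m' hm' with h5 | h5 | h5
    · exact Or.inl h5
    · exact Or.inr h5
    · exact absurd h5 (nd i j k hij hik hjk m hm m' hm')
  have cc : ∀ i j k : Fin 3, i ≠ j → i ≠ k → j ≠ k → ∀ m ∈ M i, ∀ m' ∈ M j, m ⊆ m' → m ≠ m' →
      ∀ m'' ∈ M k, m ⊆ m'' := by
    intro i j k hij hik hjk m hm m' hm' hs hne m'' hm''
    rcases h3 i j k hij hik hjk m hm m' hm' m'' hm'' hs hne with h5 | h5
    · exact h5
    · rcases cmp i k j hik hij hjk.symm m hm m'' hm'' with h6 | h6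
      · exact h6
      · exfalso
        apply hne
        apply Set.Subset.antisymm hs
        intro x hx
        by_contra hxm
        exact hxm (h6 (h5 ⟨hx, hxm⟩))
  -- the minimum
  obtain ⟨a, ⟨i, hai⟩, hmin⟩ := Set.exists_min_image {m : Set α | ∃ i, m ∈ M i} Set.ncard
    (Set.toFinite _) (by
      have h5 : (M 0).Nonempty := by
        rw [← Set.ncard_pos (Set.toFinite _)]
        have := h4 0
        omega
      obtain ⟨m, hm⟩ := h5
      exact ⟨m, 0, hm⟩)
  have hjk : ∀ i : Fin 3, ∃ j k : Fin 3, i ≠ j ∧ i ≠ k ∧ j ≠ k := by decide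
  obtain ⟨j, k, hij, hik, hjk⟩ := hjk i
  have E : ∀ m' ∈ M j, ∀ m'' ∈ M k, m' ≠ m'' → a = m' ∨ a = m'' := by
    intro m' hm' m'' hm'' hne
    rcases cmp j k i hjk hij.symm hik.symm m' hm' m'' hm'' with h5 | h5
    · left
      have h6 := cc j k i hjk hij.symm hik.symm m' hm' m'' hm'' h5 hne a hai
      exact (Set.eq_of_subset_of_ncard_le h6 (hmin m' ⟨j, hm'⟩) (Set.toFinite _)).symm
    · right
      have h6 := cc k j i hjk.symm hik.symm hij.symm m'' hm'' m' hm' h5 hne.symm a hai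
      exact (Set.eq_of_subset_of_ncard_le h6 (hmin m'' ⟨k, hm''⟩) (Set.toFinite _)).symm
  have big : ∀ l : Fin 3, 1 < (M l \ {a}).ncard := by
    intro l
    have h5 := Set.le_ncard_diff ({a} : Set (Set α)) (M l) (Set.toFinite _)
    rw [Set.ncard_singleton] at h5
    have := h4 l
    omega
  obtain ⟨m₁, m₂, hm₁, hm₂, h12⟩ := (Set.one_lt_ncard_iff (Set.toFinite _)).1 (big j)
  obtain ⟨m'', -, hm'', -, -⟩ := (Set.one_lt_ncard_iff (Set.toFinite _)).1 (big k)
  by_cases he : m₁ = m''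
  · have hne : m₂ ≠ m'' := fun h => h12 (he.trans h.symm)
    rcases E m₂ hm₂.1 m'' hm''.1 hne with h5 | h5
    · exact hm₂.2 h5.symm
    · exact hm''.2 h5.symm
  · rcases E m₁ hm₁.1 m'' hm''.1 he with h5 | h5
    · exact hm₁.2 h5.symm
    · exact hm''.2 h5.symm

end Pool.Agent.MPd439b2.RG
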