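import Pool.Agent.Lib.MP_d439b2_co.RG.Spec

/-!
# MP_d439b2_co, RG/GKH: Theorem GK for havens
-/

set_option autoImplicit false

namespace Pool.Agent.MPd439b2.RG

open Pool.Agent.MPd439b2
open Pool.Agent.MPd439b2.Rep
open Pool.Agent.MPd439b2.A0

theorem gGKH : S_GKH := by
  classical
  intro t r k hkt
  obtain ⟨R, hReq⟩ : ∃ R, R = max t 2 * (4 * r + max t 2 + 1) := ⟨_, rfl⟩
  have hR : 2 ≤ R := by
    have : 2 ≤ max t 2 := le_max_right _ _
    rw [hReq]
    nlinarith
  have hkR : 2 * k ≤ R := by
    have h1 : t ≤ max t 2 := le_max_left _ _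
    have h2 : 2 ≤ max t 2 := le_max_right _ _
    rw [hReq]
    nlinarith
  obtain ⟨w, hw⟩ := gridTheorem (max t 2) R (le_max_right _ _) hR
  refine ⟨w, fun V _ G S hC => ?_⟩
  have : Fintype V := Fintype.ofFinite V
  have hcard : ∀ X : Set V, X.toFinset.card = X.ncard := fun X => by
    rw [Set.ncard_eq_toFinset_card']
  have hcardF : ∀ X : Finset V, (X : Set V).ncard = X.card := fun X => Set.ncard_coe_finset X
  have hint : ∀ X : Finset V, (S.toFinset ∩ X).card = (S ∩ (X : Set V)).ncard := fun X => by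
    rw [← hcardF]
    congr 1
    ext v
    simp
  have hHav : GT.Hav G S.toFinset w := by
    intro X hX
    obtain ⟨C, hC1, hC2, hC3⟩ := hC (X : Set V) (by rw [hcardF]; exact hX)
    refine ⟨C.toFinset, ?_, ?_, ?_⟩
    · rw [Set.coe_toFinset]
      exact hC1
    · rw [Finset.disjoint_left]
      intro v hv hv'
      exact Set.disjoint_left.mp hC2 (by simpa using hv') (by simpa using hv)
    · unfold GT.Big
      rw [hcard, hint, Set.coe_toFinset]
      exact hC3
  have hbig : ∀ D : Finset V, GT.Big S.toFinset D → S.ncard < 2 * (S ∩ (D : Set V)).ncard := by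
    intro D hD
    unfold GT.Big at hD
    rw [hcard, hint] at hD
    exact hD
  rcases hw V G S.toFinset hHav with ⟨b, hb1, hb2, hb3, hb4⟩ | ⟨g, hg, hdeep⟩
  · right
    have hcl : CliqueModel G (fun i => (b i : Set V)) :=
      ⟨hb1, fun i j hij => ⟨Finset.disjoint_coe.mpr (hb2 i j hij), hb3 i j hij⟩⟩
    have hdp : Deep G S (max t 2) (fun i => (b i : Set V)) := by
      intro X hX
      obtain ⟨i, D, h1, h2, h3, h4⟩ := hb4 X.toFinset (by rw [hcard]; exact hX)
      refine ⟨i, D, ?_, h1, Finset.coe_subset.mpr h4, hbig D h2⟩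
      rw [Set.disjoint_left]
      intro v hv hv'
      exact Finset.disjoint_left.mp h3 (by simpa using hv') (by simpa using hv)
    refine deep_small hkt hcl (fun X hX => hdp X ?_) (fun h2 X hX => hdp X ?_)
    · have h1 : t ≤ max t 2 := le_max_left _ _
      have h2 : 2 ≤ max t 2 := le_max_right _ _
      have h3 : max k 1 ≤ max t 2 := by
        apply max_le <;> omega
      omega
    · have h1 : t ≤ max t 2 := le_max_left _ _
      omega
  · obtain ⟨g', hg'v⟩ : ∃ g' : ℕ → ℕ → Set V,
        ∀ i j (hi : i < R) (hj : j < R), g' i j = (g ⟨i, hi⟩ ⟨j, hj⟩ : Set V) :=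
      ⟨fun i j => if h : i < R ∧ j < R then (g ⟨i, h.1⟩ ⟨j, h.2⟩ : Set V) else ∅,
        fun i j hi hj => dif_pos ⟨hi, hj⟩⟩
    have hmod : GrModel G R g' := by
      refine ⟨fun i hi j hj => ?_, fun i hi j hj i' hi' j' hj' hne => ?_, fun i hi j hj => ?_,
        fun i hi j hj => ?_⟩
      · rw [hg'v i j hi hj]
        exact hg.conn _ _
      · rw [hg'v i j hi hj, hg'v i' j' hi' hj']
        refine Finset.disjoint_coe.mpr (hg.dis _ _ _ _ fun h => ?_)
        simp only [Prod.mk.injEq, Fin.mk.injEq] at h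
        rcases hne with h' | h'
        · exact h' h.1
        · exact h' h.2
      · rw [hg'v i j hi (by omega), hg'v i (j + 1) hi hj]
        exact hg.hor _ _ _ rfl
      · rw [hg'v i j (by omega) hj, hg'v (i + 1) j hi hj]
        exact hg.ver _ _ _ rfl
    have hrows : DeepRows G S R (max k 1) g' := by
      intro X hX
      obtain ⟨i, D, h1, h2, h3, h4⟩ := hdeep X.toFinset (by
        rw [hcard]
        have : 2 ≤ R := hR
        rcases le_total k 1 with h | h
        · rw [max_eq_right h] at hX
          omega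
        · rw [max_eq_left h] at hX
          omega)
      refine ⟨i.val, i.2, D, ?_, h1, ?_, hbig D h2⟩
      · rw [Set.disjoint_left]
        intro v hv hv'
        exact Finset.disjoint_left.mp h3 (by simpa using hv') (by simpa using hv)
      · rintro v ⟨j, hj, hv⟩
        rw [hg'v i.val j i.2 hj] at hv
        exact Finset.coe_subset.mpr (h4 ⟨j, hj⟩) hv
    have hkt' : max k 1 ≤ max t 2 := by
      have h1 : t ≤ max t 2 := le_max_left _ _
      have h2 : 2 ≤ max t 2 := le_max_right _ _
      apply max_le <;> omega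
    subst hReq
    have hj := jump (t := max t 2) (n := r) (m := 4 * r + max t 2) hkt'
      (by have : 2 ≤ max t 2 := le_max_right _ _; omega) (by omega) (by omega) hmod hrows
    rcases hj with h | ⟨B, hB, hd⟩
    · exact Or.inl h
    · exact Or.inr (deep_small hkt hB hd (fun _ X hX => hd X (lt_of_lt_of_le hX (le_max_left _ _))))

end Pool.Agent.MPd439b2.RG
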