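import Pool.Agent.Lib.MP_d439b2_co.RG.Spec

/-!
# MP_d439b2_co, RG: a balanced pair gives a balanced separation (Grp)
-/

set_option autoImplicit false

namespace Pool.Agent.MPd439b2.RG

open Pool.Agent.MPd439b2

theorem gGrp : S_Grp := by
  classical
  intro V _ G S b s s' hLt hs hs' hn hU
  unfold Unb at hU
  push Not at hU
  obtain ⟨X, hX, hC⟩ := hU
  obtain ⟨Z, hZ⟩ : ∃ Z, Z = NN G s s' ∪ X := ⟨_, rfl⟩
  rw [← hZ] at hC
  -- few letters in `Z`
  have hSZ : (S ∩ Z).ncard ≤ b + 1 := by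
    have hsub : S ∩ Z ⊆ {s, s'} ∪ X := by
      rintro v ⟨hv, hvZ⟩
      rw [hZ] at hvZ
      rcases hvZ with hv1 | hv1
      · rcases hv1 with h | h | h | h
        · exact Or.inl (Or.inl h)
        · exact Or.inl (Or.inr h)
        · exact absurd h (hLt.st v hv s hs)
        · exact absurd h (hLt.st v hv s' hs')
      · exact Or.inr hv1
    have h1 := Set.ncard_le_ncard hsub (Set.toFinite _)
    have h2 := Set.ncard_union_le {s, s'} X
    have h3 : ({s, s'} : Set V).ncard ≤ 2 := by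
      have := Set.ncard_insert_le s {s'}
      rw [Set.ncard_singleton] at this
      exact this
    omega
  have hSW : S.ncard = (S ∩ Z).ncard + (S \ Z).ncard :=
    (Set.ncard_inter_add_ncard_sdiff_eq_ncard S Z (Set.toFinite _)).symm
  -- closed sets
  let cl : Set V → Prop := fun P => P ⊆ Zᶜ ∧ (∀ p ∈ P, ∀ r, r ∉ Z → r ∉ P → ¬ G.Adj p r) ∧
    S.ncard ≤ 16 * (S ∩ P).ncard
  let Q : ℕ → Prop := fun n => ∃ P, P.ncard = n ∧ cl P
  have hQ : ∃ n, Q n := by
    refine ⟨(Zᶜ).ncard, Zᶜ, rfl, subset_rfl, fun p _ r hr hr' => absurd hr hr', ?_⟩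
    have : S ∩ Zᶜ = S \ Z := rfl
    rw [this]
    omega
  obtain ⟨P, hPn, hPW, hPcl, hPb⟩ := Nat.find_spec hQ
  have hmin : ∀ P', P' ⊆ Zᶜ → (∀ p ∈ P', ∀ r, r ∉ Z → r ∉ P' → ¬ G.Adj p r) →
      P'.ncard < P.ncard → 16 * (S ∩ P').ncard < S.ncard := by
    intro P' h1 h2 h3
    by_contra h4
    push Not at h4
    rw [hPn] at h3
    exact Nat.find_min hQ h3 ⟨P', rfl, h1, h2, h4⟩
  refine ⟨X, P, Zᶜ \ P, hX, ?_, hPb, ?_⟩
  · rw [← hZ]
    refine ⟨?_, ?_, ?_, ?_, ?_⟩
    · ext v
      simp only [Set.mem_union, Set.mem_sdiff, Set.mem_compl_iff, Set.mem_univ, iff_true]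
      tauto
    · rw [Set.disjoint_left]
      exact fun v hv hvZ => hPW hv hvZ
    · rw [Set.disjoint_left]
      exact fun v hv hvR => hvR.2 hv
    · rw [Set.disjoint_left]
      exact fun v hv hvR => hvR.1 hv
    · exact fun p hp r hr => hPcl p hp r hr.1 hr.2
  · by_contra hcon
    push Not at hcon
    have hSP : (S \ Z).ncard = (S ∩ P).ncard + (S ∩ (Zᶜ \ P)).ncard := by
      have h1 := Set.ncard_inter_add_ncard_sdiff_eq_ncard (S \ Z) P (Set.toFinite _)
      have e1 : (S \ Z) ∩ P = S ∩ P := by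
        ext v
        simp only [Set.mem_inter_iff, Set.mem_sdiff]
        constructor
        · rintro ⟨⟨h1, _⟩, h2⟩
          exact ⟨h1, h2⟩
        · rintro ⟨h1, h2⟩
          exact ⟨⟨h1, hPW h2⟩, h2⟩
      have e2 : (S \ Z) \ P = S ∩ (Zᶜ \ P) := by
        ext v
        simp only [Set.mem_inter_iff, Set.mem_sdiff, Set.mem_compl_iff]
        tauto
      rw [e1, e2] at h1
      exact h1.symm
    have hPL : Lg S P := by
      unfold Lg
      omega
    have hnc : ¬ Conn G P := by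
      intro hc
      refine hC P hc ?_ hPL
      rw [Set.disjoint_left]
      exact fun v hv hvZ => hPW hv hvZ
    have hPne : P.Nonempty := by
      rw [Set.nonempty_iff_ne_empty]
      intro h
      rw [h, Set.inter_empty, Set.ncard_empty] at hPb
      omega
    obtain ⟨C, hCP, hCc, hCne, hCnb⟩ := exists_comp_of_not_conn hPne hnc
    have hcross : ∀ p ∈ C, ∀ r ∈ P \ C, ¬ G.Adj p r := by
      intro p hp r hr hadj
      exact hCnb r hr.1 ⟨hr.2, p, hp, hadj⟩
    have hCss : C ⊂ P := ⟨hCP, fun h => hCne (Set.Subset.antisymm hCP h)⟩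
    have h1 := hmin C (hCP.trans hPW) (by
      intro p hp r hrZ hrC hadj
      by_cases hrP : r ∈ P
      · exact hcross p hp r ⟨hrP, hrC⟩ hadj
      · exact hPcl p (hCP hp) r hrZ hrP hadj) (Set.ncard_lt_ncard hCss (Set.toFinite _))
    have hDss : P \ C ⊂ P := by
      refine ⟨Set.sdiff_subset, fun h => ?_⟩
      obtain ⟨x, hx⟩ := hCc.1
      exact (h (hCP hx)).2 hx
    have h2 := hmin (P \ C) (Set.sdiff_subset.trans hPW) (by
      intro p hp r hrZ hrC hadj
      by_cases hrP : r ∈ P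
      · have hrC' : r ∈ C := by
          by_contra h
          exact hrC ⟨hrP, h⟩
        exact hcross r hrC' p hp hadj.symm
      · exact hPcl p hp.1 r hrZ hrP hadj) (Set.ncard_lt_ncard hDss (Set.toFinite _))
    have h3 : (S ∩ P).ncard = (S ∩ C).ncard + (S ∩ (P \ C)).ncard := by
      have h1 := Set.ncard_inter_add_ncard_sdiff_eq_ncard (S ∩ P) C (Set.toFinite _)
      have e1 : (S ∩ P) ∩ C = S ∩ C := by
        ext v
        simp only [Set.mem_inter_iff]
        constructor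
        · rintro ⟨⟨h1, _⟩, h2⟩
          exact ⟨h1, h2⟩
        · rintro ⟨h1, h2⟩
          exact ⟨⟨h1, hCP h2⟩, h2⟩
      have e2 : (S ∩ P) \ C = S ∩ (P \ C) := by
        ext v
        simp only [Set.mem_inter_iff, Set.mem_sdiff]
        tauto
      rw [e1, e2] at h1
      exact h1.symm
    omega

end Pool.Agent.MPd439b2.RG
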