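import Pool.Agent.Lib.MP_d439b2_co.RG.Spec

/-!
# MP_d439b2_co, RG: disjoint good pairs (Mat)
-/

set_option autoImplicit false

namespace Pool.Agent.MPd439b2.RG

open Finset

theorem gMat : S_Mat := by
  classical
  intro V _ S U t ht hU
  haveI := Fintype.ofFinite V
  obtain ⟨s, hs⟩ : ∃ s : Finset V, ∀ v, v ∈ s ↔ v ∈ S := ⟨S.toFinset, fun v => Set.mem_toFinset⟩
  have hn : S.ncard = s.card := by
    rw [← Set.ncard_coe_finset]
    congr 1
    ext v
    simp [hs]
  rw [hn] at ht hU
  have hne : s.Nonempty := by
    rw [← card_pos]
    omega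
  obtain ⟨v0, _⟩ := hne
  have key : ∀ m ≤ t, ∃ a b : ℕ → V, (∀ l < m, a l ∈ S ∧ b l ∈ S ∧ a l ≠ b l ∧ ¬ U (a l) (b l)) ∧
      ∀ l < m, ∀ l' < m, l ≠ l' → a l ≠ a l' ∧ b l ≠ b l' ∧ a l ≠ b l' ∧ b l ≠ a l' := by
    intro m
    induction m with
    | zero => exact fun _ => ⟨fun _ => v0, fun _ => v0, by omega, by omega⟩
    | succ m ih =>
      intro hm
      obtain ⟨a, b, h1, h2⟩ := ih (by omega)
      obtain ⟨s', hs'⟩ : ∃ s' : Finset V, s' = s \ ((range m).image a ∪ (range m).image b) := ⟨_, rfl⟩
      have hc1 : ((range m).image a ∪ (range m).image b).card ≤ 2 * m := by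
        refine le_trans (card_union_le _ _) ?_
        have e1 : ((range m).image a).card ≤ m := le_trans card_image_le (by rw [card_range])
        have e2 : ((range m).image b).card ≤ m := le_trans card_image_le (by rw [card_range])
        omega
      have hc2 : s.card ≤ s'.card + 2 * m := by
        have := le_card_sdiff ((range m).image a ∪ (range m).image b) s
        rw [← hs'] at this
        omega
      obtain ⟨u, hu, v, hv, huv, hUuv⟩ : ∃ u ∈ s', ∃ v ∈ s', u ≠ v ∧ ¬ U u v := by
        by_contra hcon
        push Not at hcon
        have hsub : (↑s'.offDiag : Set (V × V)) ⊆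
            {p : V × V | p.1 ∈ S ∧ p.2 ∈ S ∧ p.1 ≠ p.2 ∧ U p.1 p.2} := by
          intro p hp
          rw [mem_coe, mem_offDiag] at hp
          refine ⟨?_, ?_, hp.2.2, hcon _ hp.1 _ hp.2.1 hp.2.2⟩
          · rw [← hs]
            rw [hs'] at hp
            exact (mem_sdiff.1 hp.1).1
          · rw [← hs]
            rw [hs'] at hp
            exact (mem_sdiff.1 hp.2.1).1
        have hle := Set.ncard_le_ncard hsub (Set.toFinite _)
        rw [Set.ncard_coe_finset, offDiag_card] at hle
        have h3 : 8 * (s'.card * s'.card - s'.card) ≤ 3 * s.card ^ 2 :=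
          le_trans (Nat.mul_le_mul_left _ hle) hU
        generalize s.card = n at *
        generalize s'.card = m' at *
        have hm1 : 1 ≤ m' := by omega
        obtain ⟨r, rfl⟩ : ∃ r, m' = r + 1 := ⟨m' - 1, by omega⟩
        have h4 : (r + 1) * (r + 1) - (r + 1) = (r + 1) * r := by
          rw [Nat.mul_succ]
          omega
        rw [h4] at h3
        have h5 : 98 * n ≤ 100 * (r + 1) := by omega
        have h6 : 97 * n ≤ 100 * r := by omega
        have h7 := Nat.mul_le_mul h5 h6
        have h8 : 0 < n := by omega
        nlinarith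
      rw [hs', mem_sdiff, mem_union, mem_image, mem_image] at hu hv
      push Not at hu hv
      have hua : ∀ l < m, a l ≠ u := fun l hl => (hu.2.1 l (mem_range.2 hl))
      have hub : ∀ l < m, b l ≠ u := fun l hl => (hu.2.2 l (mem_range.2 hl))
      have hva : ∀ l < m, a l ≠ v := fun l hl => (hv.2.1 l (mem_range.2 hl))
      have hvb : ∀ l < m, b l ≠ v := fun l hl => (hv.2.2 l (mem_range.2 hl))
      refine ⟨Function.update a m u, Function.update b m v, ?_, ?_⟩
      · intro l hl
        by_cases hlm : l = m
        · subst hlm
          rw [Function.update_self, Function.update_self]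
          exact ⟨(hs u).1 hu.1, (hs v).1 hv.1, huv, hUuv⟩
        · rw [Function.update_of_ne hlm, Function.update_of_ne hlm]
          exact h1 l (by omega)
      · intro l hl l' hl' hll
        by_cases hlm : l = m
        · subst hlm
          have hl2 : l' ≠ l := fun h => hll h.symm
          rw [Function.update_self, Function.update_self, Function.update_of_ne hl2,
            Function.update_of_ne hl2]
          have hl3 : l' < l := by omega
          exact ⟨(hua l' hl3).symm, (hvb l' hl3).symm, (hub l' hl3).symm, (hva l' hl3).symm⟩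
        · by_cases hlm' : l' = m
          · subst hlm'
            rw [Function.update_self, Function.update_self, Function.update_of_ne hlm,
              Function.update_of_ne hlm]
            have hl3 : l < l' := by omega
            exact ⟨hua l hl3, hvb l hl3, hva l hl3, hub l hl3⟩
          · rw [Function.update_of_ne hlm, Function.update_of_ne hlm,
              Function.update_of_ne hlm', Function.update_of_ne hlm']
            exact h2 l (by omega) l' (by omega) hll
  exact key t le_rfl

end Pool.Agent.MPd439b2.RG
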