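import Pool.Agent.Lib.MP_d439b2_co.RG.Spec

/-!
# MP_d439b2_co, RG, MeU: disjoint paths (helper1)
-/

set_option autoImplicit false

namespace Pool.Agent.MPd439b2.RG

open Pool.Agent.MPd439b2
open Pool.Agent.MPd439b2.Rep
open Pool.Agent.MPd439b2.A0

theorem gMeU : S_MeU := by
  classical
  intro hMen V _ _ G S A B ρ e hU hA hB hcA hcB
  apply hMen V G A B ρ
  intro L X hcut
  by_contra hlt
  push Not at hlt
  have key : ∀ (A' P : Finset V), (∀ v ∈ A', v ∈ S) → (∀ v ∈ A', v ∉ X → v ∈ P) →
      S.ncard + e * ρ ≤ e * A'.card → ¬ e * (S ∩ (P : Set V)).ncard < S.ncard := by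
    intro A' P h1 h2 h3 h4
    have h5 : (A' \ X).card ≤ (S ∩ (P : Set V)).ncard := by
      rw [← Set.ncard_coe_finset]
      apply Set.ncard_le_ncard _ (Set.toFinite _)
      intro v hv
      have hv' : v ∈ A' ∧ v ∉ X := by simpa using hv
      exact ⟨h1 v hv'.1, by simpa using h2 v hv'.1 hv'.2⟩
    have h6 : A'.card ≤ (A' \ X).card + X.card := by
      have := Finset.le_card_sdiff X A'
      omega
    have h7 : e * A'.card ≤ e * (S ∩ (P : Set V)).ncard + e * ρ := by
      calc e * A'.card ≤ e * ((S ∩ (P : Set V)).ncard + ρ) :=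
            Nat.mul_le_mul_left e (by omega)
        _ = _ := by ring
    omega
  have hsep : Sepa G (L : Set V) (X : Set V) ((Finset.univ \ (L ∪ X) : Finset V) : Set V) := by
    refine ⟨?_, ?_, ?_, ?_, ?_⟩
    · ext v
      simp only [Set.mem_union, Finset.mem_coe, Finset.mem_sdiff, Finset.mem_univ, true_and,
        Finset.mem_union, Set.mem_univ, iff_true]
      tauto
    · exact_mod_cast hcut.dis
    · rw [Finset.disjoint_coe, Finset.disjoint_left]
      intro v hv hv'
      simp only [Finset.mem_sdiff, Finset.mem_univ, true_and, Finset.mem_union, not_or] at hv'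
      exact hv'.1 hv
    · rw [Finset.disjoint_coe, Finset.disjoint_left]
      intro v hv hv'
      simp only [Finset.mem_sdiff, Finset.mem_univ, true_and, Finset.mem_union, not_or] at hv'
      exact hv'.2 hv
    · intro p hp r hr hpr
      have h1 := hcut.far p hp r hpr
      have hr' : r ∈ Finset.univ \ (L ∪ X) := hr
      simp only [Finset.mem_sdiff, Finset.mem_univ, true_and] at hr'
      exact hr' h1
  rcases hU _ _ _ hsep (by rw [Set.ncard_coe_finset]; exact hlt) with h | h
  · refine key A L hA (fun v hv hvX => ?_) hcA h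
    rcases Finset.mem_union.1 (hcut.head hv) with h1 | h1
    · exact h1
    · exact absurd h1 hvX
  · refine key B (Finset.univ \ (L ∪ X)) hB (fun v hv hvX => ?_) hcB h
    simp only [Finset.mem_sdiff, Finset.mem_univ, true_and, Finset.mem_union, not_or]
    exact ⟨Finset.disjoint_left.1 hcut.last hv, hvX⟩

end Pool.Agent.MPd439b2.RG
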