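import Pool.Agent.Lib.MP_d439b2_co.RG.Spec

/-!
# MP_d439b2_co, RG, Min (helper12)
-/

set_option autoImplicit false

namespace Pool.Agent.MPd439b2.RG

open Pool.Agent.MPd439b2
open Pool.Agent.MPd439b2.Rep
open Pool.Agent.MPd439b2.A0

namespace gMinAux

variable {V : Type}

theorem upd {G : SimpleGraph V} {A : Fin 4 → Set V} (hA : CliqueModel G A) {i : Fin 4}
    {D : Set V} (hD : D ⊆ A i) (hc : Conn G D) (ht : ∀ j, j ≠ i → Tch G D (A j)) :
    CliqueModel G (Function.update A i D) := by
  have e1 : Function.update A i D i = D := Function.update_self i D A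
  have e2 : ∀ j, j ≠ i → Function.update A i D j = A j := fun j hj =>
    Function.update_of_ne hj D A
  refine ⟨fun j => ?_, fun j l hjl => ?_⟩
  · by_cases h : j = i
    · rw [h, e1]; exact hc
    · rw [e2 j h]; exact hA.1 j
  · by_cases h : j = i
    · have hl : l ≠ i := fun h' => hjl (h.trans h'.symm)
      rw [h, e1, e2 l hl]
      exact ⟨(hA.2 i l (fun h' => hl h'.symm)).1.mono_left hD, ht l hl⟩
    · by_cases hl : l = i
      · rw [hl, e1, e2 j h]
        exact ⟨(hA.2 j i h).1.mono_right hD, (ht j h).symm⟩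
      · rw [e2 j h, e2 l hl]
        exact hA.2 j l hjl

theorem main [Finite V] (G : SimpleGraph V) (M : Fin 4 → Set V) :
    ∀ n : ℕ, ∀ A : Fin 4 → Set V, CliqueModel G A → (∀ i, A i ⊆ M i) →
      ∑ i, (A i).ncard ≤ n → ∃ A : Fin 4 → Set V, CliqueModel G A ∧ (∀ i, A i ⊆ M i) ∧
    ∀ i, ∀ D ⊆ A i, D ≠ A i → Conn G D → ∃ j, j ≠ i ∧ ¬ Tch G D (A j) := by
  intro n
  induction n with
  | zero =>
    intro A hA hM hn
    exfalso
    have h0 : (A 0).ncard ≤ ∑ i, (A i).ncard :=
      Finset.single_le_sum (f := fun i => (A i).ncard) (fun _ _ => Nat.zero_le _)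
        (Finset.mem_univ 0)
    have h1 : 0 < (A 0).ncard := (Set.ncard_pos (Set.toFinite _)).2 (hA.1 0).1
    omega
  | succ n ih =>
    intro A hA hM hn
    by_cases h : ∀ i, ∀ D ⊆ A i, D ≠ A i → Conn G D → ∃ j, j ≠ i ∧ ¬ Tch G D (A j)
    · exact ⟨A, hA, hM, h⟩
    · push Not at h
      obtain ⟨i, D, hD, hne, hc, ht⟩ := h
      have e1 : Function.update A i D i = D := Function.update_self i D A
      have e2 : ∀ j, j ≠ i → Function.update A i D j = A j := fun j hj =>
        Function.update_of_ne hj D A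
      refine ih (Function.update A i D) (upd hA hD hc ht) (fun j => ?_) ?_
      · by_cases hj : j = i
        · rw [hj, e1]; exact hD.trans (hM i)
        · rw [e2 j hj]; exact hM j
      · have hlt : ∑ j, (Function.update A i D j).ncard < ∑ j, (A j).ncard := by
          refine Finset.sum_lt_sum (fun j _ => ?_) ⟨i, Finset.mem_univ i, ?_⟩
          · by_cases hj : j = i
            · rw [hj, e1]; exact Set.ncard_le_ncard hD (Set.toFinite _)
            · rw [e2 j hj]
          · rw [e1]
            exact Set.ncard_lt_ncard (hD.ssubset_of_ne hne) (Set.toFinite _)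
        omega

end gMinAux

theorem gMin : S_Min := by
  intro V _ G M hM
  exact gMinAux.main G M _ M hM (fun i => Set.Subset.refl _) le_rfl

end Pool.Agent.MPd439b2.RG
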