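import Pool.Agent.Lib.MP_d439b2_co.RG.Spec

/-!
# MP_d439b2_co, RG: twenty-one paths (helper16)
-/

set_option autoImplicit false

namespace Pool.Agent.MPd439b2.RG

open Pool.Agent.MPd439b2
open Pool.Agent.MPd439b2.Rep
open Pool.Agent.MPd439b2.A0

namespace gR3Aux

variable {V : Type}

theorem conn_seg {G : SimpleGraph V} (q : ℕ → V) : ∀ t : ℕ, (∀ s < t, G.Adj (q s) (q (s + 1))) →
    Conn G {v | ∃ s, s ≤ t ∧ q s = v} := by
  intro t
  induction t with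
  | zero =>
    intro _
    have h : {v | ∃ s, s ≤ 0 ∧ q s = v} = {q 0} := by
      ext v
      constructor
      · rintro ⟨s, hs, rfl⟩
        have : s = 0 := by omega
        rw [this]
        rfl
      · intro hv
        exact ⟨0, le_refl 0, hv.symm⟩
    rw [h]
    exact Conn.singleton G _
  | succ t ih =>
    intro hadj
    have h1 := ih fun s hs => hadj s (by omega)
    have h : {v | ∃ s, s ≤ t + 1 ∧ q s = v} = insert (q (t + 1)) {v | ∃ s, s ≤ t ∧ q s = v} := by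
      ext v
      constructor
      · rintro ⟨s, hs, rfl⟩
        rcases Nat.lt_or_ge t s with h2 | h2
        · have : s = t + 1 := by omega
          rw [this]
          exact Or.inl rfl
        · exact Or.inr ⟨s, h2, rfl⟩
      · rintro (hv | ⟨s, hs, hv⟩)
        · exact ⟨t + 1, le_refl _, hv.symm⟩
        · exact ⟨s, by omega, hv⟩
    rw [h]
    exact h1.insert ⟨q t, ⟨t, le_refl t, rfl⟩, hadj t (by omega)⟩

/-- the inner part of a segment and its ends -/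
theorem part {G : SimpleGraph V} {k : Fin 5 → V} {n : ℕ} {p : ℕ → V}
    (hinj : ∀ i, i ≤ n → ∀ j, j ≤ n → p i = p j → i = j)
    (hadj : ∀ i, i < n → G.Adj (p i) (p (i + 1))) {x y : ℕ} {a b α β : Fin 5} (hxy : x + 1 < y)
    (hyn : y ≤ n) (ha : G.Adj (p x) (k a)) (hb : G.Adj (p y) (k b))
    (hin : ∀ z, x < z → z < y → ¬ G.Adj (p z) (k a) ∧ ¬ G.Adj (p z) (k b))
    (hl : ∀ l, l ≠ a → l ≠ b → ∃ z, x < z ∧ z < y ∧ G.Adj (p z) (k l))
    (hab : (a = α ∧ b = β) ∨ (a = β ∧ b = α)) :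
    ∃ (Y : Set V) (u v : V), Conn G Y ∧ u ∉ Y ∧ v ∉ Y ∧ (∃ w ∈ Y, G.Adj w u) ∧
      (∃ w ∈ Y, G.Adj w v) ∧ G.Adj u (k α) ∧ G.Adj v (k β) ∧
      (∀ w ∈ Y, ¬ G.Adj w (k α) ∧ ¬ G.Adj w (k β)) ∧
      (∀ l, l ≠ α → l ≠ β → ∃ w ∈ Y, G.Adj w (k l)) ∧ (∀ w ∈ Y, ∃ z ≤ n, p z = w) ∧
      (∃ z ≤ n, p z = u) ∧ ∃ z ≤ n, p z = v := by
  have hY : Conn G {v | ∃ z, x < z ∧ z < y ∧ p z = v} := by
    have h1 := conn_seg (G := G) (fun s => p (x + 1 + s)) (y - x - 2) (fun s hs => by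
      have := hadj (x + 1 + s) (by omega)
      rw [show x + 1 + (s + 1) = x + 1 + s + 1 by omega]
      exact this)
    have h2 : {v | ∃ z, x < z ∧ z < y ∧ p z = v}
        = {v | ∃ s, s ≤ y - x - 2 ∧ p (x + 1 + s) = v} := by
      ext v
      constructor
      · rintro ⟨z, h3, h4, rfl⟩
        exact ⟨z - x - 1, by omega, by rw [show x + 1 + (z - x - 1) = z by omega]⟩
      · rintro ⟨s, h3, rfl⟩
        exact ⟨x + 1 + s, by omega, by omega, rfl⟩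
    rw [h2]
    exact h1
  have hx : p x ∉ {v | ∃ z, x < z ∧ z < y ∧ p z = v} := by
    rintro ⟨z, h1, h2, h3⟩
    have := hinj z (by omega) x (by omega) h3
    omega
  have hy : p y ∉ {v | ∃ z, x < z ∧ z < y ∧ p z = v} := by
    rintro ⟨z, h1, h2, h3⟩
    have := hinj z (by omega) y (by omega) h3
    omega
  have tx : ∃ w ∈ {v | ∃ z, x < z ∧ z < y ∧ p z = v}, G.Adj w (p x) :=
    ⟨p (x + 1), ⟨x + 1, by omega, by omega, rfl⟩, (hadj x (by omega)).symm⟩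
  have ty : ∃ w ∈ {v | ∃ z, x < z ∧ z < y ∧ p z = v}, G.Adj w (p y) := by
    refine ⟨p (y - 1), ⟨y - 1, by omega, by omega, rfl⟩, ?_⟩
    have := hadj (y - 1) (by omega)
    rwa [show y - 1 + 1 = y by omega] at this
  have hw : ∀ w ∈ {v | ∃ z, x < z ∧ z < y ∧ p z = v}, ∃ z ≤ n, p z = w := by
    rintro w ⟨z, h1, h2, h3⟩
    exact ⟨z, by omega, h3⟩
  rcases hab with ⟨rfl, rfl⟩ | ⟨rfl, rfl⟩
  · refine ⟨{v | ∃ z, x < z ∧ z < y ∧ p z = v}, p x, p y, hY, hx, hy, tx, ty, ha, hb, ?_, ?_, hw,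
      ⟨x, by omega, rfl⟩, ⟨y, hyn, rfl⟩⟩
    · rintro w ⟨z, h1, h2, rfl⟩
      exact hin z h1 h2
    · intro l h1 h2
      obtain ⟨z, h3, h4, h5⟩ := hl l h1 h2
      exact ⟨p z, ⟨z, h3, h4, rfl⟩, h5⟩
  · refine ⟨{v | ∃ z, x < z ∧ z < y ∧ p z = v}, p y, p x, hY, hy, hx, ty, tx, hb, ha, ?_, ?_, hw,
      ⟨y, hyn, rfl⟩, ⟨x, by omega, rfl⟩⟩
    · rintro w ⟨z, h1, h2, rfl⟩
      exact ⟨(hin z h1 h2).2, (hin z h1 h2).1⟩
    · intro l h1 h2
      obtain ⟨z, h3, h4, h5⟩ := hl l h2 h1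
      exact ⟨p z, ⟨z, h3, h4, rfl⟩, h5⟩

end gR3Aux

open gR3Aux in
/-- **R3.** -/
theorem gR3 : S_R3 := by
  classical
  intro hSeg hRai V _ _ G S ρ A B n p k I hL hP hk hS hI hT
  choose x y a b h1 h2 h3 h4 h5 h6 h7 using fun i : {i // i ∈ I} =>
    hSeg V G S k (n i) (p i) hL hk hS (fun j => (hT i i.2 j).2)
  have hcard : (Finset.powersetCard 2 (Finset.univ : Finset (Fin 5))).card = 10 := by decide
  have hI' : 21 ≤ (Finset.univ : Finset {i // i ∈ I}).card := by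
    rw [Finset.card_univ, Fintype.card_coe]
    exact hI
  obtain ⟨T, hT1, hT2⟩ := Finset.exists_lt_card_fiber_of_mul_lt_card_of_maps_to
    (s := (Finset.univ : Finset {i // i ∈ I}))
    (t := Finset.powersetCard 2 (Finset.univ : Finset (Fin 5)))
    (f := fun i => ({a i, b i} : Finset (Fin 5))) (n := 2) (fun i _ => by
      rw [Finset.mem_powersetCard]
      exact ⟨Finset.subset_univ _, Finset.card_pair (h3 i)⟩) (by rw [hcard]; omega)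
  rw [Finset.mem_powersetCard] at hT1
  obtain ⟨α, β, hαβ, rfl⟩ := Finset.card_eq_two.1 hT1.2
  rw [Finset.two_lt_card] at hT2
  obtain ⟨i₁, m1, i₂, m2, i₃, m3, n12, n13, n23⟩ := hT2
  rw [Finset.mem_filter] at m1 m2 m3
  have hpair : ∀ i : {i // i ∈ I}, ({a i, b i} : Finset (Fin 5)) = {α, β} →
      (a i = α ∧ b i = β) ∨ (a i = β ∧ b i = α) := by
    intro i hi
    have e1 : a i ∈ ({α, β} : Finset (Fin 5)) := by rw [← hi]; simp
    have e2 : b i ∈ ({α, β} : Finset (Fin 5)) := by rw [← hi]; simp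
    rw [Finset.mem_insert, Finset.mem_singleton] at e1 e2
    have e3 := h3 i
    rcases e1 with e1 | e1 <;> rcases e2 with e2 | e2
    · exact absurd (e1.trans e2.symm) e3
    · exact Or.inl ⟨e1, e2⟩
    · exact Or.inr ⟨e1, e2⟩
    · exact absurd (e1.trans e2.symm) e3
  have hpart := fun i (hi : ({a i, b i} : Finset (Fin 5)) = {α, β}) =>
    part (G := G) (k := k) (hP.pth i).inj (hP.pth i).adj (h1 i) (h2 i) (h4 i) (h5 i) (h6 i) (h7 i)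
      (hpair i hi)
  obtain ⟨Y₁, u₁, v₁, A1, A2, A3, A4, A5, A6, A7, A8, A9, A10, A11, A12⟩ := hpart i₁ m1.2
  obtain ⟨Y₂, u₂, v₂, B1, B2, B3, B4, B5, B6, B7, B8, B9, B10, B11, B12⟩ := hpart i₂ m2.2
  obtain ⟨Y₃, u₃, v₃, C1, C2, C3, C4, C5, C6, C7, C8, C9, C10, C11, C12⟩ := hpart i₃ m3.2
  obtain ⟨i, j, l, q1, q2, q3, q4, q5, q6, q7, q8, q9⟩ : ∃ i j l : Fin 5, i ≠ α ∧ i ≠ β ∧ j ≠ α ∧
      j ≠ β ∧ l ≠ α ∧ l ≠ β ∧ i ≠ j ∧ i ≠ l ∧ j ≠ l := by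
    clear A6 A7 A8 A9 B6 B7 B8 B9 C6 C7 C8 C9 m1 m2 m3 hpart hpair hT1
    revert α β
    decide
  have dis : ∀ {s t : {i // i ∈ I}}, s ≠ t → ∀ {v w : V}, (∃ z ≤ n s, p s z = v) →
      (∃ z ≤ n t, p t z = w) → v ≠ w := by
    rintro s t hst v w ⟨z, hz, rfl⟩ ⟨z', hz', rfl⟩
    exact hP.dis s t (fun h => hst (Subtype.ext h)) z hz z' hz'
  have disY : ∀ {s t : {i // i ∈ I}}, s ≠ t → ∀ {Y Y' : Set V},
      (∀ w ∈ Y, ∃ z ≤ n s, p s z = w) → (∀ w ∈ Y', ∃ z ≤ n t, p t z = w) → Disjoint Y Y' := by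
    intro s t hst Y Y' e1 e2
    rw [Set.disjoint_left]
    intro v hv hv'
    exact dis hst (e1 v hv) (e2 v hv') rfl
  have nk : ∀ {s : {i // i ∈ I}} {v : V}, (∃ z ≤ n s, p s z = v) → ∀ j, v ≠ k j := by
    rintro s v ⟨z, hz, rfl⟩ j
    exact (hT s s.2 j).1 z hz
  refine hRai V G S Y₁ Y₂ Y₃ (k α) (k β) (k i) (k j) (k l) u₁ v₂ hL (hS _) (hS _) (hS _) (hS _)
    (hS _) (fun h => hαβ (hk h)) (fun h => q1 (hk h)) (fun h => q2 (hk h)) (fun h => q3 (hk h))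
    (fun h => q4 (hk h)) (fun h => q5 (hk h)) (fun h => q6 (hk h)) (fun h => q7 (hk h))
    (fun h => q8 (hk h)) (fun h => q9 (hk h)) A1 B1 C1 (disY n12 A10 B10) (disY n13 A10 C10)
    (disY n23 B10 C10) ?_ (A9 i q1 q2) (A9 l q5 q6) (B9 i q1 q2) (B9 j q3 q4) (B9 l q5 q6)
    (C9 i q1 q2) (C9 j q3 q4) (C9 l q5 q6) A2 (fun h => dis n12 A11 (B10 _ h) rfl)
    (fun h => dis n13 A11 (C10 _ h) rfl) (fun h => dis n12 (A10 _ h) B12 rfl) B3
    (fun h => dis n23 B12 (C10 _ h) rfl) (dis n12 A11 B12) A4 B5 A6 B7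
  rintro v (h | h | h)
  · exact ⟨(A8 v h).1, (A8 v h).2, nk (A10 v h) _, nk (A10 v h) _, nk (A10 v h) _,
      nk (A10 v h) _, nk (A10 v h) _⟩
  · exact ⟨(B8 v h).1, (B8 v h).2, nk (B10 v h) _, nk (B10 v h) _, nk (B10 v h) _,
      nk (B10 v h) _, nk (B10 v h) _⟩
  · exact ⟨(C8 v h).1, (C8 v h).2, nk (C10 v h) _, nk (C10 v h) _, nk (C10 v h) _,
      nk (C10 v h) _, nk (C10 v h) _⟩

end Pool.Agent.MPd439b2.RG
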