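import Pool.Agent.Lib.MP_d439b2_co.RG.Spec

/-!
# MP_d439b2_co, RG/REG: the regular case (helper25, task 11969)
-/

set_option autoImplicit false

namespace Pool.Agent.MPd439b2.RG

open Pool.Agent.MPd439b2
open Pool.Agent.MPd439b2.Rep
open Pool.Agent.MPd439b2.A0

namespace gREGAux

variable {V W : Type}

theorem conn_image {G : SimpleGraph V} {Y : Set V} {B : Set Y} (h : Conn (G.induce Y) B) :
    Conn G (Subtype.val '' B) := by
  refine ⟨h.1.image _, fun C hC hne hne' => ?_⟩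
  have h1 : Subtype.val ⁻¹' C ⊆ B := by
    intro x hx
    obtain ⟨y, hy, hyx⟩ := hC hx
    rwa [← Subtype.ext hyx]
  have h2 : (Subtype.val ⁻¹' C : Set Y).Nonempty := by
    obtain ⟨c, hc⟩ := hne
    obtain ⟨y, _, rfl⟩ := hC hc
    exact ⟨y, hc⟩
  have h3 : Subtype.val ⁻¹' C ≠ B := by
    intro h2
    apply hne'
    apply Set.Subset.antisymm hC
    rintro _ ⟨y, hy, rfl⟩
    rw [← h2] at hy
    exact hy
  obtain ⟨b, hb, a, ha, hab⟩ := h.2 (Subtype.val ⁻¹' C) h1 h2 h3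
  exact ⟨b, hb, a, ⟨⟨a, ha.1, rfl⟩, ha.2⟩, hab⟩

theorem in_ims (H : SimpleGraph W) (G : SimpleGraph V) (C : Set V)
    (h : IMS H (G.induce C) Set.univ) : IMS H G Set.univ := by
  obtain ⟨B, _, h2, h3, h4⟩ := h
  refine ⟨fun w => Subtype.val '' (B w), fun w => Set.subset_univ _, fun w => conn_image (h2 w),
    ?_, ?_⟩
  · intro w w' hw
    exact (Set.disjoint_image_iff Subtype.val_injective).2 (h3 w w' hw)
  · intro w w' hw
    rw [h4 w w' hw]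
    constructor
    · rintro ⟨a, ha, b, hb, hab⟩
      exact ⟨a.1, ⟨a, ha, rfl⟩, b.1, ⟨b, hb, rfl⟩, hab⟩
    · rintro ⟨_, ⟨a, ha, rfl⟩, _, ⟨b, hb, rfl⟩, hab⟩
      exact ⟨a, ha, b, hb, hab⟩

/-- the union of the connected subsets of `D` which meet `S` -/
def EE (G : SimpleGraph V) (S D : Set V) : Set V :=
  {v | ∃ C, Conn G C ∧ C ⊆ D ∧ v ∈ C ∧ (C ∩ S).Nonempty}

theorem ee_sub (G : SimpleGraph V) (S D : Set V) : EE G S D ⊆ D := by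
  rintro v ⟨C, _, h, hv, _⟩
  exact h hv

theorem ee_mem (G : SimpleGraph V) (S D : Set V) : S ∩ D ⊆ EE G S D := by
  rintro v ⟨hs, hd⟩
  exact ⟨{v}, Conn.singleton G v, Set.singleton_subset_iff.2 hd, rfl, v, rfl, hs⟩

theorem ee_nb {G : SimpleGraph V} {S D : Set V} {u v : V} (hu : u ∈ EE G S D) (hv : v ∈ D)
    (h : G.Adj u v) : v ∈ EE G S D := by
  obtain ⟨C, hC, hD, huC, x, hx, hxS⟩ := hu
  exact ⟨insert v C, hC.insert ⟨u, huC, h⟩, Set.insert_subset hv hD, Set.mem_insert _ _, x,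
    Set.mem_insert_of_mem _ hx, hxS⟩

end gREGAux

open gREGAux in
theorem gREG : S_REG := by
  intro hStar hRkm hSpl hB w₀
  obtain ⟨ρ, e, n₀, he, hLB⟩ := hB
  refine ⟨5 + 4 * ρ + w₀, fun β => ⟨w₀ + e ^ 4 * (n₀ + β (5 + 4 * ρ + w₀) + 4 * ρ + 2), ?_⟩⟩
  intro V _ G S W₀ hK hL hW hS hn hv
  obtain ⟨M, hM⟩ : ∃ M, M = β (5 + 4 * ρ + w₀) := ⟨_, rfl⟩
  rw [← hM] at hn
  have heP : 0 < e ^ 4 := Nat.pow_pos he
  obtain ⟨S₁, hS₁⟩ : ∃ S₁ : Set V, S₁ = S \ W₀ := ⟨_, rfl⟩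
  obtain ⟨F, hF⟩ : ∃ F : Set V, F = {v | v ∉ W₀ ∧ ∀ s ∈ S, G.Adj v s} := ⟨_, rfl⟩
  obtain ⟨U, hU⟩ : ∃ U : Set V, U = {v | v ∉ F ∧ v ∉ W₀} := ⟨_, rfl⟩
  have hFU : ∀ v, v ∈ U ↔ v ∉ F ∧ v ∉ W₀ := fun v => by rw [hU]; rfl
  have hFm : ∀ v, v ∈ F ↔ v ∉ W₀ ∧ ∀ s ∈ S, G.Adj v s := fun v => by rw [hF]; rfl
  have hS₁m : ∀ v, v ∈ S₁ ↔ v ∈ S ∧ v ∉ W₀ := fun v => by rw [hS₁]; rfl
  have hS₁U : S₁ ⊆ U := by
    intro s hs
    rw [hS₁m] at hs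
    rw [hFU, hFm]
    exact ⟨fun h => hS s hs.1 s hs.1 (h.2 s hs.1), hs.2⟩
  have hS₁c : e ^ 4 * (n₀ + M + 4 * ρ + 2) ≤ S₁.ncard := by
    have h1 := Set.le_ncard_sdiff W₀ S
    rw [← hS₁] at h1
    omega
  obtain ⟨Γ, hΓ⟩ : ∃ Γ : SimpleGraph U, Γ = G.induce U := ⟨_, rfl⟩
  have hΓa : ∀ u v : U, Γ.Adj u v ↔ G.Adj u.1 v.1 := fun u v => by rw [hΓ]; rfl
  obtain ⟨T, hT⟩ : ∃ T : Set U, T = Subtype.val ⁻¹' S₁ := ⟨_, rfl⟩
  have hTm : ∀ u : U, u ∈ T ↔ u.1 ∈ S₁ := fun u => by rw [hT]; rfl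
  have hTim : Subtype.val '' T = S₁ := by
    rw [hT, Subtype.image_preimage_coe]
    exact Set.inter_eq_right.2 hS₁U
  have hTc : T.ncard = S₁.ncard := by
    rw [← hTim, Set.ncard_image_of_injective _ Subtype.val_injective]
  have hLt : Lt Γ T := by
    refine ⟨fun u hu v hv h => ?_, fun v s hs s' hs' h h' => ?_⟩
    · rw [hΓa] at h
      rw [hTm, hS₁m] at hu hv
      exact hS u.1 hu.1 v.1 hv.1 h
    · rw [hΓa] at h h'
      rw [hTm, hS₁m] at hs hs'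
      have hvU := (hFU v.1).1 v.2
      rcases hv v.1 hvU.2 with h1 | h1
      · exact absurd ((hFm v.1).2 ⟨hvU.2, h1⟩) hvU.1
      · exact Subtype.ext (h1 s.1 hs.1 s'.1 hs'.1 h h')
  have hKΓ : ¬ IMS K401 Γ Set.univ := fun h => hK (in_ims _ G U (hΓ ▸ h))
  rcases hSpl U Γ T ρ e he with ⟨S₀, hS₀, hc, hUs⟩ | ⟨Q, D, hQ, hDQ, hDD, hcl, hbig⟩
  · have h0 : n₀ ≤ S₀.ncard := by
      have h1 : e ^ 4 * (n₀ + M + 4 * ρ + 2) ≤ e ^ 4 * S₀.ncard := by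
        rw [← hTc] at hS₁c
        exact hS₁c.trans hc
      have h2 := Nat.le_of_mul_le_mul_left h1 heP
      omega
    exact hLB U Γ S₀ hKΓ ⟨fun u hu v hv => hLt.st u (hS₀ hu) v (hS₀ hv),
      fun v s hs s' hs' => hLt.low v s (hS₀ hs) s' (hS₀ hs')⟩ h0 hUs
  · have hbig' : ∀ i, M < (T ∩ D i).ncard := by
      intro i
      have h1 : e ^ 4 * (n₀ + M + 4 * ρ + 2) ≤ e ^ 4 * ((T ∩ D i).ncard + 4 * ρ) := by
        rw [← hTc] at hS₁c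
        exact hS₁c.trans (hbig i)
      have h2 := Nat.le_of_mul_le_mul_left h1 heP
      omega
    obtain ⟨E, hE⟩ : ∃ E : Fin 5 → Set V, E = fun i => Subtype.val '' EE Γ T (D i) := ⟨_, rfl⟩
    have hEm : ∀ i v, v ∈ E i ↔ ∃ u ∈ EE Γ T (D i), u.1 = v := fun i v => by rw [hE]; rfl
    obtain ⟨Q', hQ'⟩ : ∃ Q' : Set V, Q' = W₀ ∪ Subtype.val '' Q := ⟨_, rfl⟩
    have hQ'c : Q'.ncard ≤ w₀ + 4 * ρ := by
      rw [hQ']
      refine (Set.ncard_union_le _ _).trans ?_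
      have h1 := Set.ncard_image_le (s := Q) (f := (Subtype.val : U → V)) (Set.toFinite _)
      omega
    have hEF : ∀ i, Disjoint (E i) F := by
      intro i
      rw [Set.disjoint_left]
      intro v hv1 hv2
      obtain ⟨u, _, rfl⟩ := (hEm i v).1 hv1
      exact ((hFU u.1).1 u.2).1 hv2
    have hEE : ∀ i j, i ≠ j → Disjoint (E i) (E j) ∧ ∀ u ∈ E i, ∀ v ∈ E j, ¬ G.Adj u v := by
      intro i j hij
      constructor
      · rw [Set.disjoint_left]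
        intro v hv1 hv2
        obtain ⟨u, hu, rfl⟩ := (hEm i v).1 hv1
        obtain ⟨u', hu', e1⟩ := (hEm j u.1).1 hv2
        have e2 : u' = u := Subtype.ext e1
        subst e2
        exact Set.disjoint_left.1 (hDD i j hij) (ee_sub _ _ _ hu) (ee_sub _ _ _ hu')
      · intro u hu v hv1 h
        obtain ⟨u, hu', rfl⟩ := (hEm i u).1 hu
        obtain ⟨v, hv', rfl⟩ := (hEm j v).1 hv1
        rcases hcl i u (ee_sub _ _ _ hu') v ((hΓa u v).2 h) with h1 | h1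
        · exact Set.disjoint_left.1 (hDD i j hij) h1 (ee_sub _ _ _ hv')
        · exact Set.disjoint_left.1 (hDQ j) (ee_sub _ _ _ hv') h1
    have hEc : ∀ i, ∀ v ∈ E i, ∃ C, Conn G C ∧ C ⊆ E i ∧ v ∈ C ∧ (C ∩ S₁).Nonempty := by
      intro i v hv1
      obtain ⟨u, ⟨C, hC, hCD, huC, x, hxC, hxT⟩, rfl⟩ := (hEm i v).1 hv1
      refine ⟨Subtype.val '' C, conn_image (hΓ ▸ hC), ?_, ⟨u, huC, rfl⟩, x.1, ⟨x, hxC, rfl⟩,
        (hTm x).1 hxT⟩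
      rintro _ ⟨y, hy, rfl⟩
      exact (hEm i y.1).2 ⟨y, ⟨C, hC, hCD, hy, x, hxC, hxT⟩, rfl⟩
    have hEn : ∀ i, (E i ∩ S₁).Nonempty := by
      intro i
      have h1 : (T ∩ D i).Nonempty := by
        rw [← Set.ncard_pos]
        exact lt_of_le_of_lt (Nat.zero_le _) (hbig' i)
      obtain ⟨x, hx⟩ := h1
      exact ⟨x.1, (hEm i x.1).2 ⟨x, ee_mem _ _ _ hx, rfl⟩, (hTm x).1 hx.1⟩
    have hnb : ∀ i, ∀ u ∈ E i, ∀ v, G.Adj u v → v ∈ E i ∨ v ∈ F ∨ v ∈ Q' := by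
      intro i u hu v h
      obtain ⟨u, hu', rfl⟩ := (hEm i u).1 hu
      by_cases h1 : v ∈ F
      · exact Or.inr (Or.inl h1)
      by_cases h2 : v ∈ W₀
      · exact Or.inr (Or.inr (by rw [hQ']; exact Or.inl h2))
      have hvU : v ∈ U := (hFU v).2 ⟨h1, h2⟩
      have hadj : Γ.Adj u ⟨v, hvU⟩ := (hΓa u ⟨v, hvU⟩).2 h
      rcases hcl i u (ee_sub _ _ _ hu') ⟨v, hvU⟩ hadj with h3 | h3
      · exact Or.inl ((hEm i v).2 ⟨⟨v, hvU⟩, ee_nb hu' h3 hadj, rfl⟩)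
      · exact Or.inr (Or.inr (by rw [hQ']; exact Or.inr ⟨⟨v, hvU⟩, h3, rfl⟩))
    have hst : StO G S₁ := fun u hu v hv => hS u ((hS₁m u).1 hu).1 v ((hS₁m v).1 hv).1
    obtain ⟨i, hi⟩ := hStar V G S₁ F E hK hst
      (fun f hf s hs => ((hFm f).1 hf).2 s ((hS₁m s).1 hs).1) hEF hEE hEc hEn
    have hcr := hRkm V G (E i) F Q' (hEF i) (hnb i) hi
    have hsub : ∀ j, (Subtype.val '' (T ∩ D j) : Set V) ⊆ E j := by
      rintro j _ ⟨x, hx, rfl⟩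
      exact (hEm j x.1).2 ⟨x, ee_mem _ _ _ hx, rfl⟩
    have hcard : ∀ j, M < (Subtype.val '' (T ∩ D j) : Set V).ncard := by
      intro j
      rw [Set.ncard_image_of_injective _ Subtype.val_injective]
      exact hbig' j
    rcases hL (5 + 4 * ρ + w₀) le_rfl (E i) (by omega) with h1 | h1
    · rw [← hM] at h1
      have h2 := Set.ncard_le_ncard (hsub i) (Set.toFinite _)
      have h3 := hcard i
      omega
    · rw [← hM] at h1
      obtain ⟨j, hj⟩ : ∃ j : Fin 5, j ≠ i := exists_ne i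
      have h4 : (Subtype.val '' (T ∩ D j) : Set V) ⊆ (E i)ᶜ := by
        intro x hx hx'
        exact Set.disjoint_left.1 (hEE i j hj.symm).1 hx' (hsub j hx)
      have h2 := Set.ncard_le_ncard h4 (Set.toFinite _)
      have h3 := hcard j
      omega

end Pool.Agent.MPd439b2.RG
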