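import Pool.Agent.Lib.MP_d439b2_co.RG.Spec

/-!
# MP_d439b2_co, RG: the model from three rails (helper16)
-/

set_option autoImplicit false

namespace Pool.Agent.MPd439b2.RG

open Pool.Agent.MPd439b2
open Pool.Agent.MPd439b2.Rep
open Pool.Agent.MPd439b2.A0

/-- **Rai.** -/
theorem gRai : S_Rai := by
  intro V G S Y₁ Y₂ Y₃ q₀ q₁ i j l u₁ u₂ hL hq₀ hq₁ hi hj hl hq iq₀ iq₁ jq₀ jq₁ lq₀ lq₁ ij il jl
    c1 c2 c3 d12 d13 d23 hY y1i y1l y2i y2j y2l y3i y3j y3l a1 a2 a3 b1 b2 b3 hu e1 e2 f1 f2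
  have u1S : u₁ ∉ S := fun h => hL.st u₁ h q₀ hq₀ f1
  have u2S : u₂ ∉ S := fun h => hL.st u₂ h q₁ hq₁ f2
  have ne1 : ∀ s ∈ S, u₁ ≠ s := fun s hs h => u1S (h ▸ hs)
  have ne2 : ∀ s ∈ S, u₂ ≠ s := fun s hs h => u2S (h ▸ hs)
  have n1 : ¬ G.Adj u₁ q₁ := fun h => hq (hL.low u₁ q₀ hq₀ q₁ hq₁ f1 h)
  have n2 : ¬ G.Adj u₂ q₀ := fun h => hq (hL.low u₂ q₀ hq₀ q₁ hq₁ h f2)
  have hY1 := fun v (hv : v ∈ Y₁) => hY v (Or.inl hv)
  have hY2 := fun v (hv : v ∈ Y₂) => hY v (Or.inr (Or.inl hv))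
  have hY3 := fun v (hv : v ∈ Y₃) => hY v (Or.inr (Or.inr hv))
  have cA : Conn G (insert u₁ (insert i Y₁)) := by
    refine (c1.insert y1i).insert ?_
    obtain ⟨v, hv, h⟩ := e1
    exact ⟨v, Or.inr hv, h⟩
  have cB : Conn G (insert u₂ (insert j Y₂)) := by
    refine (c2.insert y2j).insert ?_
    obtain ⟨v, hv, h⟩ := e2
    exact ⟨v, Or.inr hv, h⟩
  have dis1 : ∀ s, u₁ ≠ s → i ≠ s → (∀ v ∈ Y₁, v ≠ s) → Disjoint (insert u₁ (insert i Y₁)) ({s} : Set V) := by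
    intro s h1 h2 h3
    rw [Set.disjoint_singleton_right]
    rintro (h | h | h)
    · exact h1 h.symm
    · exact h2 h.symm
    · exact h3 s h rfl
  have dis2 : ∀ s, u₂ ≠ s → j ≠ s → (∀ v ∈ Y₂, v ≠ s) → Disjoint (insert u₂ (insert j Y₂)) ({s} : Set V) := by
    intro s h1 h2 h3
    rw [Set.disjoint_singleton_right]
    rintro (h | h | h)
    · exact h1 h.symm
    · exact h2 h.symm
    · exact h3 s h rfl
  have dis3 : ∀ s, (∀ v ∈ Y₃, v ≠ s) → Disjoint Y₃ ({s} : Set V) := by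
    intro s h3
    rw [Set.disjoint_singleton_right]
    exact fun h => h3 s h rfl
  refine aM1 V G (insert u₁ (insert i Y₁)) (insert u₂ (insert j Y₂)) Y₃ {l} {q₀} {q₁} cA cB c3
    (Conn.singleton G l) (Conn.singleton G q₀) (Conn.singleton G q₁) ?_ ?_ ?_ ?_ ?_ ?_ ?_ ?_ ?_ ?_ ?_
    ?_ ?_ ?_ ?_ ?_ ?_ ?_ ?_ ?_ ?_ ?_ ?_ ?_ ?_ ?_ ?_ ?_ ?_ ?_
  · rw [Set.disjoint_left]
    rintro v (h | h | h) (h' | h' | h')
    · exact hu (h.symm.trans h')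
    · exact ne1 j hj (h.symm.trans h')
    · exact a2 (h ▸ h')
    · exact ne2 i hi (h'.symm.trans h)
    · exact ij (h.symm.trans h')
    · exact (hY2 v h').2.2.2.2.1 h
    · exact b1 (h' ▸ h)
    · exact (hY1 v h).2.2.2.2.2.1 h'
    · exact Set.disjoint_left.1 d12 h h'
  · rw [Set.disjoint_left]
    rintro v (h | h | h) h'
    · exact a3 (h ▸ h')
    · exact (hY3 v h').2.2.2.2.1 h
    · exact Set.disjoint_left.1 d13 h h'
  · exact dis1 l (ne1 l hl) il fun v hv => (hY1 v hv).2.2.2.2.2.2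
  · exact dis1 q₀ (ne1 q₀ hq₀) iq₀ fun v hv => (hY1 v hv).2.2.1
  · exact dis1 q₁ (ne1 q₁ hq₁) iq₁ fun v hv => (hY1 v hv).2.2.2.1
  · rw [Set.disjoint_left]
    rintro v (h | h | h) h'
    · exact b3 (h ▸ h')
    · exact (hY3 v h').2.2.2.2.2.1 h
    · exact Set.disjoint_left.1 d23 h h'
  · exact dis2 l (ne2 l hl) jl fun v hv => (hY2 v hv).2.2.2.2.2.2
  · exact dis2 q₀ (ne2 q₀ hq₀) jq₀ fun v hv => (hY2 v hv).2.2.1
  · exact dis2 q₁ (ne2 q₁ hq₁) jq₁ fun v hv => (hY2 v hv).2.2.2.1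
  · exact dis3 l fun v hv => (hY3 v hv).2.2.2.2.2.2
  · exact dis3 q₀ fun v hv => (hY3 v hv).2.2.1
  · exact dis3 q₁ fun v hv => (hY3 v hv).2.2.2.1
  · rw [Set.disjoint_singleton]; exact lq₀
  · rw [Set.disjoint_singleton]; exact lq₁
  · rw [Set.disjoint_singleton]; exact hq
  · obtain ⟨v, hv, h⟩ := y2i
    exact ⟨i, Or.inr (Or.inl rfl), v, Or.inr (Or.inr hv), h.symm⟩
  · obtain ⟨v, hv, h⟩ := y3i
    exact ⟨i, Or.inr (Or.inl rfl), v, hv, h.symm⟩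
  · obtain ⟨v, hv, h⟩ := y1l
    exact ⟨v, Or.inr (Or.inr hv), l, rfl, h⟩
  · obtain ⟨v, hv, h⟩ := y3j
    exact ⟨j, Or.inr (Or.inl rfl), v, hv, h.symm⟩
  · obtain ⟨v, hv, h⟩ := y2l
    exact ⟨v, Or.inr (Or.inr hv), l, rfl, h⟩
  · obtain ⟨v, hv, h⟩ := y3l
    exact ⟨v, hv, l, rfl, h⟩
  · exact ⟨u₁, Or.inl rfl, q₀, rfl, f1⟩
  · exact ⟨u₂, Or.inl rfl, q₁, rfl, f2⟩
  · rintro ⟨v, (h | h | h), w, hw, hvw⟩
    · rw [h, Set.mem_singleton_iff.1 hw] at hvw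
      exact n1 hvw
    · rw [h, Set.mem_singleton_iff.1 hw] at hvw
      exact hL.st i hi q₁ hq₁ hvw
    · rw [Set.mem_singleton_iff.1 hw] at hvw
      exact (hY1 v h).2.1 hvw
  · rintro ⟨v, (h | h | h), w, hw, hvw⟩
    · rw [h, Set.mem_singleton_iff.1 hw] at hvw
      exact n2 hvw
    · rw [h, Set.mem_singleton_iff.1 hw] at hvw
      exact hL.st j hj q₀ hq₀ hvw
    · rw [Set.mem_singleton_iff.1 hw] at hvw
      exact (hY2 v h).1 hvw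
  · rintro ⟨v, h, w, hw, hvw⟩
    rw [Set.mem_singleton_iff.1 hw] at hvw
    exact (hY3 v h).1 hvw
  · rintro ⟨v, h, w, hw, hvw⟩
    rw [Set.mem_singleton_iff.1 hw] at hvw
    exact (hY3 v h).2.1 hvw
  · rintro ⟨v, h, w, hw, hvw⟩
    rw [Set.mem_singleton_iff.1 h, Set.mem_singleton_iff.1 hw] at hvw
    exact hL.st l hl q₀ hq₀ hvw
  · rintro ⟨v, h, w, hw, hvw⟩
    rw [Set.mem_singleton_iff.1 h, Set.mem_singleton_iff.1 hw] at hvw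
    exact hL.st l hl q₁ hq₁ hvw
  · rintro ⟨v, h, w, hw, hvw⟩
    rw [Set.mem_singleton_iff.1 h, Set.mem_singleton_iff.1 hw] at hvw
    exact hL.st q₀ hq₀ q₁ hq₁ hvw

end Pool.Agent.MPd439b2.RG
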