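import Pool.Agent.Lib.MP_d439b2_co.RG.Spec

/-!
# MP_d439b2_co, RG, Rkm (helper12)
-/

set_option autoImplicit false

namespace Pool.Agent.MPd439b2.RG

open Pool.Agent.MPd439b2
open Pool.Agent.MPd439b2.Rep
open Pool.Agent.MPd439b2.A0

theorem gRkm : S_Rkm := by
  intro V _ G D F Q hDF hcl hn
  have h1 : (Tr G D F).encard ≤ (5 : ℕ) := by
    have e : Tr G D F
        = (fun m : Set V => F \ m) '' ((fun c => {f | f ∈ F ∧ ¬ G.Adj c f}) '' D) := by
      ext T
      constructor
      · rintro ⟨a, ha, rfl⟩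
        refine ⟨_, ⟨a, ha, rfl⟩, ?_⟩
        ext b
        simp only [Set.mem_sdiff, Set.mem_setOf_eq]
        tauto
      · rintro ⟨_, ⟨a, ha, rfl⟩, rfl⟩
        refine ⟨a, ha, ?_⟩
        ext b
        simp only [Set.mem_sdiff, Set.mem_setOf_eq]
        tauto
    rw [e, ← Set.Finite.cast_ncard_eq (Set.toFinite _)]
    have h2 := (Set.ncard_image_le (f := fun m : Set V => F \ m)
      (Set.toFinite ((fun c => {f | f ∈ F ∧ ¬ G.Adj c f}) '' D))).trans hn
    exact_mod_cast h2
  have h2 := rk_tr G h1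
  have h3 : Dᶜ ⊆ (F ∪ Q) ∪ (D ∪ F ∪ Q)ᶜ := by
    intro x hx
    by_cases h : x ∈ F ∪ Q
    · exact Or.inl h
    · refine Or.inr fun h' => h ?_
      rcases h' with (h' | h') | h'
      · exact absurd h' hx
      · exact Or.inl h'
      · exact Or.inr h'
  have h4 : LK.rk G D (D ∪ F ∪ Q)ᶜ = 0 := rk_anti G fun a ha b hb hab => by
    apply hb
    rcases hcl a ha b hab with h | h | h
    · exact Or.inl (Or.inl h)
    · exact Or.inl (Or.inr h)
    · exact Or.inr h
  have h5 := rk_mono G (Set.Subset.refl D) h3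
  have h6 := rk_union_right G D (F ∪ Q) (D ∪ F ∪ Q)ᶜ
  have h7 := rk_union_right G D F Q
  have h8 := rk_card_right G D Q
  unfold LK.cr
  omega

end Pool.Agent.MPd439b2.RG
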