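import Pool.Agent.Lib.MP_d439b2_co.RG.Spec

/-!
# MP_d439b2_co, RG: a segment of a path (helper25)
-/

set_option autoImplicit false

namespace Pool.Agent.MPd439b2.RG

open Pool.Agent.MPd439b2
open Pool.Agent.MPd439b2.Rep
open Pool.Agent.MPd439b2.A0

/-- **Seg.** -/
theorem gSeg : S_Seg := by
  classical
  intro V G S k n p hL hk hS hT
  have hlow : ∀ z i j, G.Adj (p z) (k i) → G.Adj (p z) (k j) → i = j := fun z i j h1 h2 =>
    hk (hL.low (p z) (k i) (hS i) (k j) (hS j) h1 h2)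
  have hex : ∃ y, ∀ j, ∃ z, 0 ≤ z ∧ z ≤ y ∧ G.Adj (p z) (k j) := by
    refine ⟨n, fun j => ?_⟩
    obtain ⟨z, hz, hz'⟩ := hT j
    exact ⟨z, Nat.zero_le z, hz, hz'⟩
  obtain ⟨y, hy⟩ : ∃ y, y = Nat.find hex := ⟨_, rfl⟩
  have hys : ∀ j, ∃ z, 0 ≤ z ∧ z ≤ y ∧ G.Adj (p z) (k j) := by
    rw [hy]
    exact Nat.find_spec hex
  have hyn : y ≤ n := by
    rw [hy]
    refine Nat.find_min' hex fun j => ?_
    obtain ⟨z, hz, hz'⟩ := hT j
    exact ⟨z, Nat.zero_le z, hz, hz'⟩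
  have hym : ∀ y' < y, ∃ j, ∀ z ≤ y', ¬ G.Adj (p z) (k j) := by
    intro y' hy'
    rw [hy] at hy'
    have h1 := Nat.find_min hex hy'
    push Not at h1
    obtain ⟨j, hj⟩ := h1
    exact ⟨j, fun z hz => hj z (Nat.zero_le z) hz⟩
  have hex2 : ∃ x, ¬ ∀ j, ∃ z, x ≤ z ∧ z ≤ y ∧ G.Adj (p z) (k j) := by
    refine ⟨y + 1, fun h => ?_⟩
    obtain ⟨z, hz, hz', _⟩ := h 0
    omega
  have hx1 := Nat.find_spec hex2
  have hx0 : Nat.find hex2 ≠ 0 := by
    intro h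
    rw [h] at hx1
    exact hx1 hys
  obtain ⟨x, hx⟩ : ∃ x, Nat.find hex2 = x + 1 := Nat.exists_eq_succ_of_ne_zero hx0
  rw [hx] at hx1
  push Not at hx1
  obtain ⟨i, hi⟩ := hx1
  have hxs : ∀ j, ∃ z, x ≤ z ∧ z ≤ y ∧ G.Adj (p z) (k j) := by
    by_contra h
    have h1 := Nat.find_min' hex2 h
    omega
  have hxy : x ≤ y := by
    obtain ⟨z, h1, h2, _⟩ := hxs 0
    omega
  have hxy' : x ≠ y := by
    intro h
    obtain ⟨z, h1, h2, h3⟩ := hxs 0
    obtain ⟨z', h1', h2', h3'⟩ := hxs 1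
    have e1 : z = x := by omega
    have e2 : z' = x := by omega
    rw [e1] at h3
    rw [e2] at h3'
    exact absurd (hlow x 0 1 h3 h3') (by decide)
  obtain ⟨j, hj⟩ := hym (y - 1) (by omega)
  have hpi : G.Adj (p x) (k i) := by
    obtain ⟨z, h1, h2, h3⟩ := hxs i
    by_cases h4 : z = x
    · rw [h4] at h3
      exact h3
    · exact absurd h3 (hi z (by omega) h2)
  have hpj : G.Adj (p y) (k j) := by
    obtain ⟨z, h1, h2, h3⟩ := hys j
    by_cases h4 : z = y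
    · rw [h4] at h3
      exact h3
    · exact absurd h3 (hj z (by omega))
  have hij : i ≠ j := by
    rintro rfl
    exact hi y (by omega) le_rfl hpj
  have hl : ∀ l, l ≠ i → l ≠ j → ∃ z, x < z ∧ z < y ∧ G.Adj (p z) (k l) := by
    intro l hli hlj
    obtain ⟨z, h1, h2, h3⟩ := hxs l
    have h4 : z ≠ x := by
      rintro rfl
      exact hli (hlow z l i h3 hpi)
    have h5 : z ≠ y := by
      rintro rfl
      exact hlj (hlow z l j h3 hpj)
    exact ⟨z, by omega, by omega, h3⟩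
  have hlex : ∃ l : Fin 5, l ≠ i ∧ l ≠ j := by
    clear hpi hpj hl hi hj
    revert i j
    decide
  obtain ⟨l, hli, hlj⟩ := hlex
  obtain ⟨z, h1, h2, _⟩ := hl l hli hlj
  exact ⟨x, y, i, j, by omega, hyn, hij, hpi, hpj, fun z h1 h2 =>
    ⟨hi z (by omega) (by omega), hj z (by omega)⟩, hl⟩

end Pool.Agent.MPd439b2.RG
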