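import Pool.Agent.Lib.MP_d439b2_co.RG.Spec

/-!
# MP_d439b2_co, RG, Spl (helper12)
-/

set_option autoImplicit false

namespace Pool.Agent.MPd439b2.RG

open Pool.Agent.MPd439b2
open Pool.Agent.MPd439b2.Rep
open Pool.Agent.MPd439b2.A0

namespace gSplAux

variable {V : Type}

/-- The statement for the induction. -/
structure St (G : SimpleGraph V) (S : Set V) (ρ e k : ℕ) (Q : Set V) (D : ℕ → Set V) : Prop where
  card : Q.ncard ≤ k * ρ
  dq : ∀ i ≤ k, Disjoint (D i) Q
  dd : ∀ i ≤ k, ∀ j ≤ k, i ≠ j → Disjoint (D i) (D j)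
  cl : ∀ i ≤ k, ∀ u ∈ D i, ∀ v, G.Adj u v → v ∈ D i ∨ v ∈ Q
  big : ∀ i ≤ k, S.ncard ≤ e ^ k * ((S ∩ D i).ncard + k * ρ)
  last : S.ncard ≤ e ^ k * (S ∩ D k).ncard

/-- The new sets. -/
def nw (D : ℕ → Set V) (P Z R : Set V) (k i : ℕ) : Set V :=
  if i < k then D i \ Z else if i = k then D k ∩ P else D k ∩ R

theorem nw_lt (D : ℕ → Set V) (P Z R : Set V) {k i : ℕ} (h : i < k) : nw D P Z R k i = D i \ Z :=
  if_pos h

theorem nw_eq (D : ℕ → Set V) (P Z R : Set V) (k : ℕ) : nw D P Z R k k = D k ∩ P := by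
  unfold nw
  rw [if_neg (lt_irrefl k), if_pos rfl]

theorem nw_gt (D : ℕ → Set V) (P Z R : Set V) (k : ℕ) : nw D P Z R k (k + 1) = D k ∩ R := by
  unfold nw
  rw [if_neg (by omega), if_neg (by omega)]

theorem step [Finite V] {G : SimpleGraph V} {S : Set V} {ρ e k : ℕ} (he : 1 ≤ e)
    {Q : Set V} {D : ℕ → Set V} (h : St G S ρ e k Q D) {P Z R : Set V} (hs : Sepa G P Z R)
    (hZ : Z.ncard < ρ) (hP : (S ∩ D k).ncard ≤ e * (S ∩ D k ∩ P).ncard)
    (hR : (S ∩ D k).ncard ≤ e * (S ∩ D k ∩ R).ncard) :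
    St G S ρ e (k + 1) (Q ∪ Z) (nw D P Z R k) := by
  have cases3 : ∀ i ≤ k + 1, i < k ∨ i = k ∨ i = k + 1 := fun i hi => by omega
  have hPbig : S.ncard ≤ e ^ (k + 1) * (S ∩ (D k ∩ P)).ncard := by
    have h1 := h.last.trans (Nat.mul_le_mul_left (e ^ k) hP)
    rw [Set.inter_assoc] at h1
    calc S.ncard ≤ e ^ k * (e * (S ∩ (D k ∩ P)).ncard) := h1
      _ = _ := by ring
  have hRbig : S.ncard ≤ e ^ (k + 1) * (S ∩ (D k ∩ R)).ncard := by
    have h1 := h.last.trans (Nat.mul_le_mul_left (e ^ k) hR)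
    rw [Set.inter_assoc] at h1
    calc S.ncard ≤ e ^ k * (e * (S ∩ (D k ∩ R)).ncard) := h1
      _ = _ := by ring
  refine ⟨?_, ?_, ?_, ?_, ?_, ?_⟩
  · have h1 := Set.ncard_union_le Q Z
    have h2 := h.card
    have e1 : (k + 1) * ρ = k * ρ + ρ := by ring
    omega
  · intro i hi
    rcases cases3 i hi with h1 | h1 | h1
    · rw [nw_lt D P Z R h1, Set.disjoint_union_right]
      exact ⟨(h.dq i h1.le).mono_left Set.sdiff_subset, Set.disjoint_sdiff_left⟩
    · rw [h1, nw_eq, Set.disjoint_union_right]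
      exact ⟨(h.dq k le_rfl).mono_left Set.inter_subset_left,
        hs.pz.mono_left Set.inter_subset_right⟩
    · rw [h1, nw_gt, Set.disjoint_union_right]
      exact ⟨(h.dq k le_rfl).mono_left Set.inter_subset_left,
        hs.zr.symm.mono_left Set.inter_subset_right⟩
  · have sub : ∀ i ≤ k + 1, ∃ j ≤ k, nw D P Z R k i ⊆ D j ∧ (i ≤ k → j = i) ∧ (i = k + 1 → j = k) :=
      fun i hi => by
      rcases cases3 i hi with h1 | h1 | h1
      · exact ⟨i, h1.le, by rw [nw_lt D P Z R h1]; exact Set.sdiff_subset, fun _ => rfl,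
          fun h' => by omega⟩
      · exact ⟨k, le_rfl, by rw [h1, nw_eq]; exact Set.inter_subset_left, fun _ => h1.symm,
          fun h' => by omega⟩
      · exact ⟨k, le_rfl, by rw [h1, nw_gt]; exact Set.inter_subset_left, fun h' => by omega,
          fun _ => rfl⟩
    intro i hi j hj hij
    obtain ⟨i', hi', si, ai, bi⟩ := sub i hi
    obtain ⟨j', hj', sj, aj, bj⟩ := sub j hj
    by_cases hne : i' = j'
    · have hk : (i = k ∧ j = k + 1) ∨ (i = k + 1 ∧ j = k) := by
        by_cases c1 : i ≤ k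
        · by_cases c2 : j ≤ k
          · have := ai c1
            have := aj c2
            omega
          · have := ai c1
            have := bj (by omega)
            omega
        · by_cases c2 : j ≤ k
          · have := bi (by omega)
            have := aj c2
            omega
          · omega
      rcases hk with ⟨h1, h2⟩ | ⟨h1, h2⟩
      · rw [h1, h2, nw_eq, nw_gt]
        exact (hs.pr.mono_left Set.inter_subset_right).mono_right Set.inter_subset_right
      · rw [h1, h2, nw_eq, nw_gt]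
        exact (hs.pr.symm.mono_left Set.inter_subset_right).mono_right Set.inter_subset_right
    · exact ((h.dd i' hi' j' hj' hne).mono_left si).mono_right sj
  · intro i hi u hu v huv
    rcases cases3 i hi with h1 | h1 | h1
    · rw [nw_lt D P Z R h1] at hu ⊢
      by_cases hv : v ∈ Z
      · exact Or.inr (Or.inr hv)
      · rcases h.cl i h1.le u hu.1 v huv with h2 | h2
        · exact Or.inl ⟨h2, hv⟩
        · exact Or.inr (Or.inl h2)
    · rw [h1, nw_eq] at hu ⊢
      have hv : v ∈ P ∪ Z ∪ R := by rw [hs.cov]; exact Set.mem_univ v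
      rcases hv with (hv | hv) | hv
      · rcases h.cl k le_rfl u hu.1 v huv with h2 | h2
        · exact Or.inl ⟨h2, hv⟩
        · exact Or.inr (Or.inl h2)
      · exact Or.inr (Or.inr hv)
      · exact absurd huv (hs.far u hu.2 v hv)
    · rw [h1, nw_gt] at hu ⊢
      have hv : v ∈ P ∪ Z ∪ R := by rw [hs.cov]; exact Set.mem_univ v
      rcases hv with (hv | hv) | hv
      · exact absurd huv.symm (hs.far v hv u hu.2)
      · exact Or.inr (Or.inr hv)
      · rcases h.cl k le_rfl u hu.1 v huv with h2 | h2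
        · exact Or.inl ⟨h2, hv⟩
        · exact Or.inr (Or.inl h2)
  · intro i hi
    rcases cases3 i hi with h1 | h1 | h1
    · rw [nw_lt D P Z R h1]
      have h2 : (S ∩ D i).ncard ≤ (S ∩ (D i \ Z)).ncard + Z.ncard := by
        refine le_trans (Set.ncard_le_ncard (fun x hx => ?_) (Set.toFinite _))
          (Set.ncard_union_le (S ∩ (D i \ Z)) Z)
        by_cases hz : x ∈ Z
        · exact Or.inr hz
        · exact Or.inl ⟨hx.1, hx.2, hz⟩
      have h3 : (S ∩ D i).ncard + k * ρ ≤ (S ∩ (D i \ Z)).ncard + (k + 1) * ρ := by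
        have e1 : (k + 1) * ρ = k * ρ + ρ := by ring
        omega
      have h4 : e ^ k ≤ e ^ (k + 1) := Nat.pow_le_pow_right he (by omega)
      exact (h.big i h1.le).trans (Nat.mul_le_mul h4 h3)
    · rw [h1, nw_eq]
      exact hPbig.trans (Nat.mul_le_mul_left _ (Nat.le_add_right _ _))
    · rw [h1, nw_gt]
      exact hRbig.trans (Nat.mul_le_mul_left _ (Nat.le_add_right _ _))
  · rw [nw_gt]
    exact hRbig

theorem main [Finite V] {G : SimpleGraph V} {S : Set V} {ρ e : ℕ} (he : 1 ≤ e)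
    (hno : ¬ ∃ S₀ ⊆ S, S.ncard ≤ e ^ 4 * S₀.ncard ∧ Usp G S₀ ρ e) :
    ∀ k ≤ 4, ∃ (Q : Set V) (D : ℕ → Set V), St G S ρ e k Q D := by
  intro k
  induction k with
  | zero =>
    intro _
    refine ⟨∅, fun _ => Set.univ, ?_, ?_, ?_, ?_, ?_, ?_⟩
    · simp
    · intro i _; exact Set.disjoint_empty _
    · intro i hi j hj hij; omega
    · intro i _ u _ v _; exact Or.inl (Set.mem_univ v)
    · intro i _; simp
    · simp
  | succ k ih =>
    intro hk
    obtain ⟨Q, D, h⟩ := ih (by omega)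
    have h1 : S.ncard ≤ e ^ 4 * (S ∩ D k).ncard :=
      h.last.trans (Nat.mul_le_mul_right _ (Nat.pow_le_pow_right he (by omega)))
    have h2 : ¬ Usp G (S ∩ D k) ρ e := fun hu => hno ⟨S ∩ D k, Set.inter_subset_left, h1, hu⟩
    unfold Usp at h2
    push Not at h2
    obtain ⟨P, Z, R, hs, hZ, hP, hR⟩ := h2
    exact ⟨_, _, step he h hs hZ hP hR⟩

end gSplAux

theorem gSpl : S_Spl := by
  intro V _ G S ρ e he
  by_cases hno : ∃ S₀ ⊆ S, S.ncard ≤ e ^ 4 * S₀.ncard ∧ Usp G S₀ ρ e
  · exact Or.inl hno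
  · right
    obtain ⟨Q, D, h⟩ := gSplAux.main he hno 4 le_rfl
    exact ⟨Q, fun i => D i.val, h.card, fun i => h.dq i.val (by omega),
      fun i j hij => h.dd i.val (by omega) j.val (by omega) (fun h' => hij (Fin.ext h')),
      fun i => h.cl i.val (by omega), fun i => h.big i.val (by omega)⟩

end Pool.Agent.MPd439b2.RG
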