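import Pool.Agent.Lib.MP_d439b2_co.RG.Spec

/-!
# MP_d439b2_co, RG, Star: the star lemma (helper1)
-/

set_option autoImplicit false

namespace Pool.Agent.MPd439b2.RG

open Pool.Agent.MPd439b2
open Pool.Agent.MPd439b2.Rep
open Pool.Agent.MPd439b2.A0

private theorem Star_five2 : ∀ i j : Fin 5, i ≠ j → ∃ a b c : Fin 5,
    (a ≠ b ∧ a ≠ c ∧ b ≠ c) ∧ (a ≠ i ∧ a ≠ j) ∧ (b ≠ i ∧ b ≠ j) ∧ (c ≠ i ∧ c ≠ j) := by decide

private theorem Star_five3 : ∀ i j k : Fin 5, ∃ a : Fin 5, a ≠ i ∧ a ≠ j ∧ a ≠ k := by decide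

theorem gStar : S_X1 → S_X2 → S_X3 → S_Fam → S_Arm → S_Star := by
  classical
  intro hX1 hX2 hX3 hFam hArm V _ G S F D hno hS hF hDF hDD hC hDS
  by_contra hcon
  push Not at hcon
  set mm : V → Set V := fun c => {f | f ∈ F ∧ ¬ G.Adj c f} with hmm
  -- basic facts
  have hmF : ∀ c, ∀ u ∈ mm c, u ∈ F := fun c u hu => hu.1
  have hadj : ∀ c, ∀ u ∈ F, u ∉ mm c → G.Adj c u := by
    intro c u hu hn
    by_contra h
    exact hn ⟨hu, h⟩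
  have hnS : ∀ c, (mm c).Nonempty → c ∉ S := by
    rintro c ⟨u, hu⟩ hcS
    exact hu.2 (hF u hu.1 c hcS).symm
  have hdis : ∀ {i j : Fin 5}, i ≠ j → ∀ {u v : V}, u ∈ D i → v ∈ D j → u ≠ v ∧ ¬ G.Adj u v := by
    intro i j hij u v hu hv
    refine ⟨fun h => ?_, (hDD i j hij).2 u hu v hv⟩
    exact Set.disjoint_left.1 (hDD i j hij).1 hu (h ▸ hv)
  have hFD : ∀ {i : Fin 5} {u : V}, u ∈ F → u ∉ D i := fun hu hu' =>
    Set.disjoint_left.1 (hDF _) hu' hu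
  -- X1
  have h1 : ∀ i j : Fin 5, i ≠ j → ∀ c ∈ D i, ∀ c' ∈ D j,
      mm c ⊆ mm c' ∨ mm c' ⊆ mm c ∨ Disjoint (mm c) (mm c') := by
    intro i j hij c hc c' hc'
    by_contra h
    push Not at h
    obtain ⟨h2, h3, h4⟩ := h
    obtain ⟨u₁, hu1, hu1'⟩ := Set.not_subset.1 h2
    obtain ⟨u₀, hu0, hu0'⟩ := Set.not_subset.1 h3
    obtain ⟨u₂, hu2, hu2'⟩ := Set.not_disjoint_iff.1 h4
    obtain ⟨a, b, d, ⟨hab, had, hbd⟩, ⟨ha1, ha2⟩, ⟨hb1, hb2⟩, ⟨hd1, hd2⟩⟩ := Star_five2 i j hij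
    obtain ⟨s₁, hs1, hs1S⟩ := hDS a
    obtain ⟨s₂, hs2, hs2S⟩ := hDS b
    obtain ⟨s₃, hs3, hs3S⟩ := hDS d
    apply hno
    refine hX1 V G u₀ u₁ u₂ s₁ s₂ s₃ c c' (hdis hab hs1 hs2).1 (hdis had hs1 hs3).1
      (hdis hbd hs2 hs3).1 (hS _ hs1S _ hs2S) (hS _ hs1S _ hs3S) (hS _ hs2S _ hs3S) ?_
      (hdis hij hc hc').2 (hadj c u₀ hu0.1 hu0') hu1.2 hu2.2 hu0.2 (hadj c' u₁ hu1.1 hu1') hu2'.2
    rintro s (rfl | rfl | rfl)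
    · exact ⟨hF _ hu0.1 _ hs1S, hF _ hu1.1 _ hs1S, hF _ hu2.1 _ hs1S, (hdis ha1.symm hc hs1).2,
        (hdis ha2.symm hc' hs1).2⟩
    · exact ⟨hF _ hu0.1 _ hs2S, hF _ hu1.1 _ hs2S, hF _ hu2.1 _ hs2S, (hdis hb1.symm hc hs2).2,
        (hdis hb2.symm hc' hs2).2⟩
    · exact ⟨hF _ hu0.1 _ hs3S, hF _ hu1.1 _ hs3S, hF _ hu2.1 _ hs3S, (hdis hd1.symm hc hs3).2,
        (hdis hd2.symm hc' hs3).2⟩
  -- the arm for `c''`
  have harm : ∀ k : Fin 5, ∀ c ∈ D k, (mm c).Nonempty → ∃ T s, Conn G T ∧ T ⊆ D k ∧ c ∈ T ∧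
      s ∉ T ∧ s ∈ D k ∧ s ∈ S ∧ ∃ t ∈ T, G.Adj t s := by
    intro k c hc hne
    obtain ⟨C, hCc, hCD, hcC, hCS⟩ := hC k c hc
    obtain ⟨T, s, hT, hTC, hcT, hTS, hs, ht⟩ := (hArm V G C S c hCc hcC (hnS c hne)).2 hCS
    exact ⟨T, s, hT, hTC.trans hCD, hcT, fun h => Set.disjoint_left.1 hTS h hs.2, hCD hs.1, hs.2, ht⟩
  have harm' : ∀ k : Fin 5, ∀ c ∈ D k, (mm c).Nonempty → ∃ E s, Conn G E ∧ E ⊆ D k ∧ s ∈ E ∧
      s ∈ S ∧ c ∉ E ∧ ∃ x ∈ E, G.Adj x c := by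
    intro k c hc hne
    obtain ⟨C, hCc, hCD, hcC, hCS⟩ := hC k c hc
    obtain ⟨s, hs⟩ := hCS
    obtain ⟨E, hE, hEC, hsE, hcE, hx⟩ := (hArm V G C S c hCc hcC (hnS c hne)).1 s hs
    exact ⟨E, s, hE, hEC.trans hCD, hsE, hs.2, hcE, hx⟩
  -- X2
  have h2 : ∀ i j k : Fin 5, i ≠ j → i ≠ k → j ≠ k → ∀ c ∈ D i, ∀ c' ∈ D j, ∀ c'' ∈ D k,
      (mm c'').Nonempty → Disjoint (mm c) (mm c') → mm c ⊆ mm c'' ∨ mm c' ⊆ mm c'' := by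
    intro i j k hij hik hjk c hc c' hc' c'' hc'' hne hd
    by_contra h
    push Not at h
    obtain ⟨h3, h4⟩ := h
    obtain ⟨u₁, hu1, hu1'⟩ := Set.not_subset.1 h3
    obtain ⟨u₀, hu0, hu0'⟩ := Set.not_subset.1 h4
    have hu1c' : u₁ ∉ mm c' := fun h => Set.disjoint_left.1 hd hu1 h
    have hu0c : u₀ ∉ mm c := fun h => Set.disjoint_left.1 hd h hu0
    obtain ⟨a, hai, haj, hak⟩ := Star_five3 i j k
    obtain ⟨s₁, hs1, hs1S⟩ := hDS a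
    obtain ⟨T, s₂, hT, hTD, hcT, hs2T, hs2, hs2S, ht⟩ := harm k c'' hc'' hne
    apply hno
    refine hX2 V G u₀ u₁ s₁ s₂ c c' c'' T (hdis hak hs1 hs2).1 (hS _ hs1S _ hs2S)
      (hF _ hu0.1 _ hs1S) (hF _ hu1.1 _ hs1S) (hF _ hu0.1 _ hs2S) (hF _ hu1.1 _ hs2S)
      (hdis hai.symm hc hs1).2 (hdis hik hc hs2).2 (hdis haj.symm hc' hs1).2
      (hdis hjk hc' hs2).2 (hdis hij hc hc').2 (hadj c u₀ hu0.1 hu0c) hu1.2 hu0.2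
      (hadj c' u₁ hu1.1 hu1c') hT hcT (hadj c'' u₀ hu0.1 hu0') (hadj c'' u₁ hu1.1 hu1') ht
      (fun h => hFD hu0.1 (hTD h)) (fun h => hFD hu1.1 (hTD h))
      (fun h => (hdis hak hs1 (hTD h)).1 rfl) hs2T (fun h => (hdis hik hc (hTD h)).1 rfl)
      (fun h => (hdis hjk hc' (hTD h)).1 rfl) ?_
    intro t ht
    exact ⟨(hdis hik.symm (hTD ht) hc).2, (hdis hjk.symm (hTD ht) hc').2,
      (hdis hak.symm (hTD ht) hs1).2⟩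
  -- X3
  have h3 : ∀ i j k : Fin 5, i ≠ j → i ≠ k → j ≠ k → ∀ c ∈ D i, ∀ c' ∈ D j, ∀ c'' ∈ D k,
      (mm c').Nonempty → (mm c'').Nonempty → mm c ⊆ mm c' → 
      mm c ⊆ mm c'' ∨ mm c' \ mm c ⊆ mm c'' := by
    intro i j k hij hik hjk c hc c' hc' c'' hc'' hne' hne hd
    by_contra h
    push Not at h
    obtain ⟨h3, h4⟩ := h
    obtain ⟨u₁, hu1, hu1'⟩ := Set.not_subset.1 h3
    obtain ⟨u₀, hu0, hu0'⟩ := Set.not_subset.1 h4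
    obtain ⟨T, s₂, hT, hTD, hcT, hs2T, hs2, hs2S, ht⟩ := harm k c'' hc'' hne
    obtain ⟨E, s₁, hE, hED, hs1E, hs1S, hcE, hx⟩ := harm' j c' hc' hne'
    apply hno
    refine hX3 V G u₀ u₁ s₁ s₂ c c' c'' T E (hF _ hu0.1.1 _ hs1S) (hF _ hu1.1 _ hs1S)
      (hF _ hu0.1.1 _ hs2S) (hF _ hu1.1 _ hs2S) (hdis hik hc hs2).2 (hdis hjk hc' hs2).2
      (hdis hij hc hc').2 (hadj c u₀ hu0.1.1 hu0.2) hu1.2 hu0.1.2 (hd hu1).2 hT hcT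
      (hadj c'' u₀ hu0.1.1 hu0') (hadj c'' u₁ hu1.1 hu1') ht hE hs1E hx hcE
      (fun h => (hdis hij hc (hED h)).1 rfl) (fun h => hFD hu0.1.1 (hED h))
      (fun h => hFD hu1.1 (hED h)) (fun h => (hdis hjk (hED h) hs2).1 rfl) ?_
      (fun h => hFD hu0.1.1 (hTD h)) (fun h => hFD hu1.1 (hTD h)) hs2T
      (fun h => (hdis hik hc (hTD h)).1 rfl) (fun h => (hdis hjk hc' (hTD h)).1 rfl) ?_ ?_
    · rw [Set.disjoint_left]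
      intro v hvE hvT
      exact (hdis hjk (hED hvE) (hTD hvT)).1 rfl
    · intro t ht
      exact ⟨(hdis hik.symm (hTD ht) hc).2, (hdis hjk.symm (hTD ht) hc').2⟩
    · intro x hx
      exact (hdis hij.symm (hED hx) hc).2
  -- the families
  let e : Fin 3 → Fin 5 := Fin.castLE (by norm_num)
  have he : ∀ i j : Fin 3, i ≠ j → e i ≠ e j := by
    intro i j hij h
    exact hij (Fin.castLE_injective (by norm_num) h)
  refine hFam V (fun i => {m | m.Nonempty ∧ ∃ c ∈ D (e i), mm c = m}) ?_ ?_ ?_ ?_ ?_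
  · intro i
    have h4 := hcon (e i)
    have h5 : (mm '' D (e i)) ⊆ insert ∅ {m | m.Nonempty ∧ ∃ c ∈ D (e i), mm c = m} := by
      rintro m ⟨c, hc, rfl⟩
      rcases Set.eq_empty_or_nonempty (mm c) with h6 | h6
      · left; exact h6
      · right; exact ⟨h6, c, hc, rfl⟩
    have h6 := Set.ncard_le_ncard h5 (Set.toFinite _)
    have h7 := Set.ncard_insert_le (∅ : Set V) {m | m.Nonempty ∧ ∃ c ∈ D (e i), mm c = m}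
    omega
  · intro i m hm
    exact hm.1
  · rintro i j hij m ⟨_, c, hc, rfl⟩ m' ⟨_, c', hc', rfl⟩
    exact h1 _ _ (he i j hij) c hc c' hc'
  · rintro i j k hij hik hjk m ⟨_, c, hc, rfl⟩ m' ⟨_, c', hc', rfl⟩ m'' ⟨hne, c'', hc'', rfl⟩ hd
    exact h2 _ _ _ (he i j hij) (he i k hik) (he j k hjk) c hc c' hc' c'' hc'' hne hd
  · rintro i j k hij hik hjk m ⟨_, c, hc, rfl⟩ m' ⟨hne', c', hc', rfl⟩ m'' ⟨hne, c'', hc'', rfl⟩ hd _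
    exact h3 _ _ _ (he i j hij) (he i k hik) (he j k hjk) c hc c' hc' c'' hc'' hne' hne hd

end Pool.Agent.MPd439b2.RG
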