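import Pool.Agent.Lib.MP_d439b2_co.RG.Spec

/-!
# MP_d439b2_co, RG: Two (helper31): two disjoint links
-/

set_option autoImplicit false

namespace Pool.Agent.MPd439b2.RG

open Pool.Agent.MPd439b2
open Pool.Agent.MPd439b2.Rep
open Pool.Agent.MPd439b2.A0

namespace gTwoAux

variable {V : Type}

/-- the adjacency of the auxiliary graph -/
def E (G : SimpleGraph V) (B X Y : Set V) : V ⊕ Bool → V ⊕ Bool → Prop
  | Sum.inl u, Sum.inl v => G.Adj u v ∧ u ∈ B ∧ v ∈ B
  | Sum.inl u, Sum.inr b => u ∈ (if b = true then X else Y)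
  | Sum.inr b, Sum.inl u => u ∈ (if b = true then X else Y)
  | Sum.inr _, Sum.inr _ => False

/-- the auxiliary graph -/
def G' (G : SimpleGraph V) (B X Y : Set V) : SimpleGraph (V ⊕ Bool) where
  Adj := E G B X Y
  symm := ⟨by
    rintro (u | b) (v | c) h
    · exact ⟨h.1.symm, h.2.2, h.2.1⟩
    · exact h
    · exact h
    · exact h⟩
  loopless := ⟨by
    rintro (u | b) h
    · exact h.1.ne rfl
    · exact h⟩

theorem conn_seg {G : SimpleGraph V} (q : ℕ → V) : ∀ t : ℕ, (∀ s < t, G.Adj (q s) (q (s + 1))) →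
    Conn G {v | ∃ s, s ≤ t ∧ q s = v} := by
  intro t
  induction t with
  | zero =>
    intro _
    have h : {v | ∃ s, s ≤ 0 ∧ q s = v} = {q 0} := by
      ext v
      constructor
      · rintro ⟨s, hs, rfl⟩
        have : s = 0 := by omega
        rw [this]
        rfl
      · intro hv
        exact ⟨0, le_refl 0, hv.symm⟩
    rw [h]
    exact Conn.singleton G _
  | succ t ih =>
    intro hadj
    have h1 := ih fun s hs => hadj s (by omega)
    have h : {v | ∃ s, s ≤ t + 1 ∧ q s = v} = insert (q (t + 1)) {v | ∃ s, s ≤ t ∧ q s = v} := by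
      ext v
      constructor
      · rintro ⟨s, hs, rfl⟩
        rcases Nat.lt_or_ge t s with h2 | h2
        · have : s = t + 1 := by omega
          rw [this]
          exact Or.inl rfl
        · exact Or.inr ⟨s, h2, rfl⟩
      · rintro (hv | ⟨s, hs, hv⟩)
        · exact ⟨t + 1, le_refl _, hv.symm⟩
        · exact ⟨s, by omega, hv⟩
    rw [h]
    exact h1.insert ⟨q t, ⟨t, le_refl t, rfl⟩, hadj t (by omega)⟩

/-- one path -/
theorem one_path {G : SimpleGraph V} {B X Y M : Set V} (hX : X ⊆ B) (hY : Y ⊆ B)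
    (n : ℕ) (p : ℕ → V ⊕ Bool) (b : Bool)
    (hadj : ∀ i, i < n → (G' G B X Y).Adj (p i) (p (i + 1))) (h0 : p 0 = Sum.inr b)
    (hlast : ∃ m ∈ M, p n = Sum.inl m)
    (hin : ∀ s, 1 ≤ s → s ≤ n → ∀ b', p s ≠ Sum.inr b') :
    ∃ (L : Set V) (x : V), Conn G L ∧ L ⊆ B ∧ (L ∩ (if b = true then X else Y)).Nonempty ∧
      L ∩ M = {x} ∧ ∀ v ∈ L, ∃ s, s ≤ n ∧ p s = Sum.inl v := by
  classical
  obtain ⟨m₀, hm₀, hpm⟩ := hlast
  have hn : 1 ≤ n := by
    by_contra h
    have : n = 0 := by omega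
    rw [this, h0] at hpm
    exact Sum.inr_ne_inl hpm
  obtain ⟨q, hq⟩ : ∃ q : ℕ → V, ∀ s, s + 1 ≤ n → p (s + 1) = Sum.inl (q s) := by
    refine ⟨fun s => Sum.elim id (fun _ => m₀) (p (s + 1)), fun s hs => ?_⟩
    cases hp : p (s + 1) with
    | inl v =>
      show Sum.inl v = Sum.inl (Sum.elim id (fun _ => m₀) (p (s + 1)))
      rw [hp]
      rfl
    | inr c => exact absurd hp (hin (s + 1) (by omega) hs c)
  have hqM : q (n - 1) ∈ M := by
    have h1 := hq (n - 1) (by omega)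
    rw [Nat.sub_add_cancel hn, hpm] at h1
    rw [← Sum.inl_injective h1]
    exact hm₀
  have hex : ∃ t, q t ∈ M := ⟨n - 1, hqM⟩
  obtain ⟨t, ht⟩ : ∃ t, t = Nat.find hex := ⟨_, rfl⟩
  have htM : q t ∈ M := by
    rw [ht]
    exact Nat.find_spec hex
  have htmin : ∀ s, s < t → q s ∉ M := by
    intro s hs
    rw [ht] at hs
    exact Nat.find_min hex hs
  have htn : t + 1 ≤ n := by
    have : t ≤ n - 1 := by
      rw [ht]
      exact Nat.find_min' hex hqM
    omega
  have hqadj : ∀ s, s < t → G.Adj (q s) (q (s + 1)) ∧ q s ∈ B ∧ q (s + 1) ∈ B := by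
    intro s hs
    have h1 := hadj (s + 1) (by omega)
    rw [hq s (by omega), hq (s + 1) (by omega)] at h1
    exact h1
  have hq0 : q 0 ∈ (if b = true then X else Y) := by
    have h1 := hadj 0 (by omega)
    rw [h0, hq 0 (by omega)] at h1
    exact h1
  have hq0B : q 0 ∈ B := by
    cases b with
    | true => exact hX (by simpa using hq0)
    | false => exact hY (by simpa using hq0)
  refine ⟨{v | ∃ s, s ≤ t ∧ q s = v}, q t, conn_seg q t fun s hs => (hqadj s hs).1, ?_,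
    ⟨q 0, ⟨0, by omega, rfl⟩, hq0⟩, ?_, ?_⟩
  · rintro v ⟨s, hs, rfl⟩
    rcases Nat.eq_zero_or_pos s with h1 | h1
    · rw [h1]
      exact hq0B
    · have h2 := (hqadj (s - 1) (by omega)).2.2
      rwa [Nat.sub_add_cancel h1] at h2
  · ext v
    constructor
    · rintro ⟨⟨s, hs, rfl⟩, hvM⟩
      rcases Nat.lt_or_ge s t with h1 | h1
      · exact absurd hvM (htmin s h1)
      · have : s = t := by omega
        rw [this]
        rfl
    · intro hv
      have hv' : v = q t := hv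
      rw [hv']
      exact ⟨⟨t, le_refl t, rfl⟩, htM⟩
  · rintro v ⟨s, hs, rfl⟩
    exact ⟨s + 1, by omega, hq s (by omega)⟩

/-- connected sets inside the left side of a cut -/
theorem spread {G : SimpleGraph V} {B X Y : Set V} [DecidableEq (V ⊕ Bool)]
    {A Bm L Z : Finset (V ⊕ Bool)} (hc : GT.Cut (G' G B X Y) A Bm L Z) {C : Set V} (hC : Conn G C)
    (hCB : C ⊆ B) (hZ : ∀ v ∈ C, Sum.inl v ∉ Z) {v₀ : V} (hv₀ : v₀ ∈ C) (hL : Sum.inl v₀ ∈ L) :
    ∀ v ∈ C, Sum.inl v ∈ L := by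
  have h1 := hC.eq_of_nb (C := {v | v ∈ C ∧ Sum.inl v ∈ L}) (fun v hv => hv.1) ⟨v₀, hv₀, hL⟩ (by
    rintro v hv ⟨hv1, u, hu, huv⟩
    have h2 := hc.far (Sum.inl u) hu.2 (Sum.inl v) (show (G' G B X Y).Adj _ _ from
      ⟨huv, hCB hu.1, hCB hv⟩)
    rcases Finset.mem_union.mp h2 with h3 | h3
    · exact hv1 ⟨hv, h3⟩
    · exact hZ v hv h3)
  intro v hv
  rw [← h1] at hv
  exact hv.2

end gTwoAux

open gTwoAux in
theorem gTwo : S_Two := by
  intro hMen V _ G B X Y M hB hX hY hM hXne hYne hMne hcon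
  classical
  have : Fintype V := Fintype.ofFinite V
  obtain ⟨A, hA⟩ : ∃ A : Finset (V ⊕ Bool), A = {Sum.inr true, Sum.inr false} := ⟨_, rfl⟩
  obtain ⟨Bm, hBm⟩ : ∃ Bm : Finset (V ⊕ Bool), Bm = Finset.univ.filter
      fun w => ∃ m ∈ M, w = Sum.inl m := ⟨_, rfl⟩
  have hmBm : ∀ w, w ∈ Bm ↔ ∃ m ∈ M, w = Sum.inl m := by
    intro w
    rw [hBm, Finset.mem_filter]
    exact ⟨fun h => h.2, fun h => ⟨Finset.mem_univ _, h⟩⟩
  have hXY : ∀ b : Bool, ((if b = true then X else Y) : Set V).Nonempty := by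
    intro b
    cases b with
    | true => simpa using hXne
    | false => simpa using hYne
  have hXYB : ∀ b : Bool, ((if b = true then X else Y) : Set V) ⊆ B := by
    intro b
    cases b with
    | true => simpa using hX
    | false => simpa using hY
  have hcut : ∀ L Z : Finset (V ⊕ Bool), GT.Cut (G' G B X Y) A Bm L Z → 2 ≤ Z.card := by
    intro L Z hc
    by_contra hlt
    have hZ1 : Z.card ≤ 1 := by omega
    rw [Finset.card_le_one] at hZ1
    have hno : ∀ m ∈ M, Sum.inl m ∉ L := fun m hm hL =>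
      Finset.disjoint_left.1 hc.last ((hmBm _).2 ⟨m, hm, rfl⟩) hL
    have hhead : ∀ b : Bool, Sum.inr b ∈ L ∨ Sum.inr b ∈ Z := by
      intro b
      have h1 : (Sum.inr b : V ⊕ Bool) ∈ A := by
        rw [hA]
        cases b with
        | true => simp
        | false => simp
      exact Finset.mem_union.1 (hc.head h1)
    have hstep : ∀ b : Bool, Sum.inr b ∈ L → ∀ v ∈ (if b = true then X else Y : Set V),
        Sum.inl v ∈ L ∨ Sum.inl v ∈ Z := by
      intro b hb v hv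
      have h2 := hc.far (Sum.inr b) hb (Sum.inl v) (show (G' G B X Y).Adj _ _ from hv)
      exact Finset.mem_union.1 h2
    by_cases hZb : ∃ b : Bool, Sum.inr b ∈ Z
    · obtain ⟨b, hb⟩ := hZb
      have hnb : Sum.inr (!b) ∈ L := by
        rcases hhead (!b) with h1 | h1
        · exact h1
        · have h2 := Sum.inr_injective (hZ1 _ h1 _ hb)
          cases b with
          | true => simp at h2
          | false => simp at h2
      have hZl : ∀ v : V, Sum.inl v ∉ Z := fun v hv => Sum.inl_ne_inr (hZ1 _ hv _ hb)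
      obtain ⟨v₀, hv₀⟩ := hXY (!b)
      have hv₀L : Sum.inl v₀ ∈ L := (hstep _ hnb v₀ hv₀).resolve_right (hZl v₀)
      obtain ⟨m, hm⟩ := hMne
      exact hno m hm (spread hc hB subset_rfl (fun v _ => hZl v) (hXYB _ hv₀) hv₀L m (hM hm))
    · have hbL : ∀ b : Bool, Sum.inr b ∈ L := fun b => (hhead b).resolve_right fun h =>
        hZb ⟨b, h⟩
      by_cases hZB : ∃ c ∈ B, Sum.inl c ∈ Z
      · obtain ⟨c, hcB, hcZ⟩ := hZB
        obtain ⟨C, hC, hCB, hcC, ⟨m, hmC, hmM⟩, ⟨v₀, hv₀C, hv₀⟩⟩ := hcon c hcB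
        have hZl : ∀ v ∈ C, Sum.inl v ∉ Z := fun v hv hvZ => by
          have h1 := Sum.inl_injective (hZ1 _ hvZ _ hcZ)
          rw [h1] at hv
          exact hcC hv
        have hv₀L : Sum.inl v₀ ∈ L := by
          rcases hv₀ with h1 | h1
          · exact (hstep true (hbL true) v₀ (by simpa using h1)).resolve_right (hZl v₀ hv₀C)
          · exact (hstep false (hbL false) v₀ (by simpa using h1)).resolve_right (hZl v₀ hv₀C)
        exact hno m hmM (spread hc hC hCB hZl hv₀C hv₀L m hmC)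
      · have hZl : ∀ v ∈ B, Sum.inl v ∉ Z := fun v hv hvZ => hZB ⟨v, hv, hvZ⟩
        obtain ⟨v₀, hv₀⟩ := hXne
        have hv₀L : Sum.inl v₀ ∈ L :=
          (hstep true (hbL true) v₀ (by simpa using hv₀)).resolve_right (hZl v₀ (hX hv₀))
        obtain ⟨m, hm⟩ := hMne
        exact hno m hm (spread hc hB subset_rfl hZl (hX hv₀) hv₀L m (hM hm))
  obtain ⟨n, p, hp⟩ := hMen (V ⊕ Bool) (G' G B X Y) A Bm 2 hcut
  -- the heads
  have hhd : ∀ i, ∃ b : Bool, p i 0 = Sum.inr b := by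
    intro i
    have h1 := (hp.pth i).head
    rw [hA, Finset.mem_insert, Finset.mem_singleton] at h1
    rcases h1 with h1 | h1
    · exact ⟨true, h1⟩
    · exact ⟨false, h1⟩
  obtain ⟨i₁, i₂, hi, h1, h2⟩ : ∃ i₁ i₂ : Fin 2, i₁ ≠ i₂ ∧ p i₁ 0 = Sum.inr true ∧
      p i₂ 0 = Sum.inr false := by
    obtain ⟨b₀, hb₀⟩ := hhd 0
    obtain ⟨b₁, hb₁⟩ := hhd 1
    have hne : b₀ ≠ b₁ := by
      intro h
      have h3 := hp.dis 0 1 (by decide) 0 (Nat.zero_le _) 0 (Nat.zero_le _)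
      rw [hb₀, hb₁, h] at h3
      exact h3 rfl
    cases b₀ with
    | true =>
      cases b₁ with
      | true => exact absurd rfl hne
      | false => exact ⟨0, 1, by decide, hb₀, hb₁⟩
    | false =>
      cases b₁ with
      | true => exact ⟨1, 0, by decide, hb₁, hb₀⟩
      | false => exact absurd rfl hne
  have hin₁ : ∀ s, 1 ≤ s → s ≤ n i₁ → ∀ b', p i₁ s ≠ Sum.inr b' := by
    intro s hs1 hs2 b' hb'
    cases b' with
    | true =>
      have h3 := (hp.pth i₁).inj s hs2 0 (Nat.zero_le _) (by rw [hb', h1])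
      omega
    | false => exact hp.dis i₁ i₂ hi s hs2 0 (Nat.zero_le _) (by rw [hb', h2])
  have hin₂ : ∀ s, 1 ≤ s → s ≤ n i₂ → ∀ b', p i₂ s ≠ Sum.inr b' := by
    intro s hs1 hs2 b' hb'
    cases b' with
    | false =>
      have h3 := (hp.pth i₂).inj s hs2 0 (Nat.zero_le _) (by rw [hb', h2])
      omega
    | true => exact hp.dis i₂ i₁ hi.symm s hs2 0 (Nat.zero_le _) (by rw [hb', h1])
  obtain ⟨L₁, x, c1, c2, c3, c4, c5⟩ := one_path hX hY (n i₁) (p i₁) true (hp.pth i₁).adj h1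
    ((hmBm _).1 (hp.pth i₁).last) hin₁
  obtain ⟨L₂, y, d1, d2, d3, d4, d5⟩ := one_path hX hY (n i₂) (p i₂) false (hp.pth i₂).adj h2
    ((hmBm _).1 (hp.pth i₂).last) hin₂
  refine ⟨L₁, L₂, x, y, c1, d1, c2, d2, ?_, by simpa using c3, by simpa using d3, c4, d4⟩
  rw [Set.disjoint_left]
  intro v hv1 hv2
  obtain ⟨s, hs, hsv⟩ := c5 v hv1
  obtain ⟨t, ht, htv⟩ := d5 v hv2
  exact hp.dis i₁ i₂ hi s hs t ht (by rw [hsv, htv])

end Pool.Agent.MPd439b2.RG
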