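import Pool.Agent.Lib.MP_d439b2_co.RG.Spec

/-!
# MP_d439b2_co, RG, X1 (helper12)
-/

set_option autoImplicit false

namespace Pool.Agent.MPd439b2.RG

open Pool.Agent.MPd439b2
open Pool.Agent.MPd439b2.Rep
open Pool.Agent.MPd439b2.A0

theorem gX1 : S_X1 := by
  intro V G u₀ u₁ u₂ s₁ s₂ s₃ c c' h12 h13 h23 n12 n13 n23 hs hcc a0 na1 na2 nb0 b1 nb2
  obtain ⟨p01, p11, p21, q1, r1⟩ := hs s₁ (Or.inl rfl)
  obtain ⟨p02, p12, p22, q2, r2⟩ := hs s₂ (Or.inr (Or.inl rfl))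
  obtain ⟨p03, p13, p23, q3, r3⟩ := hs s₃ (Or.inr (Or.inr rfl))
  have e01 : u₀ ≠ u₁ := fun h => na1 (h ▸ a0)
  have e02 : u₀ ≠ u₂ := fun h => na2 (h ▸ a0)
  have e12 : u₁ ≠ u₂ := fun h => nb2 (h ▸ b1)
  have ec0 : c ≠ u₀ := fun h => q1 (h ▸ p01)
  have ec1 : c ≠ u₁ := fun h => q1 (h ▸ p11)
  have ec2 : c ≠ u₂ := fun h => q1 (h ▸ p21)
  have ed0 : c' ≠ u₀ := fun h => r1 (h ▸ p01)
  have ed1 : c' ≠ u₁ := fun h => r1 (h ▸ p11)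
  have ed2 : c' ≠ u₂ := fun h => r1 (h ▸ p21)
  have ecd : c ≠ c' := fun h => nb0 (h ▸ a0)
  have ecs1 : c ≠ s₁ := fun h => na1 (h ▸ p11.symm)
  have ecs2 : c ≠ s₂ := fun h => na1 (h ▸ p12.symm)
  have ecs3 : c ≠ s₃ := fun h => na1 (h ▸ p13.symm)
  have eds1 : c' ≠ s₁ := fun h => nb0 (h ▸ p01.symm)
  have eds2 : c' ≠ s₂ := fun h => nb0 (h ▸ p02.symm)
  have eds3 : c' ≠ s₃ := fun h => nb0 (h ▸ p03.symm)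
  have f01 : u₀ ≠ s₁ := p01.ne
  have f02 : u₀ ≠ s₂ := p02.ne
  have f03 : u₀ ≠ s₃ := p03.ne
  have f11 : u₁ ≠ s₁ := p11.ne
  have f12 : u₁ ≠ s₂ := p12.ne
  have f13 : u₁ ≠ s₃ := p13.ne
  have f21 : u₂ ≠ s₁ := p21.ne
  have f22 : u₂ ≠ s₂ := p22.ne
  have f23 : u₂ ≠ s₃ := p23.ne
  refine A0.aM1 V G {u₀, s₂} {u₁, s₃} {u₂} {s₁} {c} {c'} (Conn.pair p02) (Conn.pair p13)
    (Conn.singleton G _) (Conn.singleton G _) (Conn.singleton G _) (Conn.singleton G _)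
    ?_ ?_ ?_ ?_ ?_ ?_ ?_ ?_ ?_ ?_ ?_ ?_ ?_ ?_ ?_
    ⟨s₂, Or.inr rfl, u₁, Or.inl rfl, p12.symm⟩ ⟨s₂, Or.inr rfl, u₂, rfl, p22.symm⟩
    ⟨u₀, Or.inl rfl, s₁, rfl, p01⟩ ⟨s₃, Or.inr rfl, u₂, rfl, p23.symm⟩
    ⟨u₁, Or.inl rfl, s₁, rfl, p11⟩ ⟨u₂, rfl, s₁, rfl, p21⟩ ⟨u₀, Or.inl rfl, c, rfl, a0.symm⟩
    ⟨u₁, Or.inl rfl, c', rfl, b1.symm⟩ ?_ ?_ ?_ ?_ ?_ ?_ ?_
  · simp [e01.symm, f03.symm, f12, h23, e01, f03, f12.symm, h23.symm]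
  · simp [e02, f22, e02.symm, f22.symm]
  · simp [f01, h12, f01.symm, h12.symm]
  · simp [ec0, ecs2, ec0.symm, ecs2.symm]
  · simp [ed0, eds2, ed0.symm, eds2.symm]
  · simp [e12, f23, e12.symm, f23.symm]
  · simp [f11, h13, f11.symm, h13.symm]
  · simp [ec1, ecs3, ec1.symm, ecs3.symm]
  · simp [ed1, eds3, ed1.symm, eds3.symm]
  · simp [f21, f21.symm]
  · simp [ec2, ec2.symm]
  · simp [ed2, ed2.symm]
  · simp [ecs1, ecs1.symm]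
  · simp [eds1, eds1.symm]
  · simp [ecd, ecd.symm]
  · rintro ⟨x, hx | hx, y, hy, hxy⟩
    · rw [hx, hy] at hxy; exact nb0 hxy.symm
    · rw [hx, hy] at hxy; exact r2 hxy.symm
  · rintro ⟨x, hx | hx, y, hy, hxy⟩
    · rw [hx, hy] at hxy; exact na1 hxy.symm
    · rw [hx, hy] at hxy; exact q3 hxy.symm
  · rintro ⟨x, hx, y, hy, hxy⟩
    rw [hx, hy] at hxy; exact na2 hxy.symm
  · rintro ⟨x, hx, y, hy, hxy⟩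
    rw [hx, hy] at hxy; exact nb2 hxy.symm
  · rintro ⟨x, hx, y, hy, hxy⟩
    rw [hx, hy] at hxy; exact q1 hxy.symm
  · rintro ⟨x, hx, y, hy, hxy⟩
    rw [hx, hy] at hxy; exact r1 hxy.symm
  · rintro ⟨x, hx, y, hy, hxy⟩
    rw [hx, hy] at hxy; exact hcc hxy

end Pool.Agent.MPd439b2.RG
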