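import Pool.Agent.Lib.MP_d439b2_co.RG.Spec

/-!
# MP_d439b2_co, RG, X2 (helper12)
-/

set_option autoImplicit false

namespace Pool.Agent.MPd439b2.RG

open Pool.Agent.MPd439b2
open Pool.Agent.MPd439b2.Rep
open Pool.Agent.MPd439b2.A0

theorem gX2 : S_X2 := by
  intro V G u₀ u₁ s₁ s₂ c c' c'' T h12 n12 p01 p11 p02 p12 q1 q2 r1 r2 hcc a0 na1 nb0 b1 hT hcT
    t0 t1 hts u0T u1T s1T s2T cT dT hTn
  obtain ⟨t, ht, hts⟩ := hts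
  have e01 : u₀ ≠ u₁ := fun h => na1 (h ▸ a0)
  have ec0 : c ≠ u₀ := fun h => q1 (h ▸ p01)
  have ec1 : c ≠ u₁ := fun h => q1 (h ▸ p11)
  have ed0 : c' ≠ u₀ := fun h => r1 (h ▸ p01)
  have ed1 : c' ≠ u₁ := fun h => r1 (h ▸ p11)
  have ecd : c ≠ c' := fun h => nb0 (h ▸ a0)
  have ecs1 : c ≠ s₁ := fun h => na1 (h ▸ p11.symm)
  have ecs2 : c ≠ s₂ := fun h => na1 (h ▸ p12.symm)
  have eds1 : c' ≠ s₁ := fun h => nb0 (h ▸ p01.symm)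
  have eds2 : c' ≠ s₂ := fun h => nb0 (h ▸ p02.symm)
  have f01 : u₀ ≠ s₁ := p01.ne
  have f02 : u₀ ≠ s₂ := p02.ne
  have f11 : u₁ ≠ s₁ := p11.ne
  have f12 : u₁ ≠ s₂ := p12.ne
  refine A0.aM1 V G {u₀, s₁} {u₁} {s₂} T {c} {c'} (Conn.pair p01) (Conn.singleton G _)
    (Conn.singleton G _) hT (Conn.singleton G _) (Conn.singleton G _)
    ?_ ?_ ?_ ?_ ?_ ?_ ?_ ?_ ?_ ?_ ?_ ?_ ?_ ?_ ?_
    ⟨s₁, Or.inr rfl, u₁, rfl, p11.symm⟩ ⟨u₀, Or.inl rfl, s₂, rfl, p02⟩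
    ⟨u₀, Or.inl rfl, c'', hcT, t0.symm⟩ ⟨u₁, rfl, s₂, rfl, p12⟩
    ⟨u₁, rfl, c'', hcT, t1.symm⟩ ⟨s₂, rfl, t, ht, hts.symm⟩ ⟨u₀, Or.inl rfl, c, rfl, a0.symm⟩
    ⟨u₁, rfl, c', rfl, b1.symm⟩ ?_ ?_ ?_ ?_ ?_ ?_ ?_
  · simp [e01, f11, e01.symm, f11.symm]
  · simp [f02, h12, f02.symm, h12.symm]
  · simp [u0T, s1T]
  · simp [ec0, ecs1, ec0.symm, ecs1.symm]
  · simp [ed0, eds1, ed0.symm, eds1.symm]
  · simp [f12, f12.symm]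
  · simp [u1T]
  · simp [ec1, ec1.symm]
  · simp [ed1, ed1.symm]
  · simp [s2T]
  · simp [ecs2, ecs2.symm]
  · simp [eds2, eds2.symm]
  · simp [cT]
  · simp [dT]
  · simp [ecd, ecd.symm]
  · rintro ⟨x, hx | hx, y, hy, hxy⟩
    · rw [hx, hy] at hxy; exact nb0 hxy.symm
    · rw [hx, hy] at hxy; exact r1 hxy.symm
  · rintro ⟨x, hx, y, hy, hxy⟩
    rw [hx, hy] at hxy; exact na1 hxy.symm
  · rintro ⟨x, hx, y, hy, hxy⟩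
    rw [hx, hy] at hxy; exact q2 hxy.symm
  · rintro ⟨x, hx, y, hy, hxy⟩
    rw [hx, hy] at hxy; exact r2 hxy.symm
  · rintro ⟨x, hx, y, hy, hxy⟩
    rw [hy] at hxy; exact (hTn x hx).1 hxy
  · rintro ⟨x, hx, y, hy, hxy⟩
    rw [hy] at hxy; exact (hTn x hx).2.1 hxy
  · rintro ⟨x, hx, y, hy, hxy⟩
    rw [hx, hy] at hxy; exact hcc hxy

end Pool.Agent.MPd439b2.RG
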