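import Pool.Agent.Lib.MP_d439b2_co.RG.Spec

/-!
# MP_d439b2_co, RG, X3 (helper12)
-/

set_option autoImplicit false

namespace Pool.Agent.MPd439b2.RG

open Pool.Agent.MPd439b2
open Pool.Agent.MPd439b2.Rep
open Pool.Agent.MPd439b2.A0

theorem gX3 : S_X3 := by
  intro V G u₀ u₁ s₁ s₂ c c' c'' T E p01 p11 p02 p12 q2 r2 hcc a0 na1 nb0 nb1 hT hcT
    t0 t1 hts hE s1E hx dE cE u0E u1E s2E hET u0T u1T s2T cT dT hTn hEn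
  obtain ⟨t, ht, hts⟩ := hts
  obtain ⟨x, hxE, hxc⟩ := hx
  have e01 : u₀ ≠ u₁ := fun h => na1 (h ▸ a0)
  have ec0 : c ≠ u₀ := fun h => q2 (h ▸ p02)
  have ec1 : c ≠ u₁ := fun h => q2 (h ▸ p12)
  have ed0 : c' ≠ u₀ := fun h => r2 (h ▸ p02)
  have ed1 : c' ≠ u₁ := fun h => r2 (h ▸ p12)
  have ecd : c ≠ c' := fun h => nb0 (h ▸ a0)
  have ecs2 : c ≠ s₂ := fun h => na1 (h ▸ p12.symm)
  have eds2 : c' ≠ s₂ := fun h => nb0 (h ▸ p02.symm)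
  have f02 : u₀ ≠ s₂ := p02.ne
  have f12 : u₁ ≠ s₂ := p12.ne
  have hB : Conn G ({u₁} ∪ E) :=
    (Conn.singleton G u₁).union hE (Or.inr ⟨u₁, rfl, s₁, s1E, p11⟩)
  refine A0.aM1 V G {u₀} ({u₁} ∪ E) {s₂} T {c} {c'} (Conn.singleton G _) hB
    (Conn.singleton G _) hT (Conn.singleton G _) (Conn.singleton G _)
    ?_ ?_ ?_ ?_ ?_ ?_ ?_ ?_ ?_ ?_ ?_ ?_ ?_ ?_ ?_
    ⟨u₀, rfl, s₁, Or.inr s1E, p01⟩ ⟨u₀, rfl, s₂, rfl, p02⟩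
    ⟨u₀, rfl, c'', hcT, t0.symm⟩ ⟨u₁, Or.inl rfl, s₂, rfl, p12⟩
    ⟨u₁, Or.inl rfl, c'', hcT, t1.symm⟩ ⟨s₂, rfl, t, ht, hts.symm⟩ ⟨u₀, rfl, c, rfl, a0.symm⟩
    ⟨x, Or.inr hxE, c', rfl, hxc⟩ ?_ ?_ ?_ ?_ ?_ ?_ ?_
  · simp [e01, e01.symm, u0E]
  · simp [f02, f02.symm]
  · simp [u0T]
  · simp [ec0, ec0.symm]
  · simp [ed0, ed0.symm]
  · simp [f12, f12.symm, s2E]
  · rw [Set.disjoint_union_left]
    exact ⟨by simp [u1T], hET⟩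
  · simp [ec1, ec1.symm, cE]
  · simp [ed1, ed1.symm, dE]
  · simp [s2T]
  · simp [ecs2, ecs2.symm]
  · simp [eds2, eds2.symm]
  · simp [cT]
  · simp [dT]
  · simp [ecd, ecd.symm]
  · rintro ⟨x, hx, y, hy, hxy⟩
    rw [hx, hy] at hxy; exact nb0 hxy.symm
  · rintro ⟨x, hx | hx, y, hy, hxy⟩
    · rw [hx, hy] at hxy; exact na1 hxy.symm
    · rw [hy] at hxy; exact hEn x hx hxy
  · rintro ⟨x, hx, y, hy, hxy⟩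
    rw [hx, hy] at hxy; exact q2 hxy.symm
  · rintro ⟨x, hx, y, hy, hxy⟩
    rw [hx, hy] at hxy; exact r2 hxy.symm
  · rintro ⟨x, hx, y, hy, hxy⟩
    rw [hy] at hxy; exact (hTn x hx).1 hxy
  · rintro ⟨x, hx, y, hy, hxy⟩
    rw [hy] at hxy; exact (hTn x hx).2 hxy
  · rintro ⟨x, hx, y, hy, hxy⟩
    rw [hx, hy] at hxy; exact hcc hxy

end Pool.Agent.MPd439b2.RG
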