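import Pool.Agent.Lib.MP_d439b2_co.RG.A6
import Pool.Agent.Lib.MP_d439b2_co.RG.Arm
import Pool.Agent.Lib.MP_d439b2_co.RG.Bc
import Pool.Agent.Lib.MP_d439b2_co.RG.Cnt
import Pool.Agent.Lib.MP_d439b2_co.RG.CoA
import Pool.Agent.Lib.MP_d439b2_co.RG.CoB
import Pool.Agent.Lib.MP_d439b2_co.RG.Ex
import Pool.Agent.Lib.MP_d439b2_co.RG.Fam
import Pool.Agent.Lib.MP_d439b2_co.RG.GKH
import Pool.Agent.Lib.MP_d439b2_co.RG.Grp
import Pool.Agent.Lib.MP_d439b2_co.RG.LB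
import Pool.Agent.Lib.MP_d439b2_co.RG.Mat
import Pool.Agent.Lib.MP_d439b2_co.RG.MeU
import Pool.Agent.Lib.MP_d439b2_co.RG.Min
import Pool.Agent.Lib.MP_d439b2_co.RG.R3
import Pool.Agent.Lib.MP_d439b2_co.RG.REG
import Pool.Agent.Lib.MP_d439b2_co.RG.Rai
import Pool.Agent.Lib.MP_d439b2_co.RG.Rkm
import Pool.Agent.Lib.MP_d439b2_co.RG.Seg
import Pool.Agent.Lib.MP_d439b2_co.RG.Spl
import Pool.Agent.Lib.MP_d439b2_co.RG.Star
import Pool.Agent.Lib.MP_d439b2_co.RG.Tou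
import Pool.Agent.Lib.MP_d439b2_co.RG.Two
import Pool.Agent.Lib.MP_d439b2_co.RG.X1
import Pool.Agent.Lib.MP_d439b2_co.RG.X2
import Pool.Agent.Lib.MP_d439b2_co.RG.X3

/-!
# MP_d439b2_co, RG: the regular case, assembly

`regF`: the regular case is impossible.
-/

set_option autoImplicit false

namespace Pool.Agent.MPd439b2.RG

open Pool.Agent.MPd439b2
open Pool.Agent.MPd439b2.Rep
open Pool.Agent.MPd439b2.A0

/-- the star lemma -/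
theorem starF : S_Star := gStar gX1 gX2 gX3 gFam gArm

/-- unbalanced pairs -/
theorem unbF : ∃ b : ℕ, ∀ (V : Type) [Finite V] (G : SimpleGraph V) (S : Set V) (s s' : V),
    ¬ IMS K401 G Set.univ → Lt G S → s ∈ S → s' ∈ S → s ≠ s' → Unb G S b s s' →
      Al G S s s' ∨ Al G S s' s ∨ Be G S s s' := by
  obtain ⟨b, hb⟩ := gBc gGKH aGr
  exact ⟨b, fun V _ G S s s' h1 h2 h3 h4 h5 h6 =>
    gA6 gMin gEx gTwo GT.pMen V G S s s' h1 h2 h3 h4 h5 (hb V G S s s' h1 h6)⟩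

/-- Lemma B -/
theorem lbF : ∃ ρ e n₀ : ℕ, 1 ≤ e ∧ ∀ (V : Type) [Finite V] (G : SimpleGraph V) (S : Set V),
    ¬ IMS K401 G Set.univ → Lt G S → n₀ ≤ S.ncard → ¬ Usp G S ρ e :=
  gLB unbF gCoA gCoB gMat gGrp gCnt GT.pMen gMeU gTou gSeg gRai gR3

/-- **REG.** The regular case is impossible. -/
theorem regF (w₀ : ℕ) : ∃ c₀ : ℕ, ∀ β : ℕ → ℕ, ∃ n : ℕ, ∀ (V : Type) [Finite V]
    (G : SimpleGraph V) (S W₀ : Set V), ¬ IMS K401 G Set.univ → Link β c₀ G → W₀.ncard ≤ w₀ →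
    StO G S → n ≤ S.ncard →
    ¬ ∀ v, v ∉ W₀ → (∀ s ∈ S, G.Adj v s) ∨ ∀ s ∈ S, ∀ s' ∈ S, G.Adj v s → G.Adj v s' → s = s' :=
  gREG starF gRkm gSpl lbF w₀

end Pool.Agent.MPd439b2.RG
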