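import Pool.Agent.Lib.MP_d439b2_co.RG.Spec

/-!
# MP_d439b2_co, RG: A6 (helper31): an unbalanced pair
-/

set_option autoImplicit false

namespace Pool.Agent.MPd439b2.RG

open Pool.Agent.MPd439b2
open Pool.Agent.MPd439b2.Rep
open Pool.Agent.MPd439b2.A0

namespace gA6Aux

variable {V : Type}

theorem meet [Finite V] {S C D : Set V} (h1 : Lg S C) (h2 : Lg S D) : (C ∩ D).Nonempty := by
  by_contra h
  have h3 : Disjoint (S ∩ C) (S ∩ D) := by
    rw [Set.disjoint_left]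
    intro v hv hv'
    exact h ⟨v, hv.2, hv'.2⟩
  have h4 := Set.ncard_union_eq h3 (Set.toFinite _) (Set.toFinite _)
  have h5 : (S ∩ C ∪ S ∩ D).ncard ≤ S.ncard :=
    Set.ncard_le_ncard (Set.union_subset Set.inter_subset_left Set.inter_subset_left)
      (Set.toFinite _)
  unfold Lg at h1 h2
  omega

theorem Lg.mono [Finite V] {S C D : Set V} (h : Lg S C) (hCD : C ⊆ D) : Lg S D := by
  have h5 : (S ∩ C).ncard ≤ (S ∩ D).ncard :=
    Set.ncard_le_ncard (Set.inter_subset_inter_right S hCD) (Set.toFinite _)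
  unfold Lg at h ⊢
  omega

/-- an edge leaving `B` towards `s` -/
theorem front {G : SimpleGraph V} {s s' : V} {B C : Set V}
    (hcl : ∀ u ∈ B, ∀ v, G.Adj u v → v ∈ B ∨ v = s ∨ v = s' ∨ G.Adj v s ∨ G.Adj v s')
    (hBs : ∀ v ∈ B, v ≠ s ∧ ¬ G.Adj v s) (hC : Conn G C) (hs : s ∈ C)
    (hC' : ∀ v ∈ C, v ≠ s' ∧ ¬ G.Adj v s') (hCB : (C ∩ B).Nonempty) :
    ∃ u ∈ B, ∃ p, G.Adj u p ∧ G.Adj p s := by
  obtain ⟨b, hb, a, ha, hab⟩ := hC.2 (C ∩ B) Set.inter_subset_left hCB (by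
    intro h
    have h1 : s ∈ C ∩ B := by
      rw [h]
      exact hs
    exact (hBs s h1.2).1 rfl)
  rcases hcl b hb.2 a hab with h | h | h | h | h
  · exact absurd ⟨ha.1, h⟩ ha.2
  · rw [h] at hab
    exact absurd hab (hBs b hb.2).2
  · exact absurd h (hC' a ha.1).1
  · exact ⟨b, hb.2, a, hab, h⟩
  · exact absurd h (hC' a ha.1).2

theorem arm {G : SimpleGraph V} {L D : Set V} {p u x : V} (hL : Conn G L) (hD : Conn G D)
    (hu : u ∈ L) (hup : G.Adj u p) (hx : x ∈ L) (hx' : x ∈ D) : Conn G (insert p L ∪ D) :=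
  (hL.insert ⟨u, hu, hup⟩).union hD (Or.inl ⟨x, Or.inr hx, hx'⟩)

end gA6Aux

open gA6Aux in
theorem gA6 : S_A6 := by
  intro hMin hEx hTwo hMen V _ G S s s' hI hLt hs hs' hss ⟨B, M, hB, hBN, hBL, hcl, hM, hMB, hK⟩
  by_contra hcon
  have hAl : ¬ Al G S s s' := fun h => hcon (Or.inl h)
  have hAl' : ¬ Al G S s' s := fun h => hcon (Or.inr (Or.inl h))
  have hBe : ¬ Be G S s s' := fun h => hcon (Or.inr (Or.inr h))
  have hBN' : ∀ v ∈ B, v ≠ s ∧ v ≠ s' ∧ ¬ G.Adj v s ∧ ¬ G.Adj v s' := by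
    intro v hv
    have h1 : v ∉ NN G s s' := Set.disjoint_left.1 hBN hv
    refine ⟨fun h => h1 (Or.inl h), fun h => h1 (Or.inr (Or.inl h)),
      fun h => h1 (Or.inr (Or.inr (Or.inl h))), fun h => h1 (Or.inr (Or.inr (Or.inr h)))⟩
  have hcl' : ∀ u ∈ B, ∀ v, G.Adj u v → v ∈ B ∨ v = s ∨ v = s' ∨ G.Adj v s ∨ G.Adj v s' := by
    intro u hu v huv
    rcases hcl u hu v huv with h | h | h | h | h
    · exact Or.inl h
    · exact Or.inr (Or.inl h)
    · exact Or.inr (Or.inr (Or.inl h))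
    · exact Or.inr (Or.inr (Or.inr (Or.inl h)))
    · exact Or.inr (Or.inr (Or.inr (Or.inr h)))
  have hsB : s ∉ B := fun h => (hBN' s h).1 rfl
  have hs'B : s' ∉ B := fun h => (hBN' s' h).2.1 rfl
  have hns : ¬ G.Adj s s' := hLt.st s hs s' hs'
  obtain ⟨X, hX⟩ : ∃ X : Set V, X = {u | u ∈ B ∧ ∃ p, G.Adj u p ∧ G.Adj p s} := ⟨_, rfl⟩
  obtain ⟨Y, hY⟩ : ∃ Y : Set V, Y = {u | u ∈ B ∧ ∃ p, G.Adj u p ∧ G.Adj p s'} := ⟨_, rfl⟩
  have hXB : X ⊆ B := by
    rw [hX]
    exact fun u hu => hu.1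
  have hYB : Y ⊆ B := by
    rw [hY]
    exact fun u hu => hu.1
  have hXne : X.Nonempty := by
    unfold Al at hAl
    push Not at hAl
    obtain ⟨C, hC, hsC, hCs', hCL⟩ := hAl
    obtain ⟨u, hu, p, h1, h2⟩ := front (s := s) (s' := s') hcl'
      (fun v hv => ⟨(hBN' v hv).1, (hBN' v hv).2.2.1⟩) hC hsC hCs' (meet hCL hBL)
    rw [hX]
    exact ⟨u, hu, p, h1, h2⟩
  have hYne : Y.Nonempty := by
    unfold Al at hAl'
    push Not at hAl'
    obtain ⟨C, hC, hsC, hCs', hCL⟩ := hAl'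
    obtain ⟨u, hu, p, h1, h2⟩ := front (s := s') (s' := s)
      (fun u hu v huv => by
        rcases hcl' u hu v huv with h | h | h | h | h
        · exact Or.inl h
        · exact Or.inr (Or.inr (Or.inl h))
        · exact Or.inr (Or.inl h)
        · exact Or.inr (Or.inr (Or.inr (Or.inr h)))
        · exact Or.inr (Or.inr (Or.inr (Or.inl h))))
      (fun v hv => ⟨(hBN' v hv).2.1, (hBN' v hv).2.2.2⟩) hC hsC hCs' (meet hCL hBL)
    rw [hY]
    exact ⟨u, hu, p, h1, h2⟩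
  obtain ⟨A, hA, hAM, hAmin⟩ := hMin V G M hM
  obtain ⟨AA, hAA⟩ : ∃ AA : Set V, AA = {v | ∃ i, v ∈ A i} := ⟨_, rfl⟩
  have hAAB : AA ⊆ B := by
    rw [hAA]
    rintro v ⟨i, hi⟩
    exact hMB i (hAM i hi)
  have hAAne : AA.Nonempty := by
    obtain ⟨v, hv⟩ := (hA.1 0).1
    rw [hAA]
    exact ⟨v, 0, hv⟩
  by_cases hcase : ∀ c ∈ B, ∃ C, Conn G C ∧ C ⊆ B ∧ c ∉ C ∧ (C ∩ AA).Nonempty ∧
      (C ∩ (X ∪ Y)).Nonempty
  · obtain ⟨L₁, L₂, x, y, hL₁, hL₂, hL₁B, hL₂B, hLL, ⟨u₁, hu₁L, hu₁X⟩, ⟨u₂, hu₂L, hu₂Y⟩, hLx,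
      hLy⟩ := hTwo hMen V G B X Y AA hB hXB hYB hAAB hXne hYne hAAne hcase
    have hx : x ∈ L₁ ∩ AA := by
      rw [hLx]
      rfl
    have hy : y ∈ L₂ ∩ AA := by
      rw [hLy]
      rfl
    have hxy : x ≠ y := by
      intro h
      rw [h] at hx
      exact Set.disjoint_left.1 hLL hx.1 hy.1
    have hx2 : ∃ i, x ∈ A i := by
      have := hx.2
      rwa [hAA] at this
    have hy2 : ∃ i, y ∈ A i := by
      have := hy.2
      rwa [hAA] at this
    obtain ⟨A', hA', hx0, hy1, hun⟩ := hEx V G A hA hAmin x y hxy hx2 hy2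
    have hA'AA : ∀ i, A' i ⊆ AA := by
      intro i v hv
      rw [hAA]
      exact (hun v).1 ⟨i, hv⟩
    have hA'B : ∀ i, A' i ⊆ B := fun i => (hA'AA i).trans hAAB
    have hL₁A : ∀ v ∈ L₁, ∀ i, i ≠ 0 → v ∉ A' i := by
      intro v hv i hi hvi
      have h1 : v ∈ L₁ ∩ AA := ⟨hv, hA'AA i hvi⟩
      rw [hLx] at h1
      have h2 : v = x := h1
      rw [h2] at hvi
      exact Set.disjoint_left.1 (hA'.2 i 0 hi).1 hvi hx0
    have hL₂A : ∀ v ∈ L₂, ∀ i, i ≠ 1 → v ∉ A' i := by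
      intro v hv i hi hvi
      have h1 : v ∈ L₂ ∩ AA := ⟨hv, hA'AA i hvi⟩
      rw [hLy] at h1
      have h2 : v = y := h1
      rw [h2] at hvi
      exact Set.disjoint_left.1 (hA'.2 i 1 hi).1 hvi hy1
    rw [hX] at hu₁X
    rw [hY] at hu₂Y
    obtain ⟨_, p, hp1, hp2⟩ := hu₁X
    obtain ⟨_, q, hq1, hq2⟩ := hu₂Y
    have hpB : p ∉ B := fun h => (hBN' p h).2.2.1 hp2
    have hqB : q ∉ B := fun h => (hBN' q h).2.2.2 hq2
    have hps' : ¬ G.Adj p s' := fun h => hss (hLt.low p s hs s' hs' hp2 h)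
    have hqs : ¬ G.Adj q s := fun h => hss (hLt.low q s hs s' hs' h hq2)
    have hpq : p ≠ q := fun h => hps' (by rw [h]; exact hq2)
    have hps : p ≠ s := hp2.ne
    have hqs2 : q ≠ s' := hq2.ne
    have hps2 : p ≠ s' := by
      intro h
      rw [h] at hp2
      exact hns hp2.symm
    have hqs3 : q ≠ s := by
      intro h
      rw [h] at hq2
      exact hns hq2
    have memA : ∀ v, v ∈ insert p L₁ ∪ A' 0 → v = p ∨ (v ∈ B ∧ v ∉ A' 1 ∧ v ∉ A' 2 ∧ v ∉ A' 3 ∧
        v ∉ L₂) := by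
      rintro v ((hv | hv) | hv)
      · exact Or.inl hv
      · exact Or.inr ⟨hL₁B hv, hL₁A v hv 1 (by decide), hL₁A v hv 2 (by decide),
          hL₁A v hv 3 (by decide), Set.disjoint_left.1 hLL hv⟩
      · refine Or.inr ⟨hA'B 0 hv, Set.disjoint_left.1 (hA'.2 0 1 (by decide)).1 hv,
          Set.disjoint_left.1 (hA'.2 0 2 (by decide)).1 hv,
          Set.disjoint_left.1 (hA'.2 0 3 (by decide)).1 hv, fun h => ?_⟩
        exact hL₂A v h 0 (by decide) hv
    have memB : ∀ v, v ∈ insert q L₂ ∪ A' 1 → v = q ∨ (v ∈ B ∧ v ∉ A' 2 ∧ v ∉ A' 3) := by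
      rintro v ((hv | hv) | hv)
      · exact Or.inl hv
      · exact Or.inr ⟨hL₂B hv, hL₂A v hv 2 (by decide), hL₂A v hv 3 (by decide)⟩
      · exact Or.inr ⟨hA'B 1 hv, Set.disjoint_left.1 (hA'.2 1 2 (by decide)).1 hv,
          Set.disjoint_left.1 (hA'.2 1 3 (by decide)).1 hv⟩
    have hnot : ∀ i, ∀ t, (t = s ∨ t = s') → ¬ Tch G (A' i) {t} := by
      rintro i t ht ⟨a, ha, b, hb, hab⟩
      have hb' : b = t := hb
      rw [hb'] at hab
      rcases ht with rfl | rfl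
      · exact (hBN' a (hA'B i ha)).2.2.1 hab
      · exact (hBN' a (hA'B i ha)).2.2.2 hab
    have hdis : ∀ i, ∀ t, t ∉ B → Disjoint (A' i) {t} := by
      intro i t ht
      rw [Set.disjoint_singleton_right]
      exact fun h => ht (hA'B i h)
    refine hI (aM1 V G (insert p L₁ ∪ A' 0) (insert q L₂ ∪ A' 1) (A' 2) (A' 3) {s} {s'}
      (arm hL₁ (hA'.1 0) hu₁L hp1 hx.1 hx0) (arm hL₂ (hA'.1 1) hu₂L hq1 hy.1 hy1) (hA'.1 2)
      (hA'.1 3) (Conn.singleton G s) (Conn.singleton G s') ?_ ?_ ?_ ?_ ?_ ?_ ?_ ?_ ?_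
      (hA'.2 2 3 (by decide)).1 (hdis 2 s hsB) (hdis 2 s' hs'B) (hdis 3 s hsB) (hdis 3 s' hs'B)
      (Set.disjoint_singleton.2 hss)
      ((hA'.2 0 1 (by decide)).2.mono Set.subset_union_right Set.subset_union_right)
      ((hA'.2 0 2 (by decide)).2.mono Set.subset_union_right subset_rfl)
      ((hA'.2 0 3 (by decide)).2.mono Set.subset_union_right subset_rfl)
      ((hA'.2 1 2 (by decide)).2.mono Set.subset_union_right subset_rfl)
      ((hA'.2 1 3 (by decide)).2.mono Set.subset_union_right subset_rfl)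
      (hA'.2 2 3 (by decide)).2
      ⟨p, Or.inl (Or.inl rfl), s, rfl, hp2⟩ ⟨q, Or.inl (Or.inl rfl), s', rfl, hq2⟩ ?_ ?_
      (hnot 2 s (Or.inl rfl)) (hnot 2 s' (Or.inr rfl)) (hnot 3 s (Or.inl rfl))
      (hnot 3 s' (Or.inr rfl)) ?_)
    · -- A, B
      rw [Set.disjoint_left]
      intro v hv hv'
      rcases memA v hv with h1 | h1
      · rcases memB v hv' with h2 | h2
        · exact hpq (by rw [← h1, h2])
        · rw [h1] at h2
          exact hpB h2.1
      · rcases hv' with (h2 | h2) | h2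
        · rw [h2] at h1
          exact hqB h1.1
        · exact h1.2.2.2.2 h2
        · exact h1.2.1 h2
    · rw [Set.disjoint_left]
      intro v hv hv'
      rcases memA v hv with h1 | h1
      · rw [h1] at hv'
        exact hpB (hA'B 2 hv')
      · exact h1.2.2.1 hv'
    · rw [Set.disjoint_left]
      intro v hv hv'
      rcases memA v hv with h1 | h1
      · rw [h1] at hv'
        exact hpB (hA'B 3 hv')
      · exact h1.2.2.2.1 hv'
    · rw [Set.disjoint_singleton_right]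
      intro hv
      rcases memA s hv with h1 | h1
      · exact hps h1.symm
      · exact hsB h1.1
    · rw [Set.disjoint_singleton_right]
      intro hv
      rcases memA s' hv with h1 | h1
      · exact hps2 h1.symm
      · exact hs'B h1.1
    · rw [Set.disjoint_left]
      intro v hv hv'
      rcases memB v hv with h1 | h1
      · rw [h1] at hv'
        exact hqB (hA'B 2 hv')
      · exact h1.2.1 hv'
    · rw [Set.disjoint_left]
      intro v hv hv'
      rcases memB v hv with h1 | h1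
      · rw [h1] at hv'
        exact hqB (hA'B 3 hv')
      · exact h1.2.2 hv'
    · rw [Set.disjoint_singleton_right]
      intro hv
      rcases memB s hv with h1 | h1
      · exact hqs3 h1.symm
      · exact hsB h1.1
    · rw [Set.disjoint_singleton_right]
      intro hv
      rcases memB s' hv with h1 | h1
      · exact hqs2 h1.symm
      · exact hs'B h1.1
    · rintro ⟨a, ha, b, hb, hab⟩
      have hb' : b = s' := hb
      rw [hb'] at hab
      rcases memA a ha with h1 | h1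
      · rw [h1] at hab
        exact hps' hab
      · exact (hBN' a h1.1).2.2.2 hab
    · rintro ⟨a, ha, b, hb, hab⟩
      have hb' : b = s := hb
      rw [hb'] at hab
      rcases memB a ha with h1 | h1
      · rw [h1] at hab
        exact hqs hab
      · exact (hBN' a h1.1).2.2.1 hab
    · rintro ⟨a, ha, b, hb, hab⟩
      have ha' : a = s := ha
      have hb' : b = s' := hb
      rw [ha', hb'] at hab
      exact hns hab
  · push Not at hcase
    obtain ⟨c, hcB, hc⟩ := hcase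
    obtain ⟨i, K, hKc, hKB, hcK, hMK, hKL⟩ := hK c hcB
    obtain ⟨k₀, hk₀⟩ := hKc.1
    have hKBc : K ⊆ B \ {c} := fun v hv => ⟨hKB hv, fun h => hcK (by
      have h' : v = c := h
      rw [← h']
      exact hv)⟩
    obtain ⟨R, hRB, hk₀R, hR, hRn⟩ := exists_comp G (A := B \ {c}) (v := k₀) (hKBc hk₀)
    have hKR : K ⊆ R := by
      have h1 := hKc.eq_of_nb (C := K ∩ R) Set.inter_subset_left ⟨k₀, hk₀, hk₀R⟩ (by
        rintro v hv ⟨hv1, u, hu, huv⟩
        have h2 : v ∉ R := fun h => hv1 ⟨hv, h⟩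
        exact hRn v (hKBc hv) ⟨h2, u, hu.2, huv⟩)
      rw [← h1]
      exact Set.inter_subset_right
    have hRB' : R ⊆ B := fun v hv => (hRB hv).1
    have hcR : c ∉ R := fun h => (hRB h).2 rfl
    have hRAA : (R ∩ AA).Nonempty := by
      obtain ⟨v, hv⟩ := (hA.1 i).1
      refine ⟨v, hKR (hMK (hAM i hv)), ?_⟩
      rw [hAA]
      exact ⟨i, hv⟩
    have hRXY := hc R hR hRB' hcR hRAA
    have hRX : ∀ u ∈ R, u ∉ X ∧ u ∉ Y := by
      intro u hu
      constructor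
      · intro h
        have h1 : u ∈ R ∩ (X ∪ Y) := ⟨hu, Or.inl h⟩
        rw [hRXY] at h1
        exact h1
      · intro h
        have h1 : u ∈ R ∩ (X ∪ Y) := ⟨hu, Or.inr h⟩
        rw [hRXY] at h1
        exact h1
    apply hBe
    refine ⟨c, R, hR, Lg.mono hKL hKR, hcR, ?_, fun h => hsB (hRB' h), fun h => hs'B (hRB' h)⟩
    intro u hu v huv
    by_cases hvc : v = c
    · exact Or.inr hvc
    · left
      rcases hcl' u (hRB' hu) v huv with h | h | h | h | h
      · by_contra hvR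
        exact hRn v ⟨h, hvc⟩ ⟨hvR, u, hu, huv⟩
      · rw [h] at huv
        exact absurd huv (hBN' u (hRB' hu)).2.2.1
      · rw [h] at huv
        exact absurd huv (hBN' u (hRB' hu)).2.2.2
      · exfalso
        apply (hRX u hu).1
        rw [hX]
        exact ⟨hRB' hu, v, huv, h⟩
      · exfalso
        apply (hRX u hu).2
        rw [hY]
        exact ⟨hRB' hu, v, huv, h⟩

end Pool.Agent.MPd439b2.RG
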