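import Pool.Agent.Lib.MP_d439b2_co.RG.Spec

/-!
# MP_d439b2_co, RG: Lemma B (LB)
-/

set_option autoImplicit false

namespace Pool.Agent.MPd439b2.RG

open Pool.Agent.MPd439b2
open Pool.Agent.MPd439b2.Rep
open Pool.Agent.MPd439b2.A0

namespace gLBAux

theorem NN_symm {V : Type} (G : SimpleGraph V) (s s' : V) : NN G s s' = NN G s' s := by
  ext v
  constructor
  · rintro (h | h | h | h)
    · exact Or.inr (Or.inl h)
    · exact Or.inl h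
    · exact Or.inr (Or.inr (Or.inr h))
    · exact Or.inr (Or.inr (Or.inl h))
  · rintro (h | h | h | h)
    · exact Or.inr (Or.inl h)
    · exact Or.inl h
    · exact Or.inr (Or.inr (Or.inr h))
    · exact Or.inr (Or.inr (Or.inl h))

theorem Unb_symm {V : Type} {G : SimpleGraph V} {S : Set V} {b : ℕ} {s s' : V}
    (h : Unb G S b s s') : Unb G S b s' s := by
  intro X hX
  obtain ⟨C, h1, h2, h3⟩ := h X hX
  exact ⟨C, h1, by rwa [NN_symm], h3⟩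

theorem Unb_mono {V : Type} {G : SimpleGraph V} {S : Set V} {b b' : ℕ} {s s' : V} (hb : b ≤ b')
    (h : Unb G S b' s s') : Unb G S b s s' := fun X hX => h X (lt_of_lt_of_le hX hb)

/-- few unbalanced pairs -/
theorem few {V : Type} [Finite V] (G : SimpleGraph V) (S : Set V) (b : ℕ) (hb : 1 ≤ b)
    (hA : S_CoA) (hB : S_CoB)
    (h : ∀ s ∈ S, ∀ s' ∈ S, s ≠ s' → Unb G S b s s' → Al G S s s' ∨ Al G S s' s ∨ Be G S s s') :
    8 * {p : V × V | p.1 ∈ S ∧ p.2 ∈ S ∧ p.1 ≠ p.2 ∧ Unb G S b p.1 p.2}.ncard ≤ 3 * S.ncard ^ 2 := by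
  classical
  obtain ⟨A1, hA1⟩ : ∃ A1, A1 = {p : V × V | p.1 ∈ S ∧ p.2 ∈ S ∧ Unb G S b p.1 p.2 ∧
    Al G S p.1 p.2} := ⟨_, rfl⟩
  obtain ⟨A3, hA3⟩ : ∃ A3, A3 = {p : V × V | p.1 ∈ S ∧ p.2 ∈ S ∧ Be G S p.1 p.2 ∧
    ¬ Al G S p.1 p.2} := ⟨_, rfl⟩
  have h1 : 8 * A1.ncard ≤ S.ncard ^ 2 := by rw [hA1]; exact hA V G S b hb
  have h3 : 8 * A3.ncard ≤ S.ncard ^ 2 := by rw [hA3]; exact hB V G S
  have hsub : {p : V × V | p.1 ∈ S ∧ p.2 ∈ S ∧ p.1 ≠ p.2 ∧ Unb G S b p.1 p.2} ⊆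
      A1 ∪ (Prod.swap '' A1) ∪ A3 := by
    rintro ⟨u, v⟩ ⟨hu, hv, huv, hU⟩
    by_cases g1 : Al G S u v
    · left; left
      rw [hA1]
      exact ⟨hu, hv, hU, g1⟩
    · rcases h u hu v hv huv hU with g | g | g
      · exact absurd g g1
      · left; right
        refine ⟨(v, u), ?_, rfl⟩
        rw [hA1]
        exact ⟨hv, hu, Unb_symm hU, g⟩
      · right
        rw [hA3]
        exact ⟨hu, hv, g, g1⟩
  have e1 := Set.ncard_le_ncard hsub (Set.toFinite _)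
  have e2 := Set.ncard_union_le (A1 ∪ (Prod.swap '' A1)) A3
  have e3 := Set.ncard_union_le A1 (Prod.swap '' A1)
  have e4 := Set.ncard_image_le (f := Prod.swap) (Set.toFinite A1)
  omega

end gLBAux

open gLBAux in
theorem gLB : S_LB := by
  classical
  intro h6 hCoA hCoB hMat hGrp hCnt hMen hMeU hTou hSeg hRai hR3
  obtain ⟨b, h6⟩ := h6
  obtain ⟨b', hb'⟩ : ∃ b', b' = b + 1 := ⟨_, rfl⟩
  obtain ⟨ρ, hρ⟩ : ∃ ρ, ρ = 2 * 21 + b' + 2 := ⟨_, rfl⟩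
  obtain ⟨t, e₁, he₁, hcnt⟩ := hCnt (5 * 2 ^ ρ) (Nat.one_le_iff_ne_zero.2 (by positivity))
  refine ⟨ρ, 2 * e₁, 100 * (t + 1) + 16 * (b' + 2) + 2 * e₁ * ρ, by omega, ?_⟩
  intro V _ G S hIMS hLt hn hUsp
  have := Fintype.ofFinite V
  obtain ⟨q, hq⟩ : ∃ q, q = 2 * e₁ * ρ := ⟨_, rfl⟩
  rw [← hq] at hn
  have hfew := few G S b' (by omega) hCoA hCoB (fun s hs s' hs' hss hU =>
    h6 V G S s s' hIMS hLt hs hs' hss (Unb_mono (by omega) hU))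
  obtain ⟨a, c, hac, hacd⟩ := hMat V S (Unb G S b') t (by omega) hfew
  have hgrp : ∀ l : ℕ, ∃ X P R : Set V, l < t → X.ncard < b' ∧
      Sepa G P (NN G (a l) (c l) ∪ X) R ∧ S.ncard ≤ 16 * (S ∩ P).ncard ∧
      S.ncard ≤ 16 * (S ∩ R).ncard := by
    intro l
    by_cases hl : l < t
    · obtain ⟨g1, g2, _, g4⟩ := hac l hl
      obtain ⟨X, P, R, h⟩ := hGrp V G S b' (a l) (c l) hLt g1 g2 (by omega) g4
      exact ⟨X, P, R, fun _ => h⟩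
    · exact ⟨∅, ∅, ∅, fun h => absurd h hl⟩
  choose X P R hXPR using hgrp
  obtain ⟨Λ, hΛt, hΛc, hΛP, hΛR⟩ := hcnt V S P R (fun l hl => (hXPR l hl).2.2)
  have hΛlt : ∀ l ∈ Λ, l < t := fun l hl => Finset.mem_range.1 (hΛt hl)
  obtain ⟨A, hA⟩ : ∃ A : Finset V, A = (S ∩ {v | ∀ l ∈ Λ, v ∈ P l}).toFinset := ⟨_, rfl⟩
  obtain ⟨B, hB⟩ : ∃ B : Finset V, B = (S ∩ {v | ∀ l ∈ Λ, v ∈ R l}).toFinset := ⟨_, rfl⟩
  have hAm : ∀ v ∈ A, v ∈ S ∧ ∀ l ∈ Λ, v ∈ P l := by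
    intro v hv
    rw [hA, Set.mem_toFinset] at hv
    exact ⟨hv.1, hv.2⟩
  have hBm : ∀ v ∈ B, v ∈ S ∧ ∀ l ∈ Λ, v ∈ R l := by
    intro v hv
    rw [hB, Set.mem_toFinset] at hv
    exact ⟨hv.1, hv.2⟩
  have hAc : A.card = (S ∩ {v | ∀ l ∈ Λ, v ∈ P l}).ncard := by
    rw [hA, ← Set.ncard_coe_finset, Set.coe_toFinset]
  have hBc : B.card = (S ∩ {v | ∀ l ∈ Λ, v ∈ R l}).ncard := by
    rw [hB, ← Set.ncard_coe_finset, Set.coe_toFinset]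
  rw [← hAc] at hΛP
  rw [← hBc] at hΛR
  obtain ⟨n, p, hp⟩ := hMeU hMen V G S A B ρ (2 * e₁) hUsp (fun v hv => (hAm v hv).1)
    (fun v hv => (hBm v hv).1)
    (by
      have : 2 * e₁ * A.card = 2 * (e₁ * A.card) := by ring
      rw [this, ← hq]
      omega)
    (by
      have : 2 * e₁ * B.card = 2 * (e₁ * B.card) := by ring
      rw [this, ← hq]
      omega)
  obtain ⟨k, I, hk, hkS, hI, hIk⟩ := hTou V G S b' 21 ρ Λ a c X P R A B n p hρ (by rw [hΛc])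
    (fun l hl => ⟨(hac l (hΛlt l hl)).1, (hac l (hΛlt l hl)).2.1, (hXPR l (hΛlt l hl)).1,
      (hXPR l (hΛlt l hl)).2.1⟩)
    (fun l hl l' hl' hll => hacd l (hΛlt l hl) l' (hΛlt l' hl') hll)
    (fun v hv => (hAm v hv).2) (fun v hv => (hBm v hv).2) hp
  exact hIMS (hR3 hSeg hRai V G S ρ A B n p k I hLt hp hk hkS hI hIk)

end Pool.Agent.MPd439b2.RG
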