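import Pool.Agent.Lib.MP_d439b2_co.A0.M1
import Pool.Agent.Lib.MP_d439b2_co.A0.Gr
import Pool.Agent.Lib.MP_d439b2_co.J.GKFinal
import Pool.Agent.Lib.MP_d439b2_co.GT.Men
import Pool.Agent.Lib.MP_d439b2_co.Rep.Cut

/-!
# MP_d439b2_co, RG: the regular case for `K4:0,1` (note 2770 of helper94, sections (4)-(6))

**REG.** Let `G` be `K4:0,1`-free, `Link β c₀ G`, `S` a large stable set such that every vertex outside a bounded
set `W₀` is complete to `S` or sees at most one element of `S`.  This is impossible.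

Every `S_...` is a statement to be proved in its own file `RG/....lean`; the docstring contains the complete
proof; the used statements are hypotheses of the theorem, in the order given in `(Uses ...)`.  The theorem for
`S_X` is called `gX`.  `a ~ b` means `G.Adj a b`.  Toolkit: `Basic.lean` (`Conn`, `Tch`, `nb`, `exists_comp`,
`Conn.union`, `Conn.insert`, `Conn.union_iUnion`, `Conn.eq_of_nb`), `A0/M1.lean` (`A0.aM1`: builder for models of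
`K4:0,1`), `GT/Men.lean` (`GT.pMen`: Menger's theorem), `Rep/Cut.lean` (cut-rank).
-/

set_option autoImplicit false

namespace Pool.Agent.MPd439b2.RG

open Pool.Agent.MPd439b2
open Pool.Agent.MPd439b2.Rep
open Pool.Agent.MPd439b2.A0

/-! ### definitions -/

/-- `S` is stable and every vertex sees at most one element of `S` (the letters) -/
structure Lt {V : Type} (G : SimpleGraph V) (S : Set V) : Prop where
  st : StO G S
  low : ∀ v, ∀ s ∈ S, ∀ s' ∈ S, G.Adj v s → G.Adj v s' → s = s'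

/-- `(P, Z, R)` is a separation -/
structure Sepa {V : Type} (G : SimpleGraph V) (P Z R : Set V) : Prop where
  cov : P ∪ Z ∪ R = Set.univ
  pz : Disjoint P Z
  pr : Disjoint P R
  zr : Disjoint Z R
  far : ∀ p ∈ P, ∀ r ∈ R, ¬ G.Adj p r

/-- no separation of order less than `ρ` has at least `|S| / e` elements of `S` on both sides -/
def Usp {V : Type} (G : SimpleGraph V) (S : Set V) (ρ e : ℕ) : Prop :=
  ∀ P Z R : Set V, Sepa G P Z R → Z.ncard < ρ →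
    e * (S ∩ P).ncard < S.ncard ∨ e * (S ∩ R).ncard < S.ncard

/-- the closed neighbourhoods of `s` and `s'` -/
def NN {V : Type} (G : SimpleGraph V) (s s' : V) : Set V :=
  {v | v = s ∨ v = s' ∨ G.Adj v s ∨ G.Adj v s'}

/-- `C` contains more than seven eighths of `S` -/
def Lg {V : Type} (S C : Set V) : Prop := 7 * S.ncard < 8 * (S ∩ C).ncard

/-- the pair `{s, s'}` is unbalanced -/
def Unb {V : Type} (G : SimpleGraph V) (S : Set V) (b : ℕ) (s s' : V) : Prop :=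
  ∀ X : Set V, X.ncard < b → ∃ C, Conn G C ∧ Disjoint C (NN G s s' ∪ X) ∧ Lg S C

/-- `s` is not in the large component of `G - N[s']` -/
def Al {V : Type} (G : SimpleGraph V) (S : Set V) (s s' : V) : Prop :=
  ∀ C, Conn G C → s ∈ C → (∀ v ∈ C, v ≠ s' ∧ ¬ G.Adj v s') → ¬ Lg S C

/-- a vertex `c` separates `s` and `s'` from the large component `R` of `G - c` -/
def Be {V : Type} (G : SimpleGraph V) (S : Set V) (s s' : V) : Prop :=
  ∃ (c : V) (R : Set V), Conn G R ∧ Lg S R ∧ c ∉ R ∧ (∀ u ∈ R, ∀ v, G.Adj u v → v ∈ R ∨ v = c) ∧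
    s ∉ R ∧ s' ∉ R

/-! ### part 1: the star lemma -/

/-- **X1.** The first model.

Proof. `A0.aM1` with `A = {u₀, s₂}`, `B = {u₁, s₃}`, `C = {u₂}`, `D = {s₁}`, `P = {c}`, `Q = {c'}`.  All the vertices are
different: `u₀ ≠ u₁` (`c`), `u₀ ≠ u₂` (`c`), `u₁ ≠ u₂` (`c'`); `s_i ≠ u_j` (`u_j` sees the `s`'s, which are pairwise
non-adjacent and different, so if `s_i = u_j` then `s_i ~ s_k` for some `k ≠ i`); `c ≠ s_i` (`c ≁ u₁`, `s_i ~ u₁`), `c' ≠ s_i`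
(`u₀`); `c ≠ c'` (`u₀`); `c ≠ u_j` (`u_j ~ s₁`, `c ≁ s₁`), same for `c'`. -/
def S_X1 : Prop := ∀ (V : Type) (G : SimpleGraph V) (u₀ u₁ u₂ s₁ s₂ s₃ c c' : V),
  s₁ ≠ s₂ → s₁ ≠ s₃ → s₂ ≠ s₃ → ¬ G.Adj s₁ s₂ → ¬ G.Adj s₁ s₃ → ¬ G.Adj s₂ s₃ →
  (∀ s, (s = s₁ ∨ s = s₂ ∨ s = s₃) → G.Adj u₀ s ∧ G.Adj u₁ s ∧ G.Adj u₂ s ∧ ¬ G.Adj c s ∧ ¬ G.Adj c' s) →
  ¬ G.Adj c c' → G.Adj c u₀ → ¬ G.Adj c u₁ → ¬ G.Adj c u₂ → ¬ G.Adj c' u₀ → G.Adj c' u₁ →
  ¬ G.Adj c' u₂ → IMS K401 G Set.univ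

/-- **X2.** The second model.

Proof. `A0.aM1` with `A = {u₀, s₁}`, `B = {u₁}`, `C = {s₂}`, `D = T`, `P = {c}`, `Q = {c'}`. -/
def S_X2 : Prop := ∀ (V : Type) (G : SimpleGraph V) (u₀ u₁ s₁ s₂ c c' c'' : V) (T : Set V),
  s₁ ≠ s₂ → ¬ G.Adj s₁ s₂ → G.Adj u₀ s₁ → G.Adj u₁ s₁ → G.Adj u₀ s₂ → G.Adj u₁ s₂ →
  ¬ G.Adj c s₁ → ¬ G.Adj c s₂ → ¬ G.Adj c' s₁ → ¬ G.Adj c' s₂ → ¬ G.Adj c c' →
  G.Adj c u₀ → ¬ G.Adj c u₁ → ¬ G.Adj c' u₀ → G.Adj c' u₁ →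
  Conn G T → c'' ∈ T → G.Adj c'' u₀ → G.Adj c'' u₁ → (∃ t ∈ T, G.Adj t s₂) →
  u₀ ∉ T → u₁ ∉ T → s₁ ∉ T → s₂ ∉ T → c ∉ T → c' ∉ T →
  (∀ t ∈ T, ¬ G.Adj t c ∧ ¬ G.Adj t c' ∧ ¬ G.Adj t s₁) → IMS K401 G Set.univ

/-- **X3.** The third model.

Proof. `A0.aM1` with `A = {u₀}`, `B = {u₁} ∪ E`, `C = {s₂}`, `D = T`, `P = {c}`, `Q = {c'}`.  (`s₁ ∈ E` is adjacent to
`u₀`, `u₁`; some `x ∈ E` is adjacent to `c'`.) -/
def S_X3 : Prop := ∀ (V : Type) (G : SimpleGraph V) (u₀ u₁ s₁ s₂ c c' c'' : V) (T E : Set V),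
  G.Adj u₀ s₁ → G.Adj u₁ s₁ → G.Adj u₀ s₂ → G.Adj u₁ s₂ →
  ¬ G.Adj c s₂ → ¬ G.Adj c' s₂ → ¬ G.Adj c c' →
  G.Adj c u₀ → ¬ G.Adj c u₁ → ¬ G.Adj c' u₀ → ¬ G.Adj c' u₁ →
  Conn G T → c'' ∈ T → G.Adj c'' u₀ → G.Adj c'' u₁ → (∃ t ∈ T, G.Adj t s₂) →
  Conn G E → s₁ ∈ E → (∃ x ∈ E, G.Adj x c') → c' ∉ E → c ∉ E → u₀ ∉ E → u₁ ∉ E → s₂ ∉ E → Disjoint E T →
  u₀ ∉ T → u₁ ∉ T → s₂ ∉ T → c ∉ T → c' ∉ T →
  (∀ t ∈ T, ¬ G.Adj t c ∧ ¬ G.Adj t c') → (∀ x ∈ E, ¬ G.Adj x c) →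
  IMS K401 G Set.univ

/-- **Fam.** The three families.

Proof. (a) Suppose `m ∈ M i`, `m' ∈ M j` (`i ≠ j`) are disjoint; let `k` be the third index.  CLAIM: every `m'' ∈ M k` is
`m`, `m'` or `m ∪ m'`; so `M k` has at most three members, contradiction.  By `h2` `m ⊆ m''` or `m' ⊆ m''`; let `m ⊆ m''` (the other
case is symmetric: exchange `i`, `j`).  If `m'' ≠ m` then `h3` for `(i, k, j)` with `m ⊂ m''`, third `m'`: `m ⊆ m'` (impossible: `m` is not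
empty and disjoint from `m'`) or `m'' \ m ⊆ m'`.  `h1` for `m''`, `m'`: not disjoint (`m'' \ m` is not empty and in both); `m'' ⊆ m'` is
impossible (`m ⊆ m''`); so `m' ⊆ m''`, `m' ⊆ m'' \ m`, so `m'' = m ∪ m'`.
(b) So by `h1` any `m ∈ M i`, `m' ∈ M j` with `i ≠ j` are comparable.  (c) If moreover `m ⊂ m'` then every `m'' ∈ M k` (`k` the third
index) contains `m`: by `h3` `m ⊆ m''` or `m' \ m ⊆ m''`; `m`, `m''` are comparable by (b), and `m'' ⊆ m` with `m' \ m ⊆ m''` is impossible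
(`m' \ m` is not empty).  (d) Let `a` be a member of the union of the three families with the minimum number of elements, `a ∈ M i`;
`j`, `k` the other two indices.  Let `m' ∈ M j`, `m'' ∈ M k`, `m' ≠ m''`; they are comparable, and by (c) `a` contains the smaller
one, so `a` is equal to the smaller one (minimality).  Choose two different `m'₁, m'₂ ∈ M j`, both `≠ a` (four members) and
`m'' ∈ M k`, `m'' ≠ a`.  One of `m'₁, m'₂` is `≠ m''`, and the pair contradicts `a ∈ {m', m''}`. -/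
def S_Fam : Prop := ∀ (α : Type) [Finite α] (M : Fin 3 → Set (Set α)), (∀ i, 4 ≤ (M i).ncard) →
  (∀ i, ∀ m ∈ M i, m.Nonempty) →
  (∀ i j, i ≠ j → ∀ m ∈ M i, ∀ m' ∈ M j, m ⊆ m' ∨ m' ⊆ m ∨ Disjoint m m') →
  (∀ i j k, i ≠ j → i ≠ k → j ≠ k → ∀ m ∈ M i, ∀ m' ∈ M j, ∀ m'' ∈ M k, Disjoint m m' →
    m ⊆ m'' ∨ m' ⊆ m'') →
  (∀ i j k, i ≠ j → i ≠ k → j ≠ k → ∀ m ∈ M i, ∀ m' ∈ M j, ∀ m'' ∈ M k, m ⊆ m' → m ≠ m' →
    m ⊆ m'' ∨ m' \ m ⊆ m'') → False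

/-- **Arm.** Two connected sets.

Proof. (1) Let `T` be the set of the elements of `C` reachable from `c` inside `C \ S` (`exists_comp` for `C \ S` and `c`:
`T ⊆ C \ S` connected, `c ∈ T`, no `u ∈ C \ S` outside `T` is adjacent to `T`).  `T ≠ C` (`C` meets `S`), so there are `t ∈ T`,
`v ∈ C \ T` with `t ~ v` (`Conn`), and `v ∈ S`.  (2) `E` = the component of `C \ {c}` containing `s`; `E ≠ C`, so there are `x ∈ E`,
`v ∈ C \ E` with `x ~ v`, and `v = c`. -/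
def S_Arm : Prop := ∀ (V : Type) (G : SimpleGraph V) (C S : Set V) (c : V), Conn G C → c ∈ C →
  c ∉ S → (∀ s ∈ C ∩ S, ∃ E, Conn G E ∧ E ⊆ C ∧ s ∈ E ∧ c ∉ E ∧ ∃ x ∈ E, G.Adj x c) ∧
    ((C ∩ S).Nonempty → ∃ T s, Conn G T ∧ T ⊆ C ∧ c ∈ T ∧ Disjoint T S ∧ s ∈ C ∩ S ∧ ∃ t ∈ T, G.Adj t s)

/-- **Star.** (Uses `S_X1`, `S_X2`, `S_X3`, `S_Fam`, `S_Arm`.)

Proof. For `c ∈ D i` let `m(c) = {f ∈ F | c ≁ f}`.  Suppose that for all `i` there are more than `5` sets `m(c)`, `c ∈ D i`.  Let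
`M i = {m(c) | c ∈ D i, m(c) ≠ ∅}` for `i = 0, 1, 2` (at least five members, subsets of `V`).  If `m(c) ≠ ∅` then `c ∉ S` (`hF`).
`Fam` gives a contradiction, if we check its hypotheses.  For three different indices `i, j, k` of `Fin 5` and `c ∈ D i`, `c' ∈ D j`,
`c'' ∈ D k` the sets are anticomplete and disjoint.  (h1) `m(c)`, `m(c')` not comparable and not disjoint: `u₁ ∈ m(c) \ m(c')`,
`u₀ ∈ m(c') \ m(c)`, `u₂` in both; `s₁, s₂, s₃ ∈ S` in the three other `D`'s: X1.  (h2) `m(c)`, `m(c')` disjoint, `m(c'')` contains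
neither: `u₁ ∈ m(c) \ m(c'')`, `u₀ ∈ m(c') \ m(c'')`; `s₁ ∈ S` in a fourth `D`; `C''` a connected subset of `D k` with `c''` which meets
`S`; `T`, `s₂` from Arm (1): X2.  (h3) `m(c) ⊂ m(c')`, `m(c'')` contains neither `m(c)` nor `m(c') \ m(c)`: `u₀ ∈ m(c') \ m(c)` with
`c'' ~ u₀`; `u₁ ∈ m(c)` with `c'' ~ u₁`; `T`, `s₂` as before; `C'` a connected subset of `D j` with `c'` and an element `s₁` of `S`, `E` from
Arm (2) for `c'`: X3.  Elements of `F` are not in any `D`; an element of `S` in `D l` is not in the other `D`'s. -/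
def S_Star : Prop := ∀ (V : Type) [Finite V] (G : SimpleGraph V) (S F : Set V) (D : Fin 5 → Set V),
  ¬ IMS K401 G Set.univ → StO G S → (∀ f ∈ F, ∀ s ∈ S, G.Adj f s) → (∀ i, Disjoint (D i) F) →
  (∀ i j, i ≠ j → Disjoint (D i) (D j) ∧ ∀ u ∈ D i, ∀ v ∈ D j, ¬ G.Adj u v) →
  (∀ i, ∀ v ∈ D i, ∃ C, Conn G C ∧ C ⊆ D i ∧ v ∈ C ∧ (C ∩ S).Nonempty) → (∀ i, (D i ∩ S).Nonempty) →
  ∃ i, ((fun c => {f | f ∈ F ∧ ¬ G.Adj c f}) '' D i).ncard ≤ 5

/-- **Rkm.** Few traces, small cut-rank.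

Proof. `LK.cr G D = LK.rk G D Dᶜ`, `Dᶜ = (F ∩ Dᶜ) ∪ (Q ∩ Dᶜ) ∪ rest` with no edges from `D` to the rest: `Rep.rk_union_right`,
`rk_anti`, `rk_card_right` (`rk G D (Q ∩ Dᶜ) ≤ |Q|`), and `rk G D F ≤ 5` by `rk_tr` (the trace `N(c) ∩ F` is determined by
`{f ∈ F | c ≁ f}`; see `Tr` in `Rep/Cut.lean` or the file defining it) or by `rk_row`. -/
def S_Rkm : Prop := ∀ (V : Type) [Finite V] (G : SimpleGraph V) (D F Q : Set V), Disjoint D F →
  (∀ u ∈ D, ∀ v, G.Adj u v → v ∈ D ∨ v ∈ F ∨ v ∈ Q) →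
  ((fun c => {f | f ∈ F ∧ ¬ G.Adj c f}) '' D).ncard ≤ 5 → LK.cr G D ≤ 5 + Q.ncard

/-- **Spl.** Splitting.

Proof. Suppose the first alternative is false.  CLAIM, for `k = 0, .., 4`: there are `Q` with `|Q| ≤ k ρ` and `D : Fin (k + 1) → Set V`
(or `D : ℕ → Set V`, indices `≤ k`), pairwise disjoint, disjoint from `Q`, CLOSED (a neighbour of an element of `D i` is in `D i ∪ Q`),
with `|S| ≤ e ^ k * (|S ∩ D i| + k ρ)` for all `i` and `|S| ≤ e ^ k * |S ∩ D k|` for the last one.  `k = 0`: `Q = ∅`, `D 0 = univ`.  Step: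
`S₀ = S ∩ D k`, `|S| ≤ e ^ 4 * |S₀|`, so `Usp G S₀ ρ e` is false: there is a separation `(P, Z, R)`, `|Z| < ρ`,
`|S₀| ≤ e |S₀ ∩ P|`, `|S₀| ≤ e |S₀ ∩ R|`.  New `Q' = Q ∪ Z`, `D' i = D i \ Z` for `i < k`, `D' k = D k ∩ P`, `D' (k + 1) = D k ∩ R`.  They
are closed: a neighbour of `u ∈ D k ∩ P` is in `D k ∪ Q` and in `P ∪ Z`.  `|S ∩ D' i| ≥ |S ∩ D i| - ρ` for `i < k`. -/
def S_Spl : Prop := ∀ (V : Type) [Finite V] (G : SimpleGraph V) (S : Set V) (ρ e : ℕ), 1 ≤ e →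
  (∃ S₀ ⊆ S, S.ncard ≤ e ^ 4 * S₀.ncard ∧ Usp G S₀ ρ e) ∨
  ∃ (Q : Set V) (D : Fin 5 → Set V), Q.ncard ≤ 4 * ρ ∧ (∀ i, Disjoint (D i) Q) ∧
    (∀ i j, i ≠ j → Disjoint (D i) (D j)) ∧ (∀ i, ∀ u ∈ D i, ∀ v, G.Adj u v → v ∈ D i ∨ v ∈ Q) ∧
    ∀ i, S.ncard ≤ e ^ 4 * ((S ∩ D i).ncard + 4 * ρ)

/-! ### part 2: a large component of `G - N[s] - N[s']` -/

/-- **GKH.** Theorem GK for havens.  (Uses `GT.SGK`; `gridTheorem : GT.SGK` is proved in `J/GKFinal.lean`.)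

Proof. Copy the proof of `gk_of_GT` in `J/Main.lean`; there the haven `hHav` is obtained from `WL`; here it is the
hypothesis (`w` the number of `SGK` for `max t 2` and `R`). -/
def S_GKH : Prop := ∀ t r k : ℕ, k ≤ t → ∃ w : ℕ, ∀ (V : Type) [Finite V] (G : SimpleGraph V)
  (S : Set V), (∀ X : Set V, X.ncard < w → ∃ C, Conn G C ∧ Disjoint C X ∧
    S.ncard < 2 * (S ∩ C).ncard) →
  IMS (grid r) G Set.univ ∨ ∃ B : Fin t → Set V, CliqueModel G B ∧ Deep G S k B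

/-- **Min.** Minimal models of `K_4` inside a given one.

Proof. Among the `A : Fin 4 → Set V` with `CliqueModel G A`, `A i ⊆ M i` choose one with the smallest total number of elements
`∑ i, (A i).ncard` (`M` itself is one).  If `D ⊂ A i` is connected and touches all `A j`, `j ≠ i`, then `Function.update A i D` is
smaller. -/
def S_Min : Prop := ∀ (V : Type) [Finite V] (G : SimpleGraph V) (M : Fin 4 → Set V),
  CliqueModel G M → ∃ A : Fin 4 → Set V, CliqueModel G A ∧ (∀ i, A i ⊆ M i) ∧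
    ∀ i, ∀ D ⊆ A i, D ≠ A i → Conn G D → ∃ j, j ≠ i ∧ ¬ Tch G D (A j)

/-- **Ex.** The exchange lemma: two different vertices of a minimal model of `K_4` can be put into two different
branch sets.

Proof. If `x ∈ A i`, `y ∈ A j` with `i ≠ j`: permute the indices.  Let `x, y ∈ A i`.  `D` = the component of `A i \ {x}` containing `y`
(`exists_comp`).  `D' = A i \ D` is connected: it contains `x`; if `B ⊆ D'` is nonempty and `≠ D'`, wlog `x ∉ B` or `x ∈ B`: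
use `Conn` of `A i` and that the edges leaving `D` inside `A i` end in `x` (`Conn G (A i)` for `B` if `x ∉ B`; for `B ∪ D` if
`x ∈ B`; the edge found does not end or start in `D` unless its other end is `x`).  `D`, `D'` are connected, nonempty, `≠ A i`, so by `hmin`
there are `l ≠ i`, `D` does not touch `A l`, and `j ≠ i`, `D'` does not touch `A j`.  `A i` touches both, so `D` touches `A j` and `D'` touches
`A l` (and `j ≠ l`).  Let `k` be the fourth index.  `A i` touches `A k`, so `D` or `D'` does.  `D` and `D'` touch (`A i` is connected).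
CASE `D'` touches `A k`: `A' j = A j ∪ D ∋ y`, `A' i = D' ∋ x` (touches `A' j` through `D`, `A k`, `A l`), the others unchanged.
CASE `D` touches `A k`: `A' l = A l ∪ D' ∋ x`, `A' i = D ∋ y` (touches `A' l` through `D'`, `A j`, `A k`).  Then permute the indices
such that `x ∈ A' 0`, `y ∈ A' 1`. -/
def S_Ex : Prop := ∀ (V : Type) [Finite V] (G : SimpleGraph V) (A : Fin 4 → Set V),
  CliqueModel G A → (∀ i, ∀ D ⊆ A i, D ≠ A i → Conn G D → ∃ j, j ≠ i ∧ ¬ Tch G D (A j)) →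
  ∀ x y, x ≠ y → (∃ i, x ∈ A i) → (∃ i, y ∈ A i) → ∃ A' : Fin 4 → Set V, CliqueModel G A' ∧
    x ∈ A' 0 ∧ y ∈ A' 1 ∧ ∀ v, (∃ i, v ∈ A' i) ↔ ∃ i, v ∈ A i

/-- **Two.** Two disjoint links.  (Uses `GT.SMen`.)

Proof. Let `G'` be the graph on `Option (Option V)` (or `V ⊕ Bool`) with the edges of `G` inside `B`, a vertex `a_P` adjacent
to the elements of `X ∩ B` and a vertex `a_Q` adjacent to the elements of `Y ∩ B`.  Menger (`GT.SMen`) for `{a_P, a_Q}` and `M`, `k = 2`: let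
`Cut G' {a_P, a_Q} M L Z` with `|Z| ≤ 1`.  If `Z = ∅`, `{a_P}`, `{a_Q}`: one of `a_P`, `a_Q`, say `a_Q`, is in `L`; so `Y ∩ B ⊆ L`, it is not
empty, `B` is connected, so `B ⊆ L` (no element of `B` is in `Z`), but `M` is disjoint from `L` and nonempty.  The same for `a_P`.  If `Z = {c}`,
`c ∈ B` (`c` outside `B` and `≠ a_P, a_Q` is as `Z = ∅`): `a_P, a_Q ∈ L`; by `hc` there is a connected `C ⊆ B`, `c ∉ C`, which meets `M` and
contains an element of `X ∪ Y`; so `C ∩ L ≠ ∅`, `C ⊆ L`, a contradiction.  So there are two disjoint paths in `G'` from `{a_P, a_Q}` to `M`;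
one starts in `a_P` and the other in `a_Q`, so they do not contain the other one.  Cut every path at its first vertex in `M`:
`L₁` = the vertices from the second one to the first one in `M` (the second vertex is in `X`; the first vertex is not in
`M ⊆ B`). -/
def S_Two : Prop := GT.SMen → ∀ (V : Type) [Finite V] (G : SimpleGraph V) (B X Y M : Set V), Conn G B →
  X ⊆ B → Y ⊆ B → M ⊆ B → X.Nonempty → Y.Nonempty → M.Nonempty →
  (∀ c ∈ B, ∃ C, Conn G C ∧ C ⊆ B ∧ c ∉ C ∧ (C ∩ M).Nonempty ∧ (C ∩ (X ∪ Y)).Nonempty) →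
  ∃ (L₁ L₂ : Set V) (x y : V), Conn G L₁ ∧ Conn G L₂ ∧ L₁ ⊆ B ∧ L₂ ⊆ B ∧ Disjoint L₁ L₂ ∧
    (L₁ ∩ X).Nonempty ∧ (L₂ ∩ Y).Nonempty ∧ L₁ ∩ M = {x} ∧ L₂ ∩ M = {y}

/-- **Bc.** The large component `B` and a deep model of `K_4` in it.  (Uses `S_GKH`, `S_Gr`.)

Proof. `n` from `S_Gr` (`InGrid K401`: `K401` is an induced minor of `grid n`); `w` from GKH for `t = 4`, `r = n`, `k = 2`;
`b = max w 2`.  From `Unb` with `X = ∅`: a connected `C`, disjoint from `NN`, `Lg`.  `B` = such a set with the maximum number of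
elements (or `exists_comp`): if `u ∈ B`, `u ~ v`, `v ∉ NN` then `v ∈ B`.  Every connected `C` disjoint from `NN` with `Lg S C` is contained
in `B` (both contain more than half of `S`, so they meet; `Conn.eq_of_nb` or `Conn.union` and maximality).  Apply GKH to `G.induce B` and
`S_B = {x : B | x.val ∈ S}`: for `X` with `|X| < w` take `C` from `Unb` for the image of `X`; `C ⊆ B`; its preimage is connected and
contains more than half of `S_B` (`|S ∩ B| ≤ |S|`).  If `IMS (grid n) (G.induce B) univ` then `IMS K401 G univ` (transitivity of induced minors: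
`imsTrans`/`ims_univ_iff`, `FDAux.indMinor_trans`, `FDAux.indMinor_of_indSub`): excluded.  So there is `b' : Fin 4 → Set B`, `CliqueModel`,
`Deep .. 2`; `M i` = its image.  For `c ∈ B`: `Deep` for `X = {c}`: `i`, a connected `C₀ ⊇ M i`, `c ∉ C₀ ⊆ B`, with more than
half of `S ∩ B`.  `Unb` for `{c}`: a connected `C`, `c ∉ C`, `C ⊆ B`, `Lg S C`.  They meet, `K = C ∪ C₀`. -/
def S_Bc : Prop := S_GKH → S_Gr → ∃ b : ℕ, ∀ (V : Type) [Finite V] (G : SimpleGraph V) (S : Set V)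
  (s s' : V), ¬ IMS K401 G Set.univ → Unb G S b s s' →
  ∃ (B : Set V) (M : Fin 4 → Set V), Conn G B ∧ Disjoint B (NN G s s') ∧ Lg S B ∧
    (∀ u ∈ B, ∀ v, G.Adj u v → v ∈ B ∨ v ∈ NN G s s') ∧ CliqueModel G M ∧ (∀ i, M i ⊆ B) ∧
    ∀ c ∈ B, ∃ i K, Conn G K ∧ K ⊆ B ∧ c ∉ K ∧ M i ⊆ K ∧ Lg S K

/-- **A6.** An unbalanced pair.  (Uses `S_Min`, `S_Ex`, `S_Two`, `GT.SMen`, and the conclusion of `S_Bc` as a hypothesis.)

Proof. Suppose `Al G S s s'` and `Al G S s' s` are false: there are connected large `C₁ ∋ s` avoiding `N[s']` and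
`C₂ ∋ s'` avoiding `N[s]`.  `C₁` meets `B` (both large) and `s ∈ C₁ \ B`, so (`Conn G C₁`, the set `C₁ ∩ B`) there are `u ∈ B`, `p₁ ∈ C₁ \ B`
adjacent; `p₁ ∈ NN`, `p₁` not in `N[s']`, `p₁ ≠ s` (otherwise `u ∈ NN`), so `p₁ ~ s`.  Let `X` = the elements of `B` with a neighbour in
`N(s)`; it is not empty.  The same for `s'`: `Y ≠ ∅`.  `A` = a minimal model inside `M` (Min), `𝓐 = ⋃ A i ⊆ B`.
CASE 1: for every `c ∈ B` there is a connected `C ⊆ B`, `c ∉ C`, meeting `𝓐` and `X ∪ Y`.  Two: `L₁, L₂, x, y`; `x ≠ y` (`L₁`, `L₂` disjoint).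
Ex: `A'` with `x ∈ A' 0`, `y ∈ A' 1`, `⋃ A' = 𝓐`.  `p ~ s` adjacent to an element of `L₁ ∩ X`, `q ~ s'` adjacent to an element of
`L₂ ∩ Y`.  `A0.aM1` with `{p} ∪ L₁ ∪ A' 0`, `{q} ∪ L₂ ∪ A' 1`, `A' 2`, `A' 3`, pendants `{s}`, `{s'}`: `p, q ∉ B`, `p ≠ q` (`Lt.low`),
elements of `B` are not adjacent to `s`, `s'` and different from them; `q ≁ s`, `p ≁ s'` (`Lt.low`); `L₁ ∩ 𝓐 = {x}` etc. gives the
disjointness.  Contradiction to `¬ IMS`.
CASE 2: some `c ∈ B` such that no connected `C ⊆ B`, `c ∉ C`, meets both `𝓐` and `X ∪ Y`.  Let `i`, `K` be as in the last property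
of `M` for `c`, and `R` = the component of `B \ {c}` containing `K` (connected, `K ⊆ R ⊆ B`, `c ∉ R`).  `R` contains `A i ⊆ M i`, so it
meets `𝓐`, so it does not meet `X ∪ Y`.  A neighbour `v` of `u ∈ R` is in `B` or in `NN`; `v ∈ NN` is impossible (`v = s`, `v = s'`:
then `u ∈ NN`; `v ~ s`: `u ∈ X`; `v ~ s'`: `u ∈ Y`); so `v ∈ B`, and `v = c` or `v ∈ R`.  `s, s' ∉ B ⊇ R`.  So `Be`. -/
def S_A6 : Prop := S_Min → S_Ex → S_Two → GT.SMen → ∀ (V : Type) [Finite V] (G : SimpleGraph V)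
  (S : Set V) (s s' : V), ¬ IMS K401 G Set.univ → Lt G S → s ∈ S → s' ∈ S → s ≠ s' →
  (∃ (B : Set V) (M : Fin 4 → Set V), Conn G B ∧ Disjoint B (NN G s s') ∧ Lg S B ∧
    (∀ u ∈ B, ∀ v, G.Adj u v → v ∈ B ∨ v ∈ NN G s s') ∧ CliqueModel G M ∧ (∀ i, M i ⊆ B) ∧
    ∀ c ∈ B, ∃ i K, Conn G K ∧ K ⊆ B ∧ c ∉ K ∧ M i ⊆ K ∧ Lg S K) →
  Al G S s s' ∨ Al G S s' s ∨ Be G S s s'

/-- **CoA.** Counting the pairs of type `Al`.

Proof. Fix `s'`; let `T = {s ∈ S | Unb G S b s s' ∧ Al G S s s'}`; we show `8 |T| ≤ |S|`.  If `T` is empty, trivial.  Otherwise `Unb` (for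
`X = ∅`) gives a connected `C₀`, disjoint from `N[s']`, `Lg S C₀`.  No element of `C₀` is in `T` (definition of `Al` with `C₀`), so
`T ⊆ S \ C₀`, `8 |S \ C₀| < |S|`.  Sum over the `|S|` elements `s'` (the set of pairs is the disjoint union of its fibres: for instance
`Finset.card_eq_sum_card_fiberwise`, or `Finset.card_le_mul_card_image`). -/
def S_CoA : Prop := ∀ (V : Type) [Finite V] (G : SimpleGraph V) (S : Set V) (b : ℕ), 1 ≤ b →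
  8 * {p : V × V | p.1 ∈ S ∧ p.2 ∈ S ∧ Unb G S b p.1 p.2 ∧ Al G S p.1 p.2}.ncard ≤ S.ncard ^ 2

/-- **CoB.** Counting the pairs of type `Be`.

Proof. Fix `s ∈ S`; let `T = {s' ∈ S | Be G S s s' ∧ ¬ Al G S s s'}`; we show `8 |T| ≤ |S|`.  If `T` is empty, trivial.  There is a connected
large set `C₁ ∋ s` (`¬ Al`).  Among all pairs `(c, R)` with `Conn G R`, `Lg S R`, `c ∉ R`, (closed) `∀ u ∈ R, ∀ v, u ~ v → v ∈ R ∨ v = c`,
`s ∉ R` choose one, `(c₀, R₀)`, with `|R₀|` minimal.  CLAIM: if `s' ∈ T` then `s' ∉ R₀`; so `T ⊆ S \ R₀` and `8 |S \ R₀| < |S|`.  Let `(c, R)` be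
the pair of `Be G S s s'` and suppose `s' ∈ R₀`.  `R` and `R₀` meet (both large), `R₀` is connected, contains `s' ∉ R`; so there is an edge from
`R ∩ R₀` to `R₀ \ R`, its end is `c` (closed): `c ∈ R₀`.  If `c₀ ∉ R` then `R ⊆ R₀` (`R` is connected, meets `R₀`, an edge leaving `R₀` ends in
`c₀ ∉ R`), and `c ∈ R₀ \ R`, so `|R| < |R₀|`, against the minimality.  So `c₀ ∈ R`.  Then the neighbours of `R ∪ R₀` are in `R ∪ R₀`
(`c ∈ R₀`, `c₀ ∈ R`).  `C₁` meets `R` (both large) and is connected, so `C₁ ⊆ R ∪ R₀`, but `s ∈ C₁`, `s ∉ R`, `s ∉ R₀`: contradiction.  Sum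
over `s`. -/
def S_CoB : Prop := ∀ (V : Type) [Finite V] (G : SimpleGraph V) (S : Set V),
  8 * {p : V × V | p.1 ∈ S ∧ p.2 ∈ S ∧ Be G S p.1 p.2 ∧ ¬ Al G S p.1 p.2}.ncard ≤ S.ncard ^ 2

/-- **Mat.** Many disjoint good pairs.

Proof. Induction on the number `l ≤ t` of pairs already chosen.  `S'` = `S` without the `2 l` chosen elements,
`|S'| ≥ |S| - 2 t`.  If `U u v` for all different `u, v ∈ S'` then the set of pairs has at least `|S'| (|S'| - 1)` elements; with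
`n = |S| ≥ 100 (t + 1)`: `|S'| ≥ 98 n / 100` and `8 |S'| (|S'| - 1) > 3 n²`, contradiction.  So there are `u ≠ v` in `S'` with `¬ U u v`. -/
def S_Mat : Prop := ∀ (V : Type) [Finite V] (S : Set V) (U : V → V → Prop) (t : ℕ),
  100 * (t + 1) ≤ S.ncard →
  8 * {p : V × V | p.1 ∈ S ∧ p.2 ∈ S ∧ p.1 ≠ p.2 ∧ U p.1 p.2}.ncard ≤ 3 * S.ncard ^ 2 →
  ∃ a b : ℕ → V, (∀ l < t, a l ∈ S ∧ b l ∈ S ∧ a l ≠ b l ∧ ¬ U (a l) (b l)) ∧
    ∀ l < t, ∀ l' < t, l ≠ l' → a l ≠ a l' ∧ b l ≠ b l' ∧ a l ≠ b l' ∧ b l ≠ a l'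

/-! ### part 3: balanced pairs -/

/-- **Grp.** A balanced pair gives a balanced separation.

Proof. `Z = NN G s s' ∪ X`, where `|X| < b` and no connected set disjoint from `Z` is large.  `|S ∩ Z| ≤ b + 1` (`S` is stable, so
`S ∩ NN ⊆ {s, s'}`).  `W = Zᶜ`, `|S ∩ W| ≥ |S| - b - 1`.  Call `P ⊆ W` closed if no edge leaves `P` inside `W`.  `W` is closed and
`16 |S ∩ W| ≥ |S|`.  Choose a closed `P` with `|S| ≤ 16 |S ∩ P|` and `|P|` minimal, `R = W \ P`; `(P, Z, R)` is a separation.  Suppose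
`16 |S ∩ R| < |S|`.  Then `16 |S ∩ P| > 16 (|S| - b - 1) - |S| ≥ 14 |S|` since `|S| ≥ 16 (b + 2)`; so `P` is large, hence not connected; it is
not empty; so `P = P₁ ∪ P₂` disjoint, nonempty, without edges between them (negation of `Conn`), both closed and smaller, so `16 |S ∩ P_i| < |S|` and
`16 |S ∩ P| < 2 |S|`: contradiction. -/
def S_Grp : Prop := ∀ (V : Type) [Finite V] (G : SimpleGraph V) (S : Set V) (b : ℕ) (s s' : V),
  Lt G S → s ∈ S → s' ∈ S → 16 * (b + 2) ≤ S.ncard → ¬ Unb G S b s s' →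
  ∃ X P R : Set V, X.ncard < b ∧ Sepa G P (NN G s s' ∪ X) R ∧ S.ncard ≤ 16 * (S ∩ P).ncard ∧
    S.ncard ≤ 16 * (S ∩ R).ncard

/-- **Cnt.** Double counting.

Proof. `t = 512 t'`, `e = 512 * 2 ^ t`.  Let `n = |S|` (`n = 0` is trivial).  For `(u, v) ∈ S × S` let `d(u, v)` be the number of `l < t`
with `u ∈ P l`, `v ∈ R l`.  The sum of all `d` is the sum over `l` of `|S ∩ P l| |S ∩ R l| ≥ n² / 256`, so `256 ∑ d ≥ t n²`.  Let `N` be the number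
of pairs with `d ≥ t'`: `∑ d ≤ N t + n² t'`, so `256 N t ≥ t n² - 256 t' n² = t n² / 2`, `512 N ≥ n²`.  Every such pair has a set `Λ` of exactly
`t'` indices `l < t` with `u ∈ P l`, `v ∈ R l`; there are at most `2 ^ t` sets `Λ`, so for one of them at least `N / 2 ^ t` pairs:
`n² ≤ 512 * 2 ^ t * |A| |B|` with `A = {u ∈ S | ∀ l ∈ Λ, u ∈ P l}`, `B` the same for `R`.  `|B| ≤ n` gives `n ≤ e |A|`, and
`|A| ≤ n` gives `n ≤ e |B|`. -/
def S_Cnt : Prop := ∀ t' : ℕ, 1 ≤ t' → ∃ t e : ℕ, 1 ≤ e ∧ ∀ (V : Type) [Finite V] (S : Set V)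
  (P R : ℕ → Set V), (∀ l < t, S.ncard ≤ 16 * (S ∩ P l).ncard ∧ S.ncard ≤ 16 * (S ∩ R l).ncard) →
  ∃ Λ : Finset ℕ, Λ ⊆ Finset.range t ∧ Λ.card = t' ∧
    S.ncard ≤ e * (S ∩ {v | ∀ l ∈ Λ, v ∈ P l}).ncard ∧
    S.ncard ≤ e * (S ∩ {v | ∀ l ∈ Λ, v ∈ R l}).ncard

/-- **MeU.** Disjoint paths.  (Uses `GT.SMen`.)

Proof. `GT.SMen`; let `GT.Cut G A B L X` with `|X| < ρ`.  `P = L`, `Z = X`, `R` = the rest: a separation (`Cut.far`).
`|S ∩ P| ≥ |A \ X| ≥ |A| - ρ` (`Cut.head`: `A ⊆ L ∪ X`), `|S ∩ R| ≥ |B \ X| ≥ |B| - ρ` (`Cut.last`: `B` is disjoint from `L`), and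
`e (|A| - ρ) ≥ |S|`: both alternatives of `Usp` fail. -/
def S_MeU : Prop := GT.SMen → ∀ (V : Type) [Fintype V] [DecidableEq V] (G : SimpleGraph V)
  (S : Set V) (A B : Finset V) (ρ e : ℕ), Usp G S ρ e → (∀ v ∈ A, v ∈ S) → (∀ v ∈ B, v ∈ S) →
  S.ncard + e * ρ ≤ e * A.card → S.ncard + e * ρ ≤ e * B.card → ∃ n p, GT.Lkg G A B ρ n p

/-- **Tou.** Five letters touched by many paths.

Proof. Let `l ∈ Λ`.  The path `i` starts in `P l` and ends in `R l`; let `x` be the last index with `p i x ∈ P l` (or use the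
first index not in `P l`); then the next vertex is not in `R l` (`Sepa.far`), so it is in `NN (a l) (b l) ∪ X l`.  So every path meets
`NN ∪ X l`.  The paths are disjoint, so fewer than `b` of them meet `X l` and at most two contain `a l` or `b l`.  The other
`≥ 2 m + b + 2 - (b - 1) - 2 ≥ 2 m` paths contain a neighbour of `a l` or of `b l` and contain neither `a l` nor `b l`.  So there are
`k_l ∈ {a l, b l}` and a set `I_l` of at least `m` paths which contain a neighbour of `k_l` and do not contain `k_l`.  There are `2 ^ ρ` sets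
`I ⊆ Fin ρ`, `|Λ| ≥ 5 * 2 ^ ρ`, so five indices `l` have the same `I_l = I` (`Finset.exists_lt_card_fiber_of_mul_lt_card_of_maps_to`); the
five letters `k_l` are different.  (`b = 0` is impossible: `X l` has fewer than `b` elements; if `Λ` is nonempty.) -/
def S_Tou : Prop := ∀ (V : Type) [Fintype V] [DecidableEq V] (G : SimpleGraph V) (S : Set V)
  (b m ρ : ℕ) (Λ : Finset ℕ) (a c : ℕ → V) (X P R : ℕ → Set V) (A B : Finset V) (n : Fin ρ → ℕ)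
  (p : Fin ρ → ℕ → V), ρ = 2 * m + b + 2 → 5 * 2 ^ ρ ≤ Λ.card →
  (∀ l ∈ Λ, a l ∈ S ∧ c l ∈ S ∧ (X l).ncard < b ∧ Sepa G (P l) (NN G (a l) (c l) ∪ X l) (R l)) →
  (∀ l ∈ Λ, ∀ l' ∈ Λ, l ≠ l' → a l ≠ a l' ∧ c l ≠ c l' ∧ a l ≠ c l' ∧ c l ≠ a l') →
  (∀ v ∈ A, ∀ l ∈ Λ, v ∈ P l) → (∀ v ∈ B, ∀ l ∈ Λ, v ∈ R l) → GT.Lkg G A B ρ n p →
  ∃ (k : Fin 5 → V) (I : Finset (Fin ρ)), Function.Injective k ∧ (∀ j, k j ∈ S) ∧ m ≤ I.card ∧
    ∀ i ∈ I, ∀ j, (∀ x ≤ n i, p i x ≠ k j) ∧ ∃ x ≤ n i, G.Adj (p i x) (k j)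

/-- **Seg.** A segment of a path.

Proof. `T(x, y)` = the set of the `j` such that `k j` is adjacent to some `p z`, `x ≤ z ≤ y`.  Let `y ≤ n` be minimal with `T(0, y)` = all
(`y = n` has it), then `x ≤ y` maximal with `T(x, y)` = all.  `y ≥ 4` as every vertex is adjacent to at most one letter (`Lt.low`), and
`y - x ≥ 4`.  By the minimality of `y` some `j ∉ T(0, y - 1)`, so `p y ~ k j` and no `p z`, `z < y`, is adjacent to `k j`; by the maximality of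
`x` some `i ∉ T(x + 1, y)`, so `p x ~ k i` and no `p z`, `x < z ≤ y`, is adjacent to `k i`.  `i ≠ j` (`p y ~ k j`, `x + 1 ≤ y`).  A letter
`k l`, `l ≠ i, j`, is adjacent to some `p z`, `x ≤ z ≤ y`; `z ≠ x` (`p x` sees only `k i`), `z ≠ y`. -/
def S_Seg : Prop := ∀ (V : Type) (G : SimpleGraph V) (S : Set V) (k : Fin 5 → V) (n : ℕ)
  (p : ℕ → V), Lt G S → Function.Injective k → (∀ j, k j ∈ S) → (∀ j, ∃ x ≤ n, G.Adj (p x) (k j)) →
  ∃ (x y : ℕ) (i j : Fin 5), x + 1 < y ∧ y ≤ n ∧ i ≠ j ∧ G.Adj (p x) (k i) ∧ G.Adj (p y) (k j) ∧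
    (∀ z, x < z → z < y → ¬ G.Adj (p z) (k i) ∧ ¬ G.Adj (p z) (k j)) ∧
    ∀ l, l ≠ i → l ≠ j → ∃ z, x < z ∧ z < y ∧ G.Adj (p z) (k l)

/-- **Rai.** The model from three rails.

Proof. `A0.aM1` with `A = Y₁ ∪ {u₁, i}`, `B = Y₂ ∪ {u₂, j}`, `C = Y₃`, `D = {l}`, `P = {q₀}`, `Q = {q₁}`.  `A`, `B` are connected
(`u₁` and `i` have neighbours in `Y₁`).  Touching: `A - B`: `i` and `Y₂`; `A - C`: `i` and `Y₃`; `A - D`: `Y₁` and `l`; `B - C`: `j` and `Y₃`;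
`B - D`: `Y₂` and `l`; `C - D`: `Y₃` and `l`; `A - P`: `u₁ ~ q₀`; `B - Q`: `u₂ ~ q₁`.  Not touching: the `Y`'s miss `q₀`, `q₁`; `u₁ ≁ q₁`, `u₂ ≁ q₀`
(`Lt.low`); letters are pairwise non-adjacent.  `u₁, u₂ ∉ S` (`S` is stable). -/
def S_Rai : Prop := ∀ (V : Type) (G : SimpleGraph V) (S Y₁ Y₂ Y₃ : Set V) (q₀ q₁ i j l u₁ u₂ : V),
  Lt G S → q₀ ∈ S → q₁ ∈ S → i ∈ S → j ∈ S → l ∈ S → q₀ ≠ q₁ → i ≠ q₀ → i ≠ q₁ → j ≠ q₀ → j ≠ q₁ →
  l ≠ q₀ → l ≠ q₁ → i ≠ j → i ≠ l → j ≠ l → Conn G Y₁ → Conn G Y₂ → Conn G Y₃ →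
  Disjoint Y₁ Y₂ → Disjoint Y₁ Y₃ → Disjoint Y₂ Y₃ →
  (∀ v, (v ∈ Y₁ ∨ v ∈ Y₂ ∨ v ∈ Y₃) → ¬ G.Adj v q₀ ∧ ¬ G.Adj v q₁ ∧ v ≠ q₀ ∧ v ≠ q₁ ∧ v ≠ i ∧ v ≠ j ∧ v ≠ l) →
  (∃ v ∈ Y₁, G.Adj v i) → (∃ v ∈ Y₁, G.Adj v l) → (∃ v ∈ Y₂, G.Adj v i) → (∃ v ∈ Y₂, G.Adj v j) →
  (∃ v ∈ Y₂, G.Adj v l) → (∃ v ∈ Y₃, G.Adj v i) → (∃ v ∈ Y₃, G.Adj v j) → (∃ v ∈ Y₃, G.Adj v l) →
  u₁ ∉ Y₁ → u₁ ∉ Y₂ → u₁ ∉ Y₃ → u₂ ∉ Y₁ → u₂ ∉ Y₂ → u₂ ∉ Y₃ → u₁ ≠ u₂ → (∃ v ∈ Y₁, G.Adj v u₁) →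
  (∃ v ∈ Y₂, G.Adj v u₂) → G.Adj u₁ q₀ → G.Adj u₂ q₁ → IMS K401 G Set.univ

/-- **R3.** Twenty-one paths.  (Uses `S_Seg`, `S_Rai`.)

Proof. Seg for every path `i ∈ I`: `x_i, y_i`, and the unordered pair of the two letters (a subset of `Fin 5` with two elements: ten
possibilities).  `21 > 2 * 10`: three paths have the same pair `{α, β}`; call them `1, 2, 3`; `q₀ = k α`, `q₁ = k β`.
`Y_i = {p i z | x_i < z < y_i}` is connected and nonempty; it touches the other three letters and neither `k α` nor `k β`.  One of the two ends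
`p 1 x_1`, `p 1 y_1` of the first segment is adjacent to `k α`: `u₁`; one of the two ends of the second segment is adjacent to `k β`: `u₂`.
`u₁ ≠ u₂` and `u₁ ∉ Y₁` by `Lkg.dis` and `Pth.inj`.  Rai with the three other letters. -/
def S_R3 : Prop := S_Seg → S_Rai → ∀ (V : Type) [Fintype V] [DecidableEq V] (G : SimpleGraph V)
  (S : Set V) (ρ : ℕ) (A B : Finset V) (n : Fin ρ → ℕ) (p : Fin ρ → ℕ → V) (k : Fin 5 → V)
  (I : Finset (Fin ρ)), Lt G S → GT.Lkg G A B ρ n p → Function.Injective k → (∀ j, k j ∈ S) →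
  21 ≤ I.card → (∀ i ∈ I, ∀ j, (∀ x ≤ n i, p i x ≠ k j) ∧ ∃ x ≤ n i, G.Adj (p i x) (k j)) →
  IMS K401 G Set.univ

/-- **LB.** Lemma B.  (The hypotheses `h1`, .. are the conclusions of the statements above; `b` is the number of `S_Bc`.)

Proof. `b` as in `h6`; we may suppose `1 ≤ b` (`Unb` is monotone: `Unb G S b' s s'` for `b' ≥ b` implies `Unb G S b s s'`; take `b' = b + 1`).
`ρ = 2 * 21 + b' + 2`, `t' = 5 * 2 ^ ρ`, `t, e₁` from Cnt for `t'`, `e = 2 e₁`,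
`n₀ = 100 (t + 1) + 16 (b' + 2) + 2 e₁ ρ`.  Let `G`, `S` be as in the statement.  By `h6` an unbalanced pair (for `b'`) of different
letters is of type `Al s s'`, `Al s' s` or `Be s s' ∧ ¬ Al s s'`.  So the number of the unbalanced pairs (`U u v := Unb G S b' u v`) is at most
`3 |S|² / 8` (CoA, CoA for the exchanged pairs [`NN G s s' = NN G s' s`, so `Unb` is symmetric; the map `(u, v) ↦ (v, u)` is a bijection],
CoB).  Mat: `a, c`, `t` disjoint balanced pairs.  Grp: `X l, P l, R l` for `l < t`.  Cnt: `Λ`, `A = S ∩ {v | ∀ l ∈ Λ, v ∈ P l}`, `B` the same for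
`R` (finite sets).  MeU with `e`: `|S| + e ρ ≤ e |A|` because `e |A| = 2 e₁ |A| ≥ 2 |S|` and `|S| ≥ 2 e₁ ρ`.  Tou with
`m = 21`; R3. -/
def S_LB : Prop := (∃ b : ℕ, ∀ (V : Type) [Finite V] (G : SimpleGraph V) (S : Set V) (s s' : V),
    ¬ IMS K401 G Set.univ → Lt G S → s ∈ S → s' ∈ S → s ≠ s' → Unb G S b s s' →
      Al G S s s' ∨ Al G S s' s ∨ Be G S s s') →
  S_CoA → S_CoB → S_Mat → S_Grp → S_Cnt → GT.SMen → S_MeU → S_Tou → S_Seg → S_Rai → S_R3 →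
  ∃ ρ e n₀ : ℕ, 1 ≤ e ∧ ∀ (V : Type) [Finite V] (G : SimpleGraph V) (S : Set V),
    ¬ IMS K401 G Set.univ → Lt G S → n₀ ≤ S.ncard → ¬ Usp G S ρ e

/-- **REG.** (Uses `S_Star`, `S_Rkm`, `S_Spl`, and the conclusion of `S_LB`.)

Proof. `ρ, e, n₀` from `S_LB`; `c₀ = 5 + 4 ρ + w₀`; for `β` let `M = β c₀`, `n = w₀ + e ^ 4 * (n₀ + M + 4 ρ + 2)`.
Let `S₁ = S \ W₀`, `|S₁| ≥ n - w₀`.  `F` = the vertices outside `W₀` complete to `S`, `U = (F ∪ W₀)ᶜ`; `S₁ ⊆ U` (an element of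
`S` is not adjacent to itself).  Every `v ∈ U` sees at most one element
of `S₁`.  `Γ = G.induce U`, `S_Γ` = the preimage of `S₁`: `Lt Γ S_Γ` and the same number of elements.  Spl for `Γ`.
CASE 1: `S₀ ⊆ S_Γ`, `|S_Γ| ≤ e ^ 4 |S₀|`, so `|S₀| ≥ n₀`; `Lt Γ S₀`; `Usp Γ S₀ ρ e`; `Γ` has no `K401` (induced subgraph of `G`): against `S_LB`.
CASE 2: `Q`, `D i`.  `E i` = the image in `V` of the set of the `v ∈ D i` such that some connected `C ⊆ D i` (in `Γ`) contains `v` and an element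
of `S_Γ`; `Q' = W₀ ∪ (image of Q)`, `|Q'| ≤ w₀ + 4 ρ`.  A neighbour `v` of `u ∈ E i` is in `E i ∪ F ∪ Q'` (if `v ∈ U`: `v ∈ D i` or `v ∈ Q`; if
`v ∈ D i` then `C ∪ {v}` is connected).  The `E i` are disjoint and anticomplete to each other.  Star with `S₁`: some `i` has at most five
sets; Rkm: `cr G (E i) ≤ 5 + |Q'| ≤ c₀`.  `Link` (with `c = c₀`): `|E i| ≤ M` or `|(E i)ᶜ| ≤ M`; but `E i` contains the image of `S_Γ ∩ D i` with more than `M`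
elements (`|S_Γ| ≤ e ^ 4 (|S_Γ ∩ D i| + 4 ρ)`), and `(E i)ᶜ` contains the image of `S_Γ ∩ D j` for `j ≠ i`. -/
def S_REG : Prop := S_Star → S_Rkm → S_Spl →
  (∃ ρ e n₀ : ℕ, 1 ≤ e ∧ ∀ (V : Type) [Finite V] (G : SimpleGraph V) (S : Set V),
    ¬ IMS K401 G Set.univ → Lt G S → n₀ ≤ S.ncard → ¬ Usp G S ρ e) →
  ∀ w₀ : ℕ, ∃ c₀ : ℕ, ∀ β : ℕ → ℕ, ∃ n : ℕ, ∀ (V : Type) [Finite V] (G : SimpleGraph V)
    (S W₀ : Set V), ¬ IMS K401 G Set.univ → Link β c₀ G → W₀.ncard ≤ w₀ → StO G S → n ≤ S.ncard →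
    ¬ ∀ v, v ∉ W₀ → (∀ s ∈ S, G.Adj v s) ∨ ∀ s ∈ S, ∀ s' ∈ S, G.Adj v s → G.Adj v s' → s = s'

end Pool.Agent.MPd439b2.RG
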