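import Pool.Agent.Lib.MP_d439b2_co.RG.Spec

/-!
# MP_d439b2_co, RG, Tou: five letters touched by many paths (helper1)
-/

set_option autoImplicit false

namespace Pool.Agent.MPd439b2.RG

open Pool.Agent.MPd439b2
open Pool.Agent.MPd439b2.Rep
open Pool.Agent.MPd439b2.A0

/-- disjoint paths which meet a set `X` are at most `|X|` in number -/
private theorem Tou_meet {V : Type} [Fintype V] [DecidableEq V] {G : SimpleGraph V} {A B : Finset V}
    {ρ : ℕ} {n : Fin ρ → ℕ} {p : Fin ρ → ℕ → V} (h : GT.Lkg G A B ρ n p) (X : Set V)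
    (I : Finset (Fin ρ)) (hI : ∀ i ∈ I, ∃ x ≤ n i, p i x ∈ X) : I.card ≤ X.ncard := by
  classical
  choose! f hf hfX using hI
  have h1 : (I.image fun i => p i (f i)).card = I.card := by
    apply Finset.card_image_of_injOn
    intro i hi j hj hij
    by_contra hne
    exact h.dis i j hne (f i) (hf i hi) (f j) (hf j hj) hij
  rw [← h1, ← Set.ncard_coe_finset]
  apply Set.ncard_le_ncard _ (Set.toFinite _)
  intro v hv
  simp only [Finset.coe_image, Set.mem_image, Finset.mem_coe] at hv
  obtain ⟨i, hi, rfl⟩ := hv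
  exact hfX i hi

theorem gTou : S_Tou := by
  classical
  intro V _ _ G S b m ρ Λ a c X P R A B n p hρ hΛ hl hne hA hB hL
  let J : V → Finset (Fin ρ) := fun v => Finset.univ.filter fun i =>
    (∀ x ≤ n i, p i x ≠ v) ∧ ∃ x ≤ n i, G.Adj (p i x) v
  have key : ∀ l ∈ Λ, ∃ v, (v = a l ∨ v = c l) ∧ m ≤ (J v).card := by
    intro l hlΛ
    obtain ⟨haS, hcS, hX, hsep⟩ := hl l hlΛ
    let I1 : Finset (Fin ρ) := Finset.univ.filter fun i => ∃ x ≤ n i, p i x ∈ X l
    let I2 : Finset (Fin ρ) := Finset.univ.filter fun i => ∃ x ≤ n i, p i x ∈ ({a l, c l} : Set V)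
    have h1 : I1.card ≤ (X l).ncard := Tou_meet hL _ _ fun i hi => (Finset.mem_filter.1 hi).2
    have h2 : I2.card ≤ ({a l, c l} : Set V).ncard :=
      Tou_meet hL _ _ fun i hi => (Finset.mem_filter.1 hi).2
    have h2' : ({a l, c l} : Set V).ncard ≤ 2 := Set.ncard_insert_le _ _ |>.trans (by simp)
    have hcov : (Finset.univ : Finset (Fin ρ)) ⊆ (I1 ∪ I2) ∪ (J (a l) ∪ J (c l)) := by
      intro i _
      by_cases hi1 : i ∈ I1
      · simp [hi1]
      by_cases hi2 : i ∈ I2
      · simp [hi2]
      have hn1 : ∀ x ≤ n i, p i x ∉ X l := by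
        intro x hx hxX
        exact hi1 (Finset.mem_filter.2 ⟨Finset.mem_univ _, x, hx, hxX⟩)
      have hn2 : ∀ x ≤ n i, p i x ≠ a l ∧ p i x ≠ c l := by
        intro x hx
        constructor
        · intro h
          exact hi2 (Finset.mem_filter.2 ⟨Finset.mem_univ _, x, hx, Or.inl h⟩)
        · intro h
          exact hi2 (Finset.mem_filter.2 ⟨Finset.mem_univ _, x, hx, Or.inr h⟩)
      -- the first vertex outside `P l`
      have hex : ∃ x, x ≤ n i ∧ p i x ∉ P l := by
        refine ⟨n i, le_refl _, fun h => ?_⟩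
        exact Set.disjoint_left.1 hsep.pr h (hB _ (hL.pth i).last l hlΛ)
      have hx := Nat.find_spec hex
      set x := Nat.find hex with hxdef
      have hx0 : x ≠ 0 := by
        intro h0
        apply hx.2
        rw [h0]
        exact hA _ (hL.pth i).head l hlΛ
      obtain ⟨y, hy⟩ : ∃ y, x = y + 1 := ⟨x - 1, by omega⟩
      have hyP : p i y ∈ P l := by
        by_contra h
        have := Nat.find_min' hex (m := y) ⟨by omega, h⟩
        omega
      have hadj : G.Adj (p i y) (p i (y + 1)) := (hL.pth i).adj y (by omega)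
      have hxR : p i x ∉ R l := by
        intro h
        rw [hy] at h
        exact hsep.far _ hyP _ h hadj
      have hxZ : p i x ∈ NN G (a l) (c l) ∪ X l := by
        have : p i x ∈ P l ∪ (NN G (a l) (c l) ∪ X l) ∪ R l := by
          rw [hsep.cov]; trivial
        rcases this with (h | h) | h
        · exact absurd h hx.2
        · exact h
        · exact absurd h hxR
      have hNN : G.Adj (p i x) (a l) ∨ G.Adj (p i x) (c l) := by
        rcases hxZ with h | h
        · rcases h with h | h | h | h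
          · exact absurd h (hn2 x hx.1).1
          · exact absurd h (hn2 x hx.1).2
          · exact Or.inl h
          · exact Or.inr h
        · exact absurd h (hn1 x hx.1)
      rcases hNN with h | h
      · have : i ∈ J (a l) := Finset.mem_filter.2
          ⟨Finset.mem_univ _, fun y hy => (hn2 y hy).1, x, hx.1, h⟩
        simp [this]
      · have : i ∈ J (c l) := Finset.mem_filter.2
          ⟨Finset.mem_univ _, fun y hy => (hn2 y hy).2, x, hx.1, h⟩
        simp [this]
    have h3 := Finset.card_le_card hcov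
    rw [Finset.card_univ, Fintype.card_fin] at h3
    have h4 := Finset.card_union_le (I1 ∪ I2) (J (a l) ∪ J (c l))
    have h5 := Finset.card_union_le I1 I2
    have h6 := Finset.card_union_le (J (a l)) (J (c l))
    by_cases h7 : m ≤ (J (a l)).card
    · exact ⟨a l, Or.inl rfl, h7⟩
    · exact ⟨c l, Or.inr rfl, by omega⟩
  have key' : ∀ l, ∃ v, (l ∈ Λ → v = a l ∨ v = c l) ∧ (l ∈ Λ → m ≤ (J v).card) := by
    intro l
    by_cases h : l ∈ Λ
    · obtain ⟨v, h1, h2⟩ := key l h
      exact ⟨v, fun _ => h1, fun _ => h2⟩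
    · exact ⟨a l, fun h' => absurd h' h, fun h' => absurd h' h⟩
  choose k hk hkm using key'
  obtain ⟨I, _, hI⟩ := Finset.exists_le_card_fiber_of_mul_le_card_of_maps_to
    (s := Λ) (t := (Finset.univ : Finset (Finset (Fin ρ)))) (f := fun l => J (k l)) (n := 5)
    (fun l _ => Finset.mem_univ _) ⟨∅, Finset.mem_univ _⟩ (by
      rw [Finset.card_univ, Fintype.card_finset, Fintype.card_fin]
      omega)
  obtain ⟨T, hT, hTc⟩ := Finset.exists_subset_card_eq hI
  let e := T.orderEmbOfFin hTc
  have he : ∀ j, e j ∈ Λ ∧ J (k (e j)) = I := by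
    intro j
    have h1 : e j ∈ T := T.orderEmbOfFin_mem hTc j
    exact Finset.mem_filter.1 (hT h1)
  refine ⟨fun j => k (e j), I, ?_, ?_, ?_, ?_⟩
  · intro j j' hjj
    by_contra hjne
    have hlne : e j ≠ e j' := fun h => hjne (e.injective h)
    obtain ⟨q1, q2, q3, q4⟩ := hne (e j) (he j).1 (e j') (he j').1 hlne
    simp only at hjj
    rcases hk _ (he j).1 with h1 | h1 <;> rcases hk _ (he j').1 with h2 | h2 <;>
      rw [h1, h2] at hjj
    · exact q1 hjj
    · exact q3 hjj
    · exact q4 hjj
    · exact q2 hjj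
  · intro j
    obtain ⟨h1, h2, _, _⟩ := hl (e j) (he j).1
    rcases hk _ (he j).1 with h3 | h3
    · show k (e j) ∈ S
      rw [h3]; exact h1
    · show k (e j) ∈ S
      rw [h3]; exact h2
  · rw [← (he 0).2]
    exact hkm _ (he 0).1
  · intro i hi j
    rw [← (he j).2] at hi
    exact (Finset.mem_filter.1 hi).2

end Pool.Agent.MPd439b2.RG
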